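import Pool.Agent.TH515.J1261

/-!
# Project PR (S04319): exponentials of strictly upper triangular real matrices as units
-/

set_option autoImplicit false

namespace Pool.Agent.N305.PR

open Finset Topology Filter Pool.Agent.TH91.RF Pool.Agent.TH91.NB.J887 Pool.Agent.TH91.LG.J1261

/-- real square matrices -/
abbrev Mat (n : ℕ) := Matrix (Fin n) (Fin n) ℝ

open Classical in
/-- the exponential of a strictly upper triangular matrix as a unit (the value is `1` for other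
matrices) -/
noncomputable def ex {n : ℕ} (x : Mat n) : (Mat n)ˣ :=
  if h : x ∈ (matFiltR n).F 1 then ue x h else 1

variable {n : ℕ}

theorem toF {x : Mat n} (hx : x ∈ FR n 1) : x ∈ (matFiltR n).F 1 := hx

theorem ex_eq {x : Mat n} (hx : x ∈ FR n 1) : ex x = ue x (toF hx) := by
  unfold ex
  rw [dif_pos (toF hx)]

theorem ex_val {x : Mat n} (hx : x ∈ FR n 1) : (ex x : Mat n) = IsNilpotent.exp x := by
  rw [ex_eq hx]
  rfl

theorem nilp {x : Mat n} (hx : x ∈ FR n 1) : IsNilpotent x := (matFiltR n).nilp hx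

theorem ex_zero : ex (0 : Mat n) = 1 := by
  apply Units.ext
  rw [ex_val (Submodule.zero_mem _), IsNilpotent.exp_zero, Units.val_one]

theorem ex_inv {x : Mat n} (hx : x ∈ FR n 1) : (ex x)⁻¹ = ex (-x) := by
  apply Units.ext
  rw [ex_val (Submodule.neg_mem _ hx), ex_eq hx, ue_inv_val]

theorem ex_add_of_commute {x y : Mat n} (hx : x ∈ FR n 1) (hy : y ∈ FR n 1) (h : x * y = y * x) :
    ex (x + y) = ex x * ex y := by
  apply Units.ext
  rw [Units.val_mul, ex_val hx, ex_val hy, ex_val (Submodule.add_mem _ hx hy)]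
  exact IsNilpotent.exp_add_of_commute h (nilp hx) (nilp hy)

theorem ex_zpow {x : Mat n} (hx : x ∈ FR n 1) (k : ℤ) : ex x ^ k = ex ((k : ℝ) • x) := by
  apply Units.ext
  rw [ex_eq hx, ue_zpow, ex_val (Submodule.smul_mem _ _ hx)]

theorem ex_npow {x : Mat n} (hx : x ∈ FR n 1) (k : ℕ) : ex x ^ k = ex ((k : ℝ) • x) := by
  have := ex_zpow hx (k : ℤ)
  rwa [zpow_natCast, Int.cast_natCast] at this

theorem ex_inj {x y : Mat n} (hx : x ∈ FR n 1) (hy : y ∈ FR n 1) (h : ex x = ex y) : x = y := by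
  refine (matFiltR n).exp_inj hx hy ?_
  rw [← ex_val hx, ← ex_val hy, h]

/-- the logarithm -/
noncomputable def lg (u : (Mat n)ˣ) : Mat n := Lg n n (u : Mat n)

theorem lg_ex {x : Mat n} (hx : x ∈ FR n 1) : lg (ex x) = x := by
  unfold lg
  rw [ex_val hx]
  exact Lg_exp hx

theorem continuous_lg : Continuous (lg : (Mat n)ˣ → Mat n) :=
  (Lg_continuous n).comp Units.continuous_val

theorem ex_surj {u : (Mat n)ˣ} (hu : (u : Mat n) - 1 ∈ FR n 1) :
    lg u ∈ FR n 1 ∧ ex (lg u) = u := by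
  obtain ⟨z, hz, h⟩ := (matFiltR n).exp_surj (w := (u : Mat n)) hu
  have hz' : z ∈ FR n 1 := hz
  have h2 : u = ex z := by
    apply Units.ext
    rw [ex_val hz', h]
  rw [h2, lg_ex hz']
  exact ⟨hz', rfl⟩

/-! ### Baker-Campbell-Hausdorff -/

theorem lat {T : Submodule ℝ (Mat n)} (hT : T ≤ FR n 1)
    (hTT : ∀ x ∈ T, ∀ y ∈ T, x * y - y * x ∈ T) : LieLat (matFiltR n) T.toAddSubgroup := by
  refine ⟨fun x hx => hT hx, fun u hu v hv => ?_⟩
  rw [← Rat.cast_smul_eq_qsmul ℝ]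
  exact T.smul_mem _ (hTT u hu v hv)

theorem idl' {T J : Submodule ℝ (Mat n)} (hJ : J ≤ T)
    (hTJ : ∀ x ∈ T, ∀ y ∈ J, x * y - y * x ∈ J) : LieIdl n T.toAddSubgroup J.toAddSubgroup := by
  refine ⟨fun x hx => hJ hx, fun u hu v hv => ?_⟩
  rw [← Rat.cast_smul_eq_qsmul ℝ]
  exact J.smul_mem _ (hTJ u hu v hv)

/-- `T` is a Lie algebra of strictly upper triangular matrices, `J` an ideal of `T`. -/
structure IsIdl (T J : Submodule ℝ (Mat n)) : Prop where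
  le1 : T ≤ FR n 1
  br : ∀ x ∈ T, ∀ y ∈ T, x * y - y * x ∈ T
  le : J ≤ T
  idl : ∀ x ∈ T, ∀ y ∈ J, x * y - y * x ∈ J

variable {T J : Submodule ℝ (Mat n)}

theorem IsIdl.mem1 (h : IsIdl T J) {x : Mat n} (hx : x ∈ T) : x ∈ FR n 1 := h.le1 hx

/-- `ex x * ex y = ex (x + y + j)` with `j` in an ideal containing `[x, y]` -/
theorem IsIdl.mul_add (h : IsIdl T J) {x y : Mat n} (hx : x ∈ T) (hy : y ∈ T)
    (hxy : x * y - y * x ∈ J) : ∃ j ∈ J, ex x * ex y = ex (x + y + j) := by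
  obtain ⟨j, hj, h1⟩ := (lat h.le1 h.br).exp_mul_add (idl' h.le h.idl) (x := x) (y := y) hx hy (by
    rw [← Rat.cast_smul_eq_qsmul ℝ]
    exact J.smul_mem _ hxy)
  refine ⟨j, hj, Units.ext ?_⟩
  rw [Units.val_mul, ex_val (h.le1 hx), ex_val (h.le1 hy),
    ex_val (h.le1 (T.add_mem (T.add_mem hx hy) (h.le hj))), h1]

theorem IsIdl.coset (h : IsIdl T J) {x x' : Mat n} (hx : x ∈ T) (hx' : x' ∈ T)
    (hxx : x' - x ∈ J) : ∃ j ∈ J, ex x' = ex x * ex j := by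
  obtain ⟨j, hj, h1⟩ := (lat h.le1 h.br).exp_coset (idl' h.le h.idl) (x := x) (x' := x') hx hx' hxx
  refine ⟨j, hj, Units.ext ?_⟩
  rw [Units.val_mul, ex_val (h.le1 hx), ex_val (h.le1 hx'), ex_val (h.le1 (h.le hj)), h1]

theorem IsIdl.mul_idl (h : IsIdl T J) {x j : Mat n} (hx : x ∈ T) (hj : j ∈ J) :
    ∃ j' ∈ J, ex x * ex j = ex (x + j') := by
  obtain ⟨j', hj', h1⟩ := (lat h.le1 h.br).exp_mul_idl (idl' h.le h.idl) (x := x) hx hj
  refine ⟨j', hj', Units.ext ?_⟩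
  rw [Units.val_mul, ex_val (h.le1 hx), ex_val (h.le1 (h.le hj)),
    ex_val (h.le1 (T.add_mem hx (h.le hj'))), h1]

/-- `ex (X + w) = ex X * ex (w + j)` -/
theorem ex_add_right {𝔫 𝔧 : Submodule ℝ (Mat n)} (h1 : 𝔫 ≤ FR n 1) (h𝔧 : 𝔧 ≤ 𝔫) {X : Mat n}
    (hX : X ∈ FR n 1) (hn : ∀ x ∈ 𝔫, ∀ y ∈ 𝔫, x * y - y * x ∈ 𝔧)
    (hXn : ∀ x ∈ 𝔫, X * x - x * X ∈ 𝔧) {w : Mat n} (hw : w ∈ 𝔫) :
    ∃ j ∈ 𝔧, ex (X + w) = ex X * ex (w + j) := by
  have hmem : ∀ u ∈ 𝔫 ⊔ Submodule.span ℝ {X}, ∃ x ∈ 𝔫, ∃ a : ℝ, u = x + a • X := by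
    intro u hu
    obtain ⟨x, hx, y, hy, rfl⟩ := Submodule.mem_sup.1 hu
    obtain ⟨a, rfl⟩ := Submodule.mem_span_singleton.1 hy
    exact ⟨x, hx, a, rfl⟩
  have hbr : ∀ u ∈ 𝔫 ⊔ Submodule.span ℝ {X}, ∀ v ∈ 𝔫 ⊔ Submodule.span ℝ {X},
      u * v - v * u ∈ 𝔧 := by
    intro u hu v hv
    obtain ⟨x, hx, a, rfl⟩ := hmem u hu
    obtain ⟨y, hy, b, rfl⟩ := hmem v hv
    have e : (x + a • X) * (y + b • X) - (y + b • X) * (x + a • X) =
        (x * y - y * x) + a • (X * y - y * X) - b • (X * x - x * X) := by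
      simp only [add_mul, mul_add, smul_mul_assoc, mul_smul_comm, smul_sub, smul_add, smul_smul,
        mul_comm b a]
      abel
    rw [e]
    exact 𝔧.sub_mem (𝔧.add_mem (hn x hx y hy) (𝔧.smul_mem _ (hXn y hy))) (𝔧.smul_mem _ (hXn x hx))
  have hle : 𝔧 ≤ 𝔫 ⊔ Submodule.span ℝ {X} := h𝔧.trans le_sup_left
  have hI : IsIdl (𝔫 ⊔ Submodule.span ℝ {X}) 𝔧 := by
    refine ⟨sup_le h1 ?_, fun u hu v hv => hle (hbr u hu v hv), hle,
      fun u hu v hv => hbr u hu v (hle hv)⟩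
    rw [Submodule.span_le, Set.singleton_subset_iff]
    exact hX
  have hXT : X ∈ 𝔫 ⊔ Submodule.span ℝ {X} :=
    Submodule.mem_sup_right (Submodule.mem_span_singleton_self X)
  have hwT : w ∈ 𝔫 ⊔ Submodule.span ℝ {X} := Submodule.mem_sup_left hw
  have hXw : X + w ∈ 𝔫 ⊔ Submodule.span ℝ {X} := Submodule.add_mem _ hXT hwT
  obtain ⟨j, hj, h2⟩ := hI.mul_add (Submodule.neg_mem _ hXT) hXw
    (hbr _ (Submodule.neg_mem _ hXT) _ hXw)
  refine ⟨j, hj, ?_⟩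
  have e : -X + (X + w) + j = w + j := by abel
  rw [e, ← ex_inv hX] at h2
  rw [← h2, mul_inv_cancel_left]

/-! ### Conjugation -/

/-- the adjoint action of `ex X` -/
noncomputable def Adf (X w : Mat n) : Mat n :=
  ∑ k ∈ range (n + 1), ((k.factorial : ℚ))⁻¹ • (adr (-X))^[k] w

theorem Adf_mem1 {X w : Mat n} (hX : X ∈ FR n 1) (hw : w ∈ FR n 1) : Adf X w ∈ FR n 1 := by
  have h : Adf X w ∈ (matFiltR n).F 1 := by
    refine Submodule.sum_mem _ fun k _ => Submodule.smul_mem _ _ ?_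
    exact (matFiltR n).anti (by omega)
      ((matFiltR n).adr_iter_mem (Submodule.neg_mem _ hX) (show w ∈ (matFiltR n).F 1 from hw) k)
  exact h

theorem adr_neg (X w : Mat n) : adr (-X) w = X * w - w * X := by
  unfold adr
  noncomm_ring

theorem ex_conj {X w : Mat n} (hX : X ∈ FR n 1) (hw : w ∈ FR n 1) :
    ex X * ex w * (ex X)⁻¹ = ex (Adf X w) := by
  apply Units.ext
  rw [ex_inv hX, Units.val_mul, Units.val_mul, ex_val hX, ex_val hw,
    ex_val (Submodule.neg_mem _ hX), ex_val (Adf_mem1 hX hw)]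
  exact (matFiltR n).lieLat.exp_conj_eq hX hw

/-- `Adf X w - w` lies in every subspace that contains the iterated brackets -/
theorem Adf_sub_mem {𝔧 : Submodule ℝ (Mat n)} {X w : Mat n} (hw : X * w - w * X ∈ 𝔧)
    (h : ∀ x ∈ 𝔧, X * x - x * X ∈ 𝔧) : Adf X w - w ∈ 𝔧 := by
  have key : ∀ k, (adr (-X))^[k + 1] w ∈ 𝔧 := by
    intro k
    induction k with
    | zero =>
      rw [Function.iterate_succ_apply', Function.iterate_zero_apply, adr_neg]
      exact hw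
    | succ k ih =>
      rw [Function.iterate_succ_apply', adr_neg]
      exact h _ ih
  unfold Adf
  rw [sum_range_succ', Function.iterate_zero_apply, Nat.factorial_zero, Nat.cast_one, inv_one,
    one_smul, add_sub_cancel_right]
  refine Submodule.sum_mem _ fun k _ => ?_
  rw [← Rat.cast_smul_eq_qsmul ℝ]
  exact 𝔧.smul_mem _ (key k)

/-! ### Continuity -/

theorem ex_val' {x : Mat n} (hx : x ∈ FR n 1) : (ex x : Mat n) = Ex n x := by
  rw [ex_val hx]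
  exact (matFiltR n).exp_eq hx

theorem continuousOn_ex : ContinuousOn (ex : Mat n → (Mat n)ˣ) (FR n 1 : Set (Mat n)) := by
  rw [continuousOn_iff_continuous_domRestrict, Units.continuous_iff]
  constructor
  · have h : Continuous fun x : (FR n 1 : Set (Mat n)) => Ex n (x : Mat n) :=
      Ex_continuous.comp continuous_subtype_val
    exact h.congr fun x => (ex_val' x.2).symm
  · have h : Continuous fun x : (FR n 1 : Set (Mat n)) => Ex n (-(x : Mat n)) :=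
      Ex_continuous.comp continuous_subtype_val.neg
    refine h.congr fun x => ?_
    have e : ((ex (x : Mat n))⁻¹ : (Mat n)ˣ) = ex (-(x : Mat n)) := ex_inv x.2
    show _ = (((ex (x : Mat n))⁻¹ : (Mat n)ˣ) : Mat n)
    rw [e]
    exact (ex_val' (Submodule.neg_mem _ x.2)).symm

theorem isTopologicalGroup_units : IsTopologicalGroup (Mat n)ˣ := inferInstance

/-- Lie algebra of strictly upper triangular matrices -/
structure IsLie (𝔫 : Submodule ℝ (Mat n)) : Prop where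
  le1 : 𝔫 ≤ FR n 1
  br : ∀ x ∈ 𝔫, ∀ y ∈ 𝔫, x * y - y * x ∈ 𝔫

theorem IsLie.self {𝔫 : Submodule ℝ (Mat n)} (h : IsLie 𝔫) : IsIdl 𝔫 𝔫 := ⟨h.le1, h.br, le_rfl, h.br⟩

/-- the group of the exponentials -/
noncomputable def exG {𝔫 : Submodule ℝ (Mat n)} (h : IsLie 𝔫) : Subgroup (Mat n)ˣ where
  carrier := {u | ∃ x ∈ 𝔫, u = ex x}
  mul_mem' := by
    rintro a b ⟨x, hx, rfl⟩ ⟨y, hy, rfl⟩
    obtain ⟨j, hj, h1⟩ := h.self.mul_add hx hy (h.br x hx y hy)
    exact ⟨_, 𝔫.add_mem (𝔫.add_mem hx hy) hj, h1⟩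
  one_mem' := ⟨0, 𝔫.zero_mem, ex_zero.symm⟩
  inv_mem' := by
    rintro a ⟨x, hx, rfl⟩
    exact ⟨-x, 𝔫.neg_mem hx, ex_inv (h.le1 hx)⟩

theorem mem_exG {𝔫 : Submodule ℝ (Mat n)} (h : IsLie 𝔫) {u : (Mat n)ˣ} :
    u ∈ exG h ↔ ∃ x ∈ 𝔫, u = ex x := Iff.rfl

end Pool.Agent.N305.PR
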