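import Pool.Agent.N305.PR.Lattice

/-!
# Project PR: characters of `H` and the conclusion in the model
-/

set_option autoImplicit false

namespace Pool.Agent.N305.PR

open Finset Topology Filter Pool.Agent.TH91.RF Pool.Agent.TH91.NB.J887

/-- a functional with prescribed values at `M` and on `𝔤` -/
theorem Sys.exists_ext (S : Sys) (f : Mat S.N →ₗ[ℝ] ℝ) (θ : ℝ) :
    ∃ l : Mat S.N →ₗ[ℝ] ℝ, l S.M = θ ∧ ∀ z ∈ S.𝔤, l z = f z := by
  have hM : S.M ∉ S.𝔤 := by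
    intro h
    have := S.indep 1 (by rwa [one_smul])
    exact one_ne_zero this
  obtain ⟨τ, hτ, hτ2⟩ := Submodule.exists_le_ker_of_notMem hM
  refine ⟨f + ((θ - f S.M) / τ S.M) • τ, ?_, fun z hz => ?_⟩
  · rw [LinearMap.add_apply, LinearMap.smul_apply, smul_eq_mul, div_mul_cancel₀ _ hτ]
    ring
  · rw [LinearMap.add_apply, LinearMap.smul_apply, show τ z = 0 from hτ2 hz, smul_zero, add_zero]

section chars

variable (S : Sys) {I : Type} {p : I → Polynomial ℤ} (O : OpSys S.𝔤 S.M p)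

theorem Sys.char_trivial (hlin : S_LINCHAR) (hfacts : S_FACTS) (heta : S_ETA) (k : ℕ) (hk : 0 < k)
    (c : O.H →* Circle) (hc : Continuous c) (hS : ∀ s ∈ O.SS k, c s = 1)
    (hL : ∀ l ∈ S.LH O, c l = 1) (h : O.H) : c h = 1 := by
  classical
  obtain ⟨hf, hsp⟩ := hfacts S
  set χ : Mat O.n → Circle := fun x => if hx : x ∈ O.𝔫 then c ⟨ex x, O.ex_mem_H hx⟩ else 1 with hχ
  have hχ1 : ∀ x (hx : x ∈ O.𝔫), χ x = c ⟨ex x, O.ex_mem_H hx⟩ := by
    intro x hx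
    rw [hχ]
    simp only
    rw [dif_pos hx]
  have hcont : ContinuousOn χ (O.𝔫 : Set (Mat O.n)) := by
    rw [continuousOn_iff_continuous_domRestrict]
    have h1 : Continuous fun x : (O.𝔫 : Set (Mat O.n)) =>
        (⟨ex (x : Mat O.n), O.ex_mem_H x.2⟩ : O.H) := by
      refine Continuous.subtype_mk ?_ _
      exact continuousOn_ex.comp_continuous continuous_subtype_val fun x => O.lie.le1 x.2
    exact (hc.comp h1).congr fun x => (hχ1 x.1 x.2).symm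
  have hmul : ∀ x ∈ O.𝔫, ∀ y ∈ O.𝔫, ∀ z ∈ O.𝔫, ex x * ex y = ex z → χ z = χ x * χ y := by
    intro x hx y hy z hz hxy
    rw [hχ1 x hx, hχ1 y hy, hχ1 z hz, ← map_mul]
    congr 1
    exact Subtype.ext hxy.symm
  obtain ⟨ℓ, hℓ1, hℓ2, hℓ3⟩ := hlin O.n O.𝔫 O.lie χ hcont hmul
  -- invariance under conjugation
  have hconj : ∀ (X : Mat O.n) (hX : X ∈ FR O.n 1), ex X ∈ O.H →
      (∀ x ∈ O.𝔫, X * x - x * X ∈ O.𝔫) → ∀ x ∈ O.𝔫, ℓ (X * x - x * X) = 0 := by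
    intro X hX hXH hXn
    refine hℓ3 X hX hXn fun x hx => ?_
    rw [hχ1 x hx, hχ1 _ (O.Adf_mem hXn hx)]
    have e : (⟨ex (Adf X x), O.ex_mem_H (O.Adf_mem hXn hx)⟩ : O.H) =
        ⟨ex X, hXH⟩ * ⟨ex x, O.ex_mem_H hx⟩ * (⟨ex X, hXH⟩ : O.H)⁻¹ :=
      Subtype.ext (ex_conj hX (O.lie.le1 hx)).symm
    rw [e, map_mul, map_mul, map_inv, mul_comm, inv_mul_cancel_left]
  have hℓD := hconj O.D O.hD O.s_mem_H O.D_mem
  have hℓA := hconj O.A O.hA O.t_mem_H O.A_mem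
  -- the kernel of ℓ contains all the brackets
  have hℓbr : ∀ (X : Mat O.n) (hX : X ∈ FR O.n 1) (hXn : ∀ x ∈ O.𝔫, X * x - x * X ∈ O.𝔫)
      (h0 : ∀ x ∈ O.𝔫, ℓ (X * x - x * X) = 0) (w : Mat O.n) (hw : w ∈ O.𝔫),
      ∃ v ∈ O.𝔫, ℓ v = ℓ w ∧ ex (X + w) = ex X * ex v := by
    intro X hX hXn h0 w hw
    obtain ⟨j, hj, h1⟩ := ex_add_right (𝔫 := O.𝔫) (𝔧 := O.𝔫 ⊓ LinearMap.ker ℓ) O.lie.le1
      inf_le_left hX (fun x hx y hy => ⟨O.lie.br x hx y hy, hℓ2 x hx y hy⟩)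
      (fun x hx => ⟨hXn x hx, h0 x hx⟩) hw
    refine ⟨w + j, O.𝔫.add_mem hw hj.1, ?_, h1⟩
    rw [map_add, show ℓ j = 0 from hj.2, add_zero]
  -- c (s) and c (t)
  have hcs : c (O.sH) ^ k = 1 := by
    rw [← map_pow]
    refine hS _ ⟨1, 0, ?_⟩
    rw [mul_one, zpow_natCast, zpow_zero, mul_one]
  have hct : c (O.tH) = 1 := hS _ ⟨0, 1, by rw [mul_zero, zpow_zero, zpow_one, one_mul]⟩
  -- values of c
  have hval : ∀ (X : Mat O.n) (hX : X ∈ FR O.n 1) (hXH : ex X ∈ O.H)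
      (hXn : ∀ x ∈ O.𝔫, X * x - x * X ∈ O.𝔫) (h0 : ∀ x ∈ O.𝔫, ℓ (X * x - x * X) = 0)
      (w : Mat O.n) (hw : w ∈ O.𝔫), ∃ hH : ex (X + w) ∈ O.H,
      c ⟨ex (X + w), hH⟩ = c ⟨ex X, hXH⟩ * Circle.exp (ℓ w) := by
    intro X hX hXH hXn h0 w hw
    obtain ⟨v, hv, hv1, hv2⟩ := hℓbr X hX hXn h0 w hw
    have hH : ex (X + w) ∈ O.H := by
      rw [hv2]
      exact O.H.mul_mem hXH (O.ex_mem_H hv)
    refine ⟨hH, ?_⟩
    have e : (⟨ex (X + w), hH⟩ : O.H) = ⟨ex X, hXH⟩ * ⟨ex v, O.ex_mem_H hv⟩ := Subtype.ext hv2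
    rw [e, map_mul, ← hχ1 v hv, hℓ1 v hv, hv1]
  -- first application: constants
  have hc0 : ∀ z ∈ S.𝔤, ℓ (O.c z) = 0 := by
    obtain ⟨l, hl1, hl2⟩ := S.exists_ext (ℓ ∘ₗ O.c) 0
    have h1 := heta S k hk l (fun x hx y hy => by
        rw [hl2 _ (S.lie.br x hx y hy), LinearMap.comp_apply, ← O.cc x hx y hy]
        exact hℓ2 _ (O.c_mem x hx) _ (O.c_mem y hy))
      (fun x hx => by
        rw [hl2 _ (S.brM x hx), LinearMap.comp_apply, ← O.Ac x hx]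
        exact hℓA _ (O.c_mem x hx))
      (by rw [hl1, mul_zero, Circle.exp_zero]) hf
      (fun z hz hγ => by
        rw [map_add, hl1, zero_add, hl2 z hz, LinearMap.comp_apply]
        obtain ⟨hH, h2⟩ := hval O.A O.hA O.t_mem_H O.A_mem hℓA (O.c z) (O.c_mem z hz)
        have h3 : (⟨ex (O.A + O.c z), hH⟩ : O.H) ∈ S.LH O := by
          obtain ⟨h4, _, h5⟩ := O.ex_A z hz
          refine ⟨h4, fun i m => ?_⟩
          show O.E i m ⟨ex (O.A + O.c z), h4⟩ ∈ S.Γ'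
          rw [h5]
          exact hγ
        have h6 : (⟨ex O.A, O.t_mem_H⟩ : O.H) = O.tH := rfl
        rw [hL _ h3, h6, hct, one_mul] at h2
        exact h2.symm)
    intro z hz
    have h2 := h1.2 z hz
    rwa [hl2 z hz] at h2
  -- second application
  obtain ⟨θ, hθ⟩ : ∃ θ : ℝ, Circle.exp θ = c O.sH := ⟨_, Circle.exp_arg _⟩
  have hq0 : Circle.exp θ = 1 ∧ ∀ z ∈ S.𝔤, ℓ (O.q z) = 0 := by
    obtain ⟨l, hl1, hl2⟩ := S.exists_ext (ℓ ∘ₗ O.q) θ
    have h1 := heta S k hk l (fun x hx y hy => by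
        rw [hl2 _ (S.lie.br x hx y hy), LinearMap.comp_apply, ← O.cq x hx y hy]
        exact hℓ2 _ (O.c_mem x hx) _ (O.q_mem y hy))
      (fun x hx => by
        rw [hl2 _ (S.brM x hx), LinearMap.comp_apply, ← O.Aq x hx]
        exact hℓA _ (O.q_mem x hx))
      (by
        rw [hl1]
        have : Circle.exp (k * θ) = Circle.exp θ ^ k := by
          rw [← nsmul_eq_mul]
          exact map_nsmul Circle.expHom k θ
        rw [this, hθ, hcs]) hf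
      (fun z hz hγ => by
        rw [map_add, hl1, Circle.exp_add, hl2 z hz, LinearMap.comp_apply]
        obtain ⟨hH, h2⟩ := hval O.D O.hD O.s_mem_H O.D_mem hℓD (O.q z) (O.q_mem z hz)
        have h3 : (⟨ex (O.D + O.q z), hH⟩ : O.H) ∈ S.LH O := by
          obtain ⟨h4, _, h5⟩ := O.ex_D z hz
          refine ⟨h4, fun i m => ?_⟩
          show O.E i m ⟨ex (O.D + O.q z), h4⟩ ∈ S.Γ'
          rw [h5, OpSys.zsmul_real, ← ex_zpow (Submodule.add_mem _ S.hM (S.lie.le1 hz))]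
          exact S.Γ'.zpow_mem hγ _
        have h6 : (⟨ex O.D, O.s_mem_H⟩ : O.H) = O.sH := rfl
        rw [hL _ h3, h6, ← hθ] at h2
        exact h2.symm)
    rw [hl1] at h1
    refine ⟨h1.1, fun z hz => ?_⟩
    have h2 := h1.2 z hz
    rwa [hl2 z hz] at h2
  -- ℓ = 0 on 𝔫
  have hℓ0 : ∀ x ∈ O.𝔫, ℓ x = 0 := by
    have h1 := O.gen (LinearMap.ker ℓ) hc0 hq0.2 hℓ2 hℓD hℓA
    exact fun x hx => h1 hx
  -- conclusion
  obtain ⟨u, x, hx, a, b, rfl⟩ := h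
  have e : (⟨ex x * O.s ^ a * O.t ^ b, ⟨x, hx, a, b, rfl⟩⟩ : O.H) =
      ⟨ex x, O.ex_mem_H hx⟩ * (O.sH ^ a * O.tH ^ b) := by
    apply Subtype.ext
    simp [OpSys.sH, OpSys.tH, mul_assoc]
  rw [e, map_mul, map_mul, map_zpow, map_zpow, hct, ← hθ, hq0.1, ← hχ1 x hx, hℓ1 x hx, hℓ0 x hx,
    Circle.exp_zero, one_zpow, one_zpow, mul_one, mul_one]

end chars

/-- the forward orbits of a minimal system are dense (two generators, one of them forward) -/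
theorem forward_dense {Y : Type} [TopologicalSpace Y] [CompactSpace Y] [T2Space Y] {H : Type}
    [Group H] [TopologicalSpace H] [MulAction H Y] [ContinuousConstSMul H Y] (u v : H)
    (huv : u * v = v * u) (hmin : ∀ y : Y, Dense {z | ∃ a b : ℤ, z = (u ^ a * v ^ b) • y}) (y : Y)
    (W : Set Y) (hW : IsOpen W) (hWne : W.Nonempty) :
    ∃ n : ℕ, 0 < n ∧ ∃ b : ℤ, (u ^ n * v ^ b) • y ∈ W := by
  have hcomm : Commute u v := huv
  -- the closed sets `C n`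
  set C : ℕ → Set Y := fun n => closure {z | ∃ m : ℕ, n ≤ m ∧ ∃ b : ℤ, z = (u ^ m * v ^ b) • y}
    with hC
  have hCanti : ∀ n, C (n + 1) ⊆ C n := by
    intro n
    refine closure_mono ?_
    rintro z ⟨m, hm, b, rfl⟩
    exact ⟨m, by omega, b, rfl⟩
  have hCne : ∀ n, (C n).Nonempty := fun n => ⟨(u ^ n * v ^ (0 : ℤ)) • y, subset_closure
    ⟨n, le_rfl, 0, rfl⟩⟩
  obtain ⟨z₀, hz₀⟩ := IsCompact.nonempty_iInter_of_sequence_nonempty_isCompact_isClosed C hCanti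
    hCne isClosed_closure.isCompact (fun n => isClosed_closure)
  rw [Set.mem_iInter] at hz₀
  -- the orbit of `z₀` stays in `C 1`
  have hmv : ∀ (g : H) (n n' : ℕ), (∀ m : ℕ, n ≤ m → ∀ b : ℤ, ∃ m' : ℕ, n' ≤ m' ∧ ∃ b' : ℤ,
      g * (u ^ m * v ^ b) = u ^ m' * v ^ b') → ∀ z ∈ C n, g • z ∈ C n' := by
    intro g n n' hg z hz
    have h1 : Set.MapsTo (fun z : Y => g • z) {z | ∃ m : ℕ, n ≤ m ∧ ∃ b : ℤ, z = (u ^ m * v ^ b) • y}
        {z | ∃ m : ℕ, n' ≤ m ∧ ∃ b : ℤ, z = (u ^ m * v ^ b) • y} := by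
      rintro z ⟨m, hm, b, rfl⟩
      obtain ⟨m', hm', b', h⟩ := hg m hm b
      exact ⟨m', hm', b', by rw [← h]; exact (mul_smul _ _ _).symm⟩
    exact h1.closure (continuous_const_smul g) hz
  have horb : ∀ a b : ℤ, (u ^ a * v ^ b) • z₀ ∈ C 1 := by
    intro a b
    refine hmv (u ^ a * v ^ b) (a.natAbs + 1) 1 ?_ z₀ (hz₀ _)
    intro m hm b'
    refine ⟨(a + m).toNat, by omega, b + b', ?_⟩
    have h1 : (u ^ (a + m).toNat : H) = u ^ (a + m) := by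
      rw [← zpow_natCast, Int.toNat_of_nonneg (by omega)]
    rw [h1, zpow_add, zpow_add]
    calc u ^ a * v ^ b * (u ^ m * v ^ b') = u ^ a * (v ^ b * u ^ (m : ℤ)) * v ^ b' := by
          rw [zpow_natCast]; group
      _ = u ^ a * (u ^ (m : ℤ) * v ^ b) * v ^ b' := by
          rw [(hcomm.zpow_zpow (m : ℤ) b).eq]
      _ = _ := by group
  obtain ⟨_, hz1, ⟨a, b, rfl⟩⟩ := (hmin z₀).inter_open_nonempty W hW hWne
  have h2 := horb a b
  rw [hC] at h2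
  simp only at h2
  rw [mem_closure_iff] at h2
  obtain ⟨_, h3, ⟨m, hm, b', rfl⟩⟩ := h2 W hW hz1
  exact ⟨m, by omega, b', h3⟩

/-- **The conclusion in the model.** -/
theorem core (hparry : S_PARRY) (hmal : S_MALCEV) (hlin : S_LINCHAR) (hop : S_OP) (hspan : S_SPAN)
    (hfacts : S_FACTS) (heta : S_ETA) (S : Sys) : S.Concl := by
  intro d p hp0 k hk j hj U hU hU1
  have hN : 0 < S.N := by
    rcases Nat.eq_zero_or_pos S.N with h | h
    · exfalso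
      have h1 : ∀ x y : Mat S.N, x = y := by
        intro x y
        ext i
        exact absurd i.2 (by omega)
      have h2 := S.indep 1 (by
        rw [h1 ((1 : ℝ) • S.M) 0]
        exact S.𝔤.zero_mem)
      exact one_ne_zero h2
    · exact h
  set P : Option (Fin d) → Polynomial ℤ := fun o => o.elim 0 p with hP
  have hP0 : ∀ i, (P i).eval 0 = 0 := by
    rintro (_ | i)
    · simp [hP]
    · exact hp0 i
  obtain ⟨O⟩ := hop S.N hN S.𝔤 S.M S.lie S.hM S.brM (Option (Fin d)) P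
  have hcpt := S.compact_quot O hmal hspan hfacts
  have hcl := S.LH_closed O
  have hT2 : T2Space (O.H ⧸ S.LH O) := by
    have : IsClosed (S.LH O : Set O.H) := hcl
    infer_instance
  have hmin := hparry O.H (S.LH O) hcl hcpt (O.n + 1) O.F rfl O.F_anti O.F_bot
    (fun i h x hx => O.F_comm i h x hx) O.F_div (O.SS k) (O.SS 1) O.N0
    (fun s hs z hz => O.SS_comm k 1 s hs z hz) O.N0_div O.N0_sup
    (fun c hc h1 h2 h => S.char_trivial O hlin hfacts heta k hk c hc h1 h2 h)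
  -- the open set
  set W : Set (O.H ⧸ S.LH O) := ⋂ i, (S.pr O i) ⁻¹' U with hWdef
  have hWo : IsOpen W := isOpen_iInter_of_finite fun i => hU.preimage (S.continuous_pr O i)
  have hW1 : ((1 : O.H) : O.H ⧸ S.LH O) ∈ W := by
    rw [hWdef, Set.mem_iInter]
    intro i
    rw [Set.mem_preimage, S.pr_mk, S.ev_one]
    exact hU1
  have huv : O.sH ^ k * O.tH = O.tH * O.sH ^ k := by
    have := O.stH k 1
    rwa [zpow_natCast, zpow_one] at this
  obtain ⟨n, hn, b, hb⟩ := forward_dense (Y := O.H ⧸ S.LH O) (O.sH ^ k) O.tH huv (by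
    intro y
    refine (hmin y).mono ?_
    rintro _ ⟨⟨_, a, b, rfl⟩, rfl⟩
    refine ⟨a, b, ?_⟩
    show (O.sH ^ ((k : ℤ) * a) * O.tH ^ b) • y = _
    rw [zpow_mul, zpow_natCast]) ((O.sH ^ j : O.H) : O.H ⧸ S.LH O) W hWo ⟨_, hW1⟩
  refine ⟨n, hn, b, ?_⟩
  have key : ∀ i, S.a ^ ((P i).eval ((k : ℤ) * (n : ℤ) + (j : ℤ))) • S.a ^ b •
      ((1 : S.G) : S.G ⧸ S.Γ) ∈ U := by
    intro i
    rw [hWdef, Set.mem_iInter] at hb
    have h1 := hb i
    rw [Set.mem_preimage] at h1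
    have e1 : ((O.sH ^ k) ^ n * O.tH ^ b) • ((O.sH ^ j : O.H) : O.H ⧸ S.LH O) =
        ((O.sH ^ (k * n + j) * O.tH ^ b : O.H) : O.H ⧸ S.LH O) := by
      show (((O.sH ^ k) ^ n * O.tH ^ b * O.sH ^ j : O.H) : O.H ⧸ S.LH O) = _
      congr 1
      have h2 := O.stH j b
      rw [zpow_natCast] at h2
      rw [mul_assoc, ← h2, ← mul_assoc, ← pow_mul, ← pow_add]
    rw [e1, S.pr_mk, S.ev_mul] at h1
    have e2 : S.ev O i 0 (O.sH ^ (k * n + j)) =
        S.a ^ ((P i).eval ((k : ℤ) * (n : ℤ) + (j : ℤ))) := by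
      rw [S.ev_s_pow, hP0 i, sub_zero, zero_add]
      push_cast
      rfl
    rw [e2, S.ev_t_zpow] at h1
    rw [← mul_smul]
    have e3 : (S.a ^ ((P i).eval ((k : ℤ) * (n : ℤ) + (j : ℤ))) * S.a ^ b) •
        ((1 : S.G) : S.G ⧸ S.Γ) = ((S.a ^ ((P i).eval ((k : ℤ) * (n : ℤ) + (j : ℤ))) *
          S.a ^ b : S.G) : S.G ⧸ S.Γ) := by
      show ((_ * 1 : S.G) : S.G ⧸ S.Γ) = _
      rw [mul_one]
    rw [e3]
    exact h1
  refine ⟨?_, fun i => key (some i)⟩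
  have h0 := key none
  have e0 : (P none).eval ((k : ℤ) * (n : ℤ) + (j : ℤ)) = 0 := by simp [hP]
  rw [e0, zpow_zero, one_smul] at h0
  exact h0

end Pool.Agent.N305.PR
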