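import Pool.Agent.N305.PR.Stm

/-!
# Project PR (S04319), P7: characters killed by total minimality
-/

set_option autoImplicit false

namespace Pool.Agent.N305.PR

open Finset Topology Filter Pool.Agent.TH91.RF Pool.Agent.TH91.NB.J887

namespace Sys

variable (S : Sys)

/-- Baker-Campbell-Hausdorff with control of a functional that kills the brackets -/
theorem mul_mem (l : Mat S.N →ₗ[ℝ] ℝ) (h1 : ∀ x ∈ S.𝔤, ∀ y ∈ S.𝔤, l (x * y - y * x) = 0)
    (h2 : ∀ x ∈ S.𝔤, l (S.M * x - x * S.M) = 0) (s t : ℝ) {z w : Mat S.N} (hz : z ∈ S.𝔤)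
    (hw : w ∈ S.𝔤) : ∃ j ∈ S.𝔤, l j = 0 ∧
      ex (s • S.M + z) * ex (t • S.M + w) = ex ((s + t) • S.M + (z + w + j)) := by
  have hmem : ∀ u ∈ S.𝔤 ⊔ Submodule.span ℝ {S.M}, ∃ x ∈ S.𝔤, ∃ a : ℝ, u = a • S.M + x := by
    intro u hu
    obtain ⟨x, hx, y, hy, rfl⟩ := Submodule.mem_sup.1 hu
    obtain ⟨a, rfl⟩ := Submodule.mem_span_singleton.1 hy
    exact ⟨x, hx, a, add_comm _ _⟩
  have hmem' : ∀ (a : ℝ) (x : Mat S.N), x ∈ S.𝔤 → a • S.M + x ∈ S.𝔤 ⊔ Submodule.span ℝ {S.M} :=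
    fun a x hx => Submodule.add_mem _
      (Submodule.mem_sup_right (Submodule.smul_mem _ _ (Submodule.mem_span_singleton_self _)))
      (Submodule.mem_sup_left hx)
  have hbr : ∀ u ∈ S.𝔤 ⊔ Submodule.span ℝ {S.M}, ∀ v ∈ S.𝔤 ⊔ Submodule.span ℝ {S.M},
      u * v - v * u ∈ S.𝔤 ⊓ LinearMap.ker l := by
    intro u hu v hv
    obtain ⟨x, hx, a, rfl⟩ := hmem u hu
    obtain ⟨y, hy, b, rfl⟩ := hmem v hv
    have e : (a • S.M + x) * (b • S.M + y) - (b • S.M + y) * (a • S.M + x) =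
        (x * y - y * x) + a • (S.M * y - y * S.M) - b • (S.M * x - x * S.M) := by
      simp only [add_mul, mul_add, smul_mul_assoc, mul_smul_comm, smul_sub, smul_add, smul_smul,
        mul_comm b a]
      abel
    rw [e]
    refine ⟨Submodule.sub_mem _ (Submodule.add_mem _ (S.lie.br x hx y hy)
      (Submodule.smul_mem _ _ (S.brM y hy))) (Submodule.smul_mem _ _ (S.brM x hx)), ?_⟩
    show l _ = 0
    rw [map_sub, map_add, map_smul, map_smul, h1 x hx y hy, h2 x hx, h2 y hy]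
    simp
  have hle : S.𝔤 ⊓ LinearMap.ker l ≤ S.𝔤 ⊔ Submodule.span ℝ {S.M} := inf_le_left.trans le_sup_left
  have hI : IsIdl (S.𝔤 ⊔ Submodule.span ℝ {S.M}) (S.𝔤 ⊓ LinearMap.ker l) := by
    refine ⟨sup_le S.lie.le1 ?_, fun u hu v hv => hle (hbr u hu v hv), hle,
      fun u hu v hv => hbr u hu v (hle hv)⟩
    rw [Submodule.span_le, Set.singleton_subset_iff]
    exact S.hM
  obtain ⟨j, hj, h3⟩ := hI.mul_add (hmem' s z hz) (hmem' t w hw)
    (hbr _ (hmem' s z hz) _ (hmem' t w hw))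
  refine ⟨j, hj.1, hj.2, ?_⟩
  rw [h3]
  congr 1
  rw [add_smul]
  abel

theorem mem1 (s : ℝ) {z : Mat S.N} (hz : z ∈ S.𝔤) : s • S.M + z ∈ FR S.N 1 :=
  Submodule.add_mem _ (Submodule.smul_mem _ _ S.hM) (S.lie.le1 hz)

/-- a functional that kills the brackets is additive on `G` -/
theorem lg_add (l : Mat S.N →ₗ[ℝ] ℝ) (h1 : ∀ x ∈ S.𝔤, ∀ y ∈ S.𝔤, l (x * y - y * x) = 0)
    (h2 : ∀ x ∈ S.𝔤, l (S.M * x - x * S.M) = 0) (u v : S.G) :
    l (lg ((u * v : S.G) : (Mat S.N)ˣ)) = l (lg (u : (Mat S.N)ˣ)) + l (lg (v : (Mat S.N)ˣ)) := by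
  obtain ⟨s, z, hz, hu⟩ := (S.mem_G u).1 u.2
  obtain ⟨t, w, hw, hv⟩ := (S.mem_G v).1 v.2
  obtain ⟨j, hj, hlj, h⟩ := S.mul_mem l h1 h2 s t hz hw
  rw [Subgroup.coe_mul, hu, hv, h, lg_ex (S.mem1 _ hz), lg_ex (S.mem1 _ hw),
    lg_ex (S.mem1 _ (S.𝔤.add_mem (S.𝔤.add_mem hz hw) hj))]
  simp only [map_add, map_smul, hlj, add_zero, smul_eq_mul]
  ring

/-- continuity of a functional of the logarithm -/
theorem continuous_lg (l : Mat S.N →ₗ[ℝ] ℝ) :
    Continuous fun u : S.G => l (lg (u : (Mat S.N)ˣ)) :=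
  (LinearMap.continuous_of_finiteDimensional l).comp
    (Pool.Agent.N305.PR.continuous_lg.comp continuous_subtype_val)

/-- the homomorphism `u ↦ l (lg u)` as a character -/
noncomputable def chr (l : Mat S.N →ₗ[ℝ] ℝ) (h1 : ∀ x ∈ S.𝔤, ∀ y ∈ S.𝔤, l (x * y - y * x) = 0)
    (h2 : ∀ x ∈ S.𝔤, l (S.M * x - x * S.M) = 0) : S.G →* Circle where
  toFun u := Circle.exp (l (lg (u : (Mat S.N)ˣ)))
  map_one' := by
    have := S.lg_add l h1 h2 1 1
    rw [mul_one] at this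
    have h0 : l (lg ((1 : S.G) : (Mat S.N)ˣ)) = 0 := by linarith
    rw [h0, Circle.exp_zero]
  map_mul' u v := by
    rw [S.lg_add l h1 h2, Circle.exp_add]

theorem a_pow (m : ℤ) : ((S.a ^ m : S.G) : (Mat S.N)ˣ) = ex ((m : ℝ) • S.M) := by
  rw [Subgroup.coe_zpow, S.ha, ex_zpow S.hM]

end Sys

theorem eta : S_ETA := by
  intro S k hk l h1 h2 hkM hz₀ hΓ
  obtain ⟨z₀, hz₀, g₀, hg₀, hg₀e⟩ := hz₀
  have hg₀e' : (g₀ : (Mat S.N)ˣ) = ex (S.M + z₀) := hg₀e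
  set η := S.chr l h1 h2 with hη
  have hηv : ∀ u : S.G, η u = Circle.exp (l (lg (u : (Mat S.N)ˣ))) := fun u => rfl
  have hcont : Continuous η := Circle.exp.continuous.comp (S.continuous_lg l)
  -- `η` is trivial on `Γ`
  have hηM : ∀ u ∈ S.Γ, ∀ z ∈ S.𝔤, (u : (Mat S.N)ˣ) = ex (S.M + z) → η u = 1 := by
    intro u hu z hz h
    rw [hηv, h, lg_ex (Submodule.add_mem _ S.hM (S.lie.le1 hz))]
    exact hΓ z hz ⟨u, hu, h⟩
  have hηΓ : ∀ u ∈ S.Γ, η u = 1 := by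
    intro u hu
    obtain ⟨m, z, hz, hum⟩ := (S.mem_G u).1 u.2
    have h3 : ((g₀ ^ (1 - m) : S.G) : (Mat S.N)ˣ) =
        ex ((1 - (m : ℝ)) • S.M + (1 - (m : ℝ)) • z₀) := by
      rw [Subgroup.coe_zpow, hg₀e', ex_zpow (Submodule.add_mem _ S.hM (S.lie.le1 hz₀)), smul_add]
      push_cast
      rfl
    obtain ⟨j, hj, -, h4⟩ := S.mul_mem l h1 h2 (1 - (m : ℝ)) m
      (S.𝔤.smul_mem (1 - (m : ℝ)) hz₀) hz
    have h5 : ((g₀ ^ (1 - m) * u : S.G) : (Mat S.N)ˣ) =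
        ex (S.M + ((1 - (m : ℝ)) • z₀ + z + j)) := by
      rw [Subgroup.coe_mul, h3, hum, h4, sub_add_cancel, one_smul]
    have h6 := hηM _ (S.Γ.mul_mem (S.Γ.zpow_mem hg₀ _) hu) _
      (S.𝔤.add_mem (S.𝔤.add_mem (S.𝔤.smul_mem _ hz₀) hz) hj) h5
    rw [map_mul, map_zpow, hηM g₀ hg₀ z₀ hz₀ hg₀e', one_zpow, one_mul] at h6
    exact h6
  -- `η (a ^ k) = 1`
  have hηa : η (S.a ^ k) = 1 := by
    have := S.a_pow k
    rw [zpow_natCast] at this
    rw [hηv, this, lg_ex (Submodule.smul_mem _ _ S.hM), map_smul, smul_eq_mul]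
    push_cast
    exact hkM
  -- `η = 1`
  have hall : ∀ u : S.G, η u = 1 := by
    have hdesc : ∀ u v : S.G, QuotientGroup.leftRel S.Γ u v → η u = η v := by
      intro u v huv
      rw [QuotientGroup.leftRel_apply] at huv
      have := hηΓ _ huv
      rw [map_mul, map_inv, inv_mul_eq_one] at this
      exact this
    let f : S.G ⧸ S.Γ → Circle := Quotient.lift η hdesc
    have hf : Continuous f := hcont.quotient_lift hdesc
    have hfu : ∀ u : S.G, f (u : S.G ⧸ S.Γ) = η u := fun u => rfl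
    have hd := S.min k hk ((1 : S.G) : S.G ⧸ S.Γ)
    have he : f = fun _ => 1 := by
      refine Continuous.ext_on hd hf continuous_const ?_
      rintro _ ⟨j, rfl⟩
      have : (S.a ^ k) ^ j • ((1 : S.G) : S.G ⧸ S.Γ) =
          (((S.a ^ k) ^ j * 1 : S.G) : S.G ⧸ S.Γ) := rfl
      show f ((S.a ^ k) ^ j • ((1 : S.G) : S.G ⧸ S.Γ)) = 1
      rw [this, hfu, mul_one, map_zpow, hηa, one_zpow]
    intro u
    rw [← hfu, he]
  constructor
  · have h3 := hall S.a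
    rw [hηv, S.ha, lg_ex S.hM] at h3
    exact h3
  · intro z hz
    by_contra hne
    have h4 : ex ((Real.pi / l z) • z) ∈ S.G := by
      rw [S.mem_G]
      exact ⟨0, (Real.pi / l z) • z, S.𝔤.smul_mem _ hz, by simp⟩
    have h5 := hall ⟨_, h4⟩
    rw [hηv] at h5
    simp only at h5
    rw [lg_ex (Submodule.smul_mem _ _ (S.lie.le1 hz)), map_smul, smul_eq_mul,
      div_mul_cancel₀ _ hne] at h5
    rw [Circle.exp_eq_one] at h5
    obtain ⟨m, hm⟩ := h5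
    have hpi := Real.pi_pos
    have h6 : (1 : ℝ) = m * 2 := by
      have : Real.pi * 1 = Real.pi * (m * 2) := by linarith
      exact mul_left_cancel₀ hpi.ne' this
    have h7 : (1 : ℤ) = m * 2 := by exact_mod_cast h6
    omega

end Pool.Agent.N305.PR
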