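import Pool.Agent.N305.PR.Stm

/-!
# Project PR (S04319), part P4b: `exp (d/dX + p' z)` is the shift with a factor
-/

set_option autoImplicit false

namespace Pool.Agent.N305.PR

open Finset Topology Filter Pool.Agent.TH91.RF Pool.Agent.TH91.NB.J887

/-- Taylor's formula at distance `1` for a polynomial whose `K`-th derivative vanishes -/
theorem taylor_one (G : Polynomial ℝ) (K : ℕ) (hG : Polynomial.derivative^[K] G = 0) (m : ℝ) :
    G.eval (m + 1) =
      ∑ k ∈ range K, ((k.factorial : ℝ))⁻¹ * (Polynomial.derivative^[k] G).eval m := by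
  have hc : ∀ k, (Polynomial.taylor m G).coeff k =
      ((k.factorial : ℝ))⁻¹ * (Polynomial.derivative^[k] G).eval m := by
    intro k
    have h := congrArg (fun T => (T G).eval m) (Polynomial.factorial_smul_hasseDeriv (R := ℝ) k)
    have h2 : (k.factorial : ℝ) * (Polynomial.hasseDeriv k G).eval m =
        (Polynomial.derivative^[k] G).eval m := by
      rw [← h]
      simp
    rw [Polynomial.taylor_coeff, ← h2, inv_mul_cancel_left₀]
    exact_mod_cast k.factorial_ne_zero
  have hz : ∀ k, K ≤ k → (Polynomial.taylor m G).coeff k = 0 := by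
    intro k hk
    obtain ⟨j, rfl⟩ := Nat.exists_eq_add_of_le hk
    rw [hc, add_comm K j, Function.iterate_add_apply, hG, Polynomial.iterate_derivative_zero,
      Polynomial.eval_zero, mul_zero]
  have h1 : G.eval (m + 1) = (Polynomial.taylor m G).eval 1 := by
    rw [Polynomial.taylor_eval, add_comm]
  have h2 : (Polynomial.taylor m G).eval 1 =
      ∑ k ∈ range (K + ((Polynomial.taylor m G).natDegree + 1)),
        (Polynomial.taylor m G).coeff k * 1 ^ k :=
    Polynomial.eval_eq_sum_range' (by omega) 1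
  rw [h1, h2, sum_range_add]
  have h3 : ∑ x ∈ range ((Polynomial.taylor m G).natDegree + 1),
      (Polynomial.taylor m G).coeff (K + x) * 1 ^ (K + x) = 0 :=
    sum_eq_zero fun k _ => by rw [hz _ (by omega), zero_mul]
  rw [h3, add_zero]
  exact sum_congr rfl fun k _ => by rw [one_pow, mul_one, hc]

/-- the polynomial matrix `exp (p z)` -/
noncomputable def pE {N : ℕ} (p : Polynomial ℝ) (z : Mat N) (r s : Fin N) : Polynomial ℝ :=
  ∑ k ∈ range (N + 1), Polynomial.C (((k.factorial : ℝ))⁻¹ * (z ^ k) r s) * p ^ k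

variable {N : ℕ}

theorem pE_eval (p : Polynomial ℝ) {z : Mat N} (hz : z ∈ FR N 1) (m : ℝ) (r s : Fin N) :
    (pE p z r s).eval m = ((ex (p.eval m • z) : (Mat N)ˣ) : Mat N) r s := by
  have h1 : p.eval m • z ∈ (matFiltR N).F 1 := Submodule.smul_mem (FR N 1) _ hz
  rw [ex_val (Submodule.smul_mem _ _ hz), (matFiltR N).exp_eq h1, Matrix.sum_apply]
  unfold pE
  rw [Polynomial.eval_finsetSum]
  refine sum_congr rfl fun k _ => ?_
  rw [Polynomial.eval_mul, Polynomial.eval_C, Polynomial.eval_pow, smul_pow, Matrix.smul_apply,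
    Matrix.smul_apply, ← Rat.cast_smul_eq_qsmul ℝ, smul_eq_mul, smul_eq_mul, Rat.cast_inv,
    Rat.cast_natCast]
  ring

theorem pE_deriv (p : Polynomial ℝ) {z : Mat N} (hz : z ∈ FR N 1) (r s : Fin N) :
    Polynomial.derivative (pE p z r s) =
      Polynomial.derivative p * ∑ t, pE p z r t * Polynomial.C (z t s) := by
  have hz' : z ∈ (matFiltR N).F 1 := hz
  have e1 : ∑ t, pE p z r t * Polynomial.C (z t s) =
      ∑ k ∈ range (N + 1), Polynomial.C (((k.factorial : ℝ))⁻¹ * (z ^ (k + 1)) r s) * p ^ k := by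
    unfold pE
    simp_rw [sum_mul]
    rw [sum_comm]
    refine sum_congr rfl fun k _ => ?_
    rw [pow_succ, Matrix.mul_apply, mul_sum, map_sum, sum_mul]
    refine sum_congr rfl fun t _ => ?_
    simp only [Polynomial.C_mul]
    ring
  rw [e1, sum_range_succ, (matFiltR N).pow_eq_zero hz' (N + 1) (by omega) (by omega)]
  unfold pE
  rw [sum_range_succ', map_add, map_sum]
  have e2 : Polynomial.derivative (Polynomial.C (((Nat.factorial 0 : ℕ) : ℝ)⁻¹ * (z ^ 0) r s) *
      p ^ 0) = 0 := by
    rw [pow_zero p, mul_one, Polynomial.derivative_C]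
  rw [e2, add_zero, Matrix.zero_apply, mul_zero, map_zero, zero_mul, add_zero, mul_sum]
  refine sum_congr rfl fun k _ => ?_
  rw [Polynomial.derivative_mul, Polynomial.derivative_C, zero_mul, zero_add,
    Polynomial.derivative_pow, Nat.add_sub_cancel]
  have e3 : (((k + 1).factorial : ℝ))⁻¹ * ((k : ℝ) + 1) = ((k.factorial : ℝ))⁻¹ := by
    have h0 : (k.factorial : ℝ) ≠ 0 := by exact_mod_cast k.factorial_ne_zero
    have h1 : (k : ℝ) + 1 ≠ 0 := by positivity
    rw [Nat.factorial_succ, Nat.cast_mul, Nat.cast_add, Nat.cast_one]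
    field_simp
  rw [← e3]
  simp only [Polynomial.C_mul, Polynomial.C_add, Nat.cast_add, Nat.cast_one, map_natCast,
    Polynomial.C_1]
  ring

theorem pE_vD (p : Polynomial ℝ) {z : Mat N} (hz : z ∈ FR N 1) (g : Fin N → Polynomial ℝ)
    (r : Fin N) : Polynomial.derivative (∑ s, pE p z r s * g s) =
      ∑ s, pE p z r s * (vD p z g) s := by
  rw [map_sum]
  simp_rw [Polynomial.derivative_mul, pE_deriv p hz]
  rw [sum_add_distrib]
  have e : ∀ s, pE p z r s * (vD p z g) s = pE p z r s * Polynomial.derivative (g s) +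
      ∑ t, Polynomial.derivative p * (pE p z r s * Polynomial.C (z s t)) * g t := by
    intro s
    show pE p z r s * (Polynomial.derivative (g s) + Polynomial.derivative p *
      ∑ t, Polynomial.C (z s t) * g t) = _
    rw [mul_add, mul_sum, mul_sum]
    congr 1
    exact sum_congr rfl fun t _ => by ring
  simp_rw [e]
  rw [sum_add_distrib, add_comm]
  congr 1
  simp_rw [mul_sum, sum_mul]
  rw [sum_comm]

theorem pE_vD_iter (p : Polynomial ℝ) {z : Mat N} (hz : z ∈ FR N 1) (f : Fin N → Polynomial ℝ)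
    (r : Fin N) (k : ℕ) : Polynomial.derivative^[k] (∑ s, pE p z r s * f s) =
      ∑ s, pE p z r s * (((vD p z) ^ k) f) s := by
  induction k with
  | zero => rfl
  | succ k ih =>
    rw [Function.iterate_succ_apply', ih, pE_vD p hz, pow_succ']
    rfl

theorem expd : S_EXPD := by
  intro N z hz p f K hK m
  have hzs : ∀ a : ℝ, a • z ∈ FR N 1 := fun a => Submodule.smul_mem _ _ hz
  have key : ((ex (p.eval (m + 1) • z) : (Mat N)ˣ) : Mat N).mulVec
      (fun s => (f s).eval (m + 1)) = ((ex (p.eval m • z) : (Mat N)ˣ) : Mat N).mulVec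
      (fun s => ∑ k ∈ range K, ((k.factorial : ℝ))⁻¹ * ((((vD p z) ^ k) f) s).eval m) := by
    ext r
    have h := taylor_one (∑ s, pE p z r s * f s) K (by
      rw [pE_vD_iter p hz, hK]
      simp) m
    simp_rw [pE_vD_iter p hz, Polynomial.eval_finsetSum, Polynomial.eval_mul,
      pE_eval p hz] at h
    simp only [Matrix.mulVec, dotProduct]
    rw [h]
    simp_rw [mul_sum]
    rw [sum_comm]
    refine sum_congr rfl fun s _ => sum_congr rfl fun k _ => ?_
    ring
  have h2 : (ex ((p.eval (m + 1) - p.eval m) • z) : (Mat N)ˣ) =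
      (ex (p.eval m • z))⁻¹ * ex (p.eval (m + 1) • z) := by
    rw [ex_inv (hzs _), ← ex_add_of_commute (Submodule.neg_mem _ (hzs _)) (hzs _), sub_smul,
      neg_add_eq_sub]
    rw [neg_mul, mul_neg, smul_mul_smul_comm, smul_mul_smul_comm, mul_comm (p.eval m)]
  have h3 : ((ex ((p.eval (m + 1) - p.eval m) • z) : (Mat N)ˣ) : Mat N).mulVec
      (fun s => (f s).eval (m + 1)) =
      (fun s => ∑ k ∈ range K, ((k.factorial : ℝ))⁻¹ * ((((vD p z) ^ k) f) s).eval m) := by
    rw [h2, Units.val_mul, ← Matrix.mulVec_mulVec, key, Matrix.mulVec_mulVec,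
      Units.inv_mul, Matrix.one_mulVec]
  intro r
  exact (congrFun h3 r).symm

end Pool.Agent.N305.PR
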