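import Pool.Agent.N305.PR.Eta

/-!
# Project PR (S04319), P6: connectedness facts of a totally minimal model
-/

set_option autoImplicit false

namespace Pool.Agent.N305.PR

open Finset Topology Filter Pool.Agent.TH91.RF Pool.Agent.TH91.NB Pool.Agent.TH91.NB.J887

namespace Sys

variable (S : Sys)

/-- compactness of `G / Γ` -/
theorem exists_cover (U : ℕ → Set S.G) (hU : ∀ R, IsOpen (U R)) (hm : Monotone U)
    (hc : ∀ g : S.G, ∃ R, ∃ b ∈ U R, ∃ γ ∈ S.Γ, g = b * γ) :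
    ∃ R, ∀ g : S.G, ∃ b ∈ U R, ∃ γ ∈ S.Γ, g = b * γ := by
  have := S.cpt
  let V : ℕ → Set (S.G ⧸ S.Γ) := fun R => (fun g : S.G => (g : S.G ⧸ S.Γ)) '' U R
  have hV : ∀ R, IsOpen (V R) := fun R => QuotientGroup.isOpenMap_coe _ (hU R)
  have hVm : Monotone V := fun R R' h => Set.image_mono (hm h)
  have hVc : (Set.univ : Set (S.G ⧸ S.Γ)) ⊆ ⋃ R, V R := by
    intro x _
    induction x using QuotientGroup.induction_on with
    | H g =>
      obtain ⟨R, b, hb, γ, hγ, rfl⟩ := hc g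
      refine Set.mem_iUnion.2 ⟨R, b, hb, ?_⟩
      exact (QuotientGroup.mk_mul_of_mem b hγ).symm
  obtain ⟨R, hR⟩ := isCompact_univ.elim_directed_cover V hV hVc hVm.directed_le
  refine ⟨R, fun g => ?_⟩
  obtain ⟨b, hb, h⟩ := hR (Set.mem_univ (g : S.G ⧸ S.Γ))
  refine ⟨b, hb, b⁻¹ * g, ?_, by group⟩
  exact QuotientGroup.eq.1 h

end Sys

theorem facts : S_FACTS := by
  intro S
  have hM : S.M ∉ S.𝔤 := by
    intro h
    have := S.indep 1 (by rwa [one_smul])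
    exact one_ne_zero this
  obtain ⟨τ', hτ'M, hτ'⟩ := Submodule.exists_dual_map_eq_bot_of_notMem hM inferInstance
  obtain ⟨τ, hτM, hτ⟩ : ∃ τ : Mat S.N →ₗ[ℝ] ℝ, τ S.M = 1 ∧ ∀ x ∈ S.𝔤, τ x = 0 := by
    refine ⟨(τ' S.M)⁻¹ • τ', ?_, fun x hx => ?_⟩
    · rw [LinearMap.smul_apply, smul_eq_mul, inv_mul_cancel₀ hτ'M]
    · have : τ' x ∈ S.𝔤.map τ' := Submodule.mem_map_of_mem hx
      rw [hτ', Submodule.mem_bot] at this
      rw [LinearMap.smul_apply, this, smul_zero]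
  have h1 : ∀ x ∈ S.𝔤, ∀ y ∈ S.𝔤, τ (x * y - y * x) = 0 := fun x hx y hy => hτ _ (S.lie.br x hx y hy)
  have h2 : ∀ x ∈ S.𝔤, τ (S.M * x - x * S.M) = 0 := fun x hx => hτ _ (S.brM x hx)
  -- the homomorphism `κ`
  set κ : S.G → ℝ := fun u => τ (lg (u : (Mat S.N)ˣ)) with hκ
  have κmul : ∀ u v : S.G, κ (u * v) = κ u + κ v := S.lg_add τ h1 h2
  have κcont : Continuous κ := S.continuous_lg τ
  have κex : ∀ (u : S.G) (k : ℝ) (z : Mat S.N), z ∈ S.𝔤 →
      (u : (Mat S.N)ˣ) = ex (k • S.M + z) → κ u = k := by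
    intro u k z hz h
    show τ (lg (u : (Mat S.N)ˣ)) = k
    rw [h, lg_ex (S.mem1 _ hz), map_add, map_smul, hτM, hτ z hz]
    simp
  have κint : ∀ u : S.G, ∃ k : ℤ, κ u = k ∧ ∃ z ∈ S.𝔤, (u : (Mat S.N)ˣ) = ex ((k : ℝ) • S.M + z) := by
    intro u
    obtain ⟨k, z, hz, h⟩ := (S.mem_G u).1 u.2
    exact ⟨k, κex u k z hz h, z, hz, h⟩
  have κa : κ S.a = 1 := κex S.a 1 0 S.𝔤.zero_mem (by rw [S.ha, one_smul, add_zero])
  have κone : κ 1 = 0 := by
    have := κmul 1 1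
    rw [mul_one] at this
    linarith
  have κinv : ∀ u : S.G, κ u⁻¹ = - κ u := by
    intro u
    have := κmul u u⁻¹
    rw [mul_inv_cancel, κone] at this
    linarith
  have κpow : ∀ (u : S.G) (j : ℕ), κ (u ^ j) = j * κ u := by
    intro u j
    induction j with
    | zero => rw [pow_zero, κone]; simp
    | succ j ih => rw [pow_succ, κmul, ih]; push_cast; ring
  have κzpow : ∀ (u : S.G) (j : ℤ), κ (u ^ j) = j * κ u := by
    intro u j
    obtain ⟨m, rfl | rfl⟩ := j.eq_nat_or_neg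
    · rw [zpow_natCast, κpow]; push_cast; rfl
    · rw [zpow_neg, zpow_natCast, κinv, κpow]; push_cast; ring
  -- some element of `Γ` with positive `κ`
  obtain ⟨γ₁, hγ₁, d, hd0, hd⟩ : ∃ γ₁ ∈ S.Γ, ∃ d : ℕ, 0 < d ∧ κ γ₁ = d := by
    obtain ⟨R, hR⟩ := S.exists_cover (fun R => {u | |κ u| < R})
      (fun R => isOpen_lt κcont.abs continuous_const)
      (fun R R' h u (hu : |κ u| < R) => lt_of_lt_of_le hu (by exact_mod_cast h))
      (fun g => by
        obtain ⟨R, hR⟩ := exists_nat_gt |κ g|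
        exact ⟨R, g, hR, 1, S.Γ.one_mem, (mul_one g).symm⟩)
    obtain ⟨b, hb, γ, hγ, hg⟩ := hR (S.a ^ R)
    have hb' : |κ b| < R := hb
    have h3 : κ (S.a ^ R) = R := by rw [κpow, κa, mul_one]
    rw [hg, κmul] at h3
    obtain ⟨k, hk, -⟩ := κint γ
    have h4 := abs_lt.1 hb'
    have h5 : 0 < κ γ := by linarith [h4.2]
    rw [hk] at h5
    have h6 : 0 < k := by exact_mod_cast h5
    refine ⟨γ, hγ, k.toNat, by omega, ?_⟩
    rw [hk]
    have : ((k.toNat : ℤ) : ℝ) = (k : ℝ) := by rw [Int.toNat_of_nonneg h6.le]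
    exact_mod_cast this.symm
  -- an element of `Γ` with `κ = 1`
  obtain ⟨γ₂, hγ₂, hκ₂⟩ : ∃ γ₂ ∈ S.Γ, κ γ₂ = 1 := by
    have hdense := S.min d hd0 ((1 : S.G) : S.G ⧸ S.Γ)
    have hO : IsOpen ((fun g : S.G => (g : S.G ⧸ S.Γ)) '' {u | |κ u - 1| < 1 / 2}) :=
      QuotientGroup.isOpenMap_coe _ (isOpen_lt (κcont.sub continuous_const).abs continuous_const)
    obtain ⟨x, ⟨u, hu, hux⟩, j, hj⟩ := hdense.inter_open_nonempty _ hO
      ⟨_, S.a, by show |κ S.a - 1| < 1 / 2; rw [κa]; norm_num, rfl⟩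
    have hu' : |κ u - 1| < 1 / 2 := hu
    have h3 : (((S.a ^ d) ^ j * 1 : S.G) : S.G ⧸ S.Γ) = (u : S.G ⧸ S.Γ) := hj.trans hux.symm
    rw [mul_one] at h3
    have h4 := QuotientGroup.eq.1 h3
    -- `(a^d)^(-j) u ∈ Γ`
    refine ⟨γ₁ ^ j * (((S.a ^ d) ^ j)⁻¹ * u), S.Γ.mul_mem (S.Γ.zpow_mem hγ₁ _) h4, ?_⟩
    obtain ⟨k, hk, -⟩ := κint u
    have h5 : κ u = 1 := by
      rw [hk] at hu' ⊢
      have h6 : |((k - 1 : ℤ) : ℝ)| < 1 := by push_cast; linarith
      have h7 : |(k - 1 : ℤ)| < 1 := by exact_mod_cast h6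
      have h8 := Int.abs_lt_one_iff.1 h7
      have h9 : k = 1 := by omega
      rw [h9]; norm_num
    rw [κmul, κmul, κinv, κzpow, κzpow, κpow, κa, h5, hd]
    ring
  constructor
  · obtain ⟨k, hk, z, hz, h⟩ := κint γ₂
    rw [hκ₂] at hk
    refine ⟨z, hz, γ₂, hγ₂, ?_⟩
    show (γ₂ : (Mat S.N)ˣ) = ex (S.M + z)
    rw [h, ← hk, one_smul]
  · -- cocompactness of `Γ ∩ G₀` in `G₀`
    obtain ⟨R, hR⟩ := S.exists_cover
      (fun R => {u | |κ u| < 1 / 2 ∧ ∀ i j, |((u : (Mat S.N)ˣ) : Mat S.N) i j| < R})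
      (fun R => by
        have e : {u : S.G | |κ u| < 1 / 2 ∧ ∀ i j, |((u : (Mat S.N)ˣ) : Mat S.N) i j| < R} =
            {u : S.G | |κ u| < 1 / 2} ∩
              ⋂ i, ⋂ j, {u : S.G | |((u : (Mat S.N)ˣ) : Mat S.N) i j| < R} := by
          ext u
          simp
        rw [e]
        refine (isOpen_lt κcont.abs continuous_const).inter ?_
        refine isOpen_iInter_of_finite fun i => isOpen_iInter_of_finite fun j => ?_
        refine isOpen_lt (Continuous.abs ?_) continuous_const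
        have hc : Continuous fun u : S.G => ((u : (Mat S.N)ˣ) : Mat S.N) :=
          Units.continuous_val.comp continuous_subtype_val
        exact hc.matrix_elem i j)
      (fun R R' h u hu => ⟨hu.1, fun i j => lt_of_lt_of_le (hu.2 i j) (by exact_mod_cast h)⟩)
      (fun g => by
        obtain ⟨k, hk, -⟩ := κint g
        have h3 : κ (g * (γ₂ ^ k)⁻¹) = 0 := by
          rw [κmul, κinv, κzpow, hκ₂, hk]; ring
        obtain ⟨R, hR⟩ := exists_nat_gt
          (∑ i, ∑ j, |(((g * (γ₂ ^ k)⁻¹ : S.G) : (Mat S.N)ˣ) : Mat S.N) i j|)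
        refine ⟨R, g * (γ₂ ^ k)⁻¹, ⟨by rw [h3]; norm_num, fun i j => lt_of_le_of_lt ?_ hR⟩,
          γ₂ ^ k, S.Γ.zpow_mem hγ₂ _, by group⟩
        refine le_trans ?_ (single_le_sum (f := fun i =>
          ∑ j, |(((g * (γ₂ ^ k)⁻¹ : S.G) : (Mat S.N)ˣ) : Mat S.N) i j|)
          (fun i _ => sum_nonneg fun j _ => abs_nonneg _) (mem_univ i))
        exact single_le_sum (f := fun j =>
          |(((g * (γ₂ ^ k)⁻¹ : S.G) : (Mat S.N)ˣ) : Mat S.N) i j|)
          (fun j _ => abs_nonneg _) (mem_univ j))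
    intro x hx
    have hx1 : x ∈ FR S.N 1 := S.lie.le1 hx
    have hlog := log_mem_span (S.Γ' ⊓ exG S.lie)
      (by
        rintro γ ⟨-, y, hy, rfl⟩
        exact ⟨y, sup_iff.2 (toF (S.lie.le1 hy)), ex_val (S.lie.le1 hy)⟩)
      x (sup_iff.2 (toF hx1)) R
      (by
        intro n
        have hg : ex ((n : ℝ) • x) ∈ S.G := by
          rw [S.mem_G]
          exact ⟨0, (n : ℝ) • x, S.𝔤.smul_mem _ hx, by simp⟩
        obtain ⟨b, ⟨hb1, hb2⟩, γ, hγ, h⟩ := hR ⟨_, hg⟩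
        have h3 : κ ⟨_, hg⟩ = 0 := κex _ 0 _ (S.𝔤.smul_mem (n : ℝ) hx) (by
          rw [zero_smul, zero_add])
        have hκb : κ b = 0 := by
          obtain ⟨k, hk, -⟩ := κint b
          rw [hk] at hb1 ⊢
          have h6 : |(k : ℝ)| < 1 := by linarith
          have h7 : |k| < 1 := by exact_mod_cast h6
          rw [Int.abs_lt_one_iff.1 h7]; norm_num
        rw [h, κmul, hκb, zero_add] at h3
        obtain ⟨k, hk, z, hz, hγz⟩ := κint γ
        rw [h3] at hk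
        rw [← hk, zero_smul, zero_add] at hγz
        have h4 : b = ⟨_, hg⟩ * γ⁻¹ := by rw [h]; group
        refine ⟨(γ⁻¹ : S.G), ⟨⟨γ⁻¹, S.Γ.inv_mem hγ, rfl⟩, ?_⟩, ?_⟩
        · refine (exG S.lie).inv_mem ?_
          exact ⟨z, hz, hγz⟩
        · intro i j
          have h5 := (hb2 i j).le
          rw [h4] at h5
          rw [Subgroup.coe_mul, Units.val_mul, ex_val (Submodule.smul_mem _ _ hx1)] at h5
          exact h5)
    refine Submodule.span_mono ?_ hlog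
    rintro y ⟨hy, γ, ⟨hγ, z, hz, rfl⟩, hγy⟩
    have hy1 : y ∈ FR S.N 1 := sup_iff.1 hy
    have h3 : ex z = ex y := by
      apply Units.ext
      rw [hγy, ex_val hy1]
    have h4 := ex_inj (S.lie.le1 hz) hy1 h3
    rw [← h4]
    exact ⟨hz, hγ⟩

end Pool.Agent.N305.PR
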