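import Pool.Agent.N305.PR.Stm

/-!
# Project PR: the group `H = exp 𝔫 ⟨s, t⟩`, its filtration and its lattice
-/

set_option autoImplicit false

namespace Pool.Agent.N305.PR

open Finset Topology Filter Pool.Agent.TH91.RF Pool.Agent.TH91.NB.J887

/-! ### Filtration of the unitriangular group -/

section filt

variable {n : ℕ}

theorem FR_anti {i j : ℕ} (h : i ≤ j) : FR n j ≤ FR n i := fun _ hx => (matFiltR n).anti h hx

theorem FR_mul {i j : ℕ} {x y : Mat n} (hx : x ∈ FR n i) (hy : y ∈ FR n j) :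
    x * y ∈ FR n (i + j) := (matFiltR n).mul hx hy

theorem ex_sub_one {x : Mat n} (hx : x ∈ FR n 1) {k : ℕ} :
    (ex x : Mat n) - 1 ∈ FR n (k + 1) ↔ x ∈ FR n (k + 1) := by
  rw [ex_val hx]
  constructor
  · intro h
    have h2 := exp_sub_mem (matFiltR n) (a := x) (b := 0) hx (Submodule.zero_mem _) (k := k) (by
      rw [IsNilpotent.exp_zero]
      exact h)
    rwa [sub_zero] at h2
  · intro h
    have h1 := (matFiltR n).exp_add_sub (z := 0) (v := x) (k := k + 1) (Submodule.zero_mem _) h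
      (by omega)
    rw [zero_add, IsNilpotent.exp_zero] at h1
    have h2 := Submodule.add_mem _ ((matFiltR n).anti (by omega : k + 1 ≤ k + 1 + 1) h1) h
    rwa [sub_add_cancel] at h2

theorem mul_one_add {k : ℕ} {w v : Mat n} (hw : w ∈ FR n k) (hv : v - 1 ∈ FR n 1) :
    w * v ∈ FR n k := by
  have e : w * v = w + w * (v - 1) := by noncomm_ring
  rw [e]
  exact Submodule.add_mem _ hw (FR_anti (by omega) (FR_mul hw hv))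

/-- commutators -/
theorem comm_mem {i j : ℕ} {u v : (Mat n)ˣ} (hu : (u : Mat n) - 1 ∈ FR n i)
    (hv : (v : Mat n) - 1 ∈ FR n j) (hu' : ((u⁻¹ : (Mat n)ˣ) : Mat n) - 1 ∈ FR n 1)
    (hv' : ((v⁻¹ : (Mat n)ˣ) : Mat n) - 1 ∈ FR n 1) :
    ((u * v * u⁻¹ * v⁻¹ : (Mat n)ˣ) : Mat n) - 1 ∈ FR n (i + j) := by
  have e : ((u * v * u⁻¹ * v⁻¹ : (Mat n)ˣ) : Mat n) - 1 =
      (((u : Mat n) - 1) * ((v : Mat n) - 1) - ((v : Mat n) - 1) * ((u : Mat n) - 1)) *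
        ((u⁻¹ : (Mat n)ˣ) : Mat n) * ((v⁻¹ : (Mat n)ˣ) : Mat n) := by
    have e1 : (((u : Mat n) - 1) * ((v : Mat n) - 1) - ((v : Mat n) - 1) * ((u : Mat n) - 1)) =
        (u : Mat n) * v - v * u := by noncomm_ring
    rw [e1, sub_mul, sub_mul]
    have e2 : (v : Mat n) * u * ((u⁻¹ : (Mat n)ˣ) : Mat n) * ((v⁻¹ : (Mat n)ˣ) : Mat n) = 1 := by
      rw [← Units.val_mul, ← Units.val_mul, ← Units.val_mul, mul_inv_cancel_right, mul_inv_cancel,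
        Units.val_one]
    rw [e2]
    simp only [Units.val_mul]
  rw [e]
  refine mul_one_add (mul_one_add (Submodule.sub_mem _ (FR_mul hu hv) ?_) hu') hv'
  rw [add_comm]
  exact FR_mul hv hu

end filt

namespace OpSys

variable {N : ℕ} {𝔤 : Submodule ℝ (Mat N)} {M : Mat N} {I : Type} {p : I → Polynomial ℤ}
  (O : OpSys 𝔤 M p)

/-- the generator `s` -/
noncomputable def s : (Mat O.n)ˣ := ex O.D

/-- the generator `t` -/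
noncomputable def t : (Mat O.n)ˣ := ex O.A

theorem st : O.s * O.t = O.t * O.s := by
  unfold s t
  rw [← ex_add_of_commute O.hD O.hA O.comm, ← ex_add_of_commute O.hA O.hD O.comm.symm, add_comm]

/-- `N = exp 𝔫` -/
noncomputable def Nn : Subgroup (Mat O.n)ˣ := exG O.lie

theorem Adf_mem {X x : Mat O.n} (hX : ∀ x ∈ O.𝔫, X * x - x * X ∈ O.𝔫) (hx : x ∈ O.𝔫) :
    Adf X x ∈ O.𝔫 := by
  have h := Adf_sub_mem (hX x hx) hX
  have h2 := O.𝔫.add_mem h hx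
  rwa [sub_add_cancel] at h2

theorem smul_br {X : Mat O.n} (hX : ∀ x ∈ O.𝔫, X * x - x * X ∈ O.𝔫) (a : ℝ) :
    ∀ x ∈ O.𝔫, (a • X) * x - x * (a • X) ∈ O.𝔫 := by
  intro x hx
  rw [smul_mul_assoc, mul_smul_comm, ← smul_sub]
  exact O.𝔫.smul_mem _ (hX x hx)

theorem conj_zpow {X : Mat O.n} (hX1 : X ∈ FR O.n 1) (hX : ∀ x ∈ O.𝔫, X * x - x * X ∈ O.𝔫)
    (a : ℤ) {x : Mat O.n} (hx : x ∈ O.𝔫) : ∃ y ∈ O.𝔫, ex X ^ a * ex x = ex y * ex X ^ a := by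
  refine ⟨Adf ((a : ℝ) • X) x, O.Adf_mem (O.smul_br hX _) hx, ?_⟩
  rw [ex_zpow hX1, ← ex_conj (Submodule.smul_mem _ _ hX1) (O.lie.le1 hx)]
  group

theorem s_conj (a : ℤ) {x : Mat O.n} (hx : x ∈ O.𝔫) :
    ∃ y ∈ O.𝔫, O.s ^ a * ex x = ex y * O.s ^ a := O.conj_zpow O.hD O.D_mem a hx

theorem t_conj (a : ℤ) {x : Mat O.n} (hx : x ∈ O.𝔫) :
    ∃ y ∈ O.𝔫, O.t ^ a * ex x = ex y * O.t ^ a := O.conj_zpow O.hA O.A_mem a hx

theorem ex_mul {x y : Mat O.n} (hx : x ∈ O.𝔫) (hy : y ∈ O.𝔫) : ∃ z ∈ O.𝔫, ex x * ex y = ex z := by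
  obtain ⟨j, hj, h⟩ := O.lie.self.mul_add hx hy (O.lie.br x hx y hy)
  exact ⟨_, O.𝔫.add_mem (O.𝔫.add_mem hx hy) hj, h⟩

theorem st_zpow (a b : ℤ) : O.s ^ a * O.t ^ b = O.t ^ b * O.s ^ a := by
  have h : Commute O.s O.t := O.st
  exact (h.zpow_zpow a b)

theorem form_mul {x y : Mat O.n} (hx : x ∈ O.𝔫) (hy : y ∈ O.𝔫) (a b c e : ℤ) :
    ∃ z ∈ O.𝔫, (ex x * O.s ^ a * O.t ^ b) * (ex y * O.s ^ c * O.t ^ e) =
      ex z * O.s ^ (a + c) * O.t ^ (b + e) := by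
  obtain ⟨y1, hy1, h1⟩ := O.t_conj b hy
  obtain ⟨y2, hy2, h2⟩ := O.s_conj a hy1
  obtain ⟨z, hz, h3⟩ := O.ex_mul hx hy2
  refine ⟨z, hz, ?_⟩
  rw [← h3, zpow_add, zpow_add]
  calc (ex x * O.s ^ a * O.t ^ b) * (ex y * O.s ^ c * O.t ^ e)
      = ex x * O.s ^ a * (O.t ^ b * ex y) * O.s ^ c * O.t ^ e := by group
    _ = ex x * (O.s ^ a * ex y1) * (O.t ^ b * O.s ^ c) * O.t ^ e := by rw [h1]; group
    _ = ex x * (ex y2 * O.s ^ a) * (O.s ^ c * O.t ^ b) * O.t ^ e := by rw [h2, ← O.st_zpow]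
    _ = _ := by group

/-- the group `H` -/
noncomputable def H : Subgroup (Mat O.n)ˣ where
  carrier := {u | ∃ x ∈ O.𝔫, ∃ a b : ℤ, u = ex x * O.s ^ a * O.t ^ b}
  mul_mem' := by
    rintro u v ⟨x, hx, a, b, rfl⟩ ⟨y, hy, c, e, rfl⟩
    obtain ⟨z, hz, h⟩ := O.form_mul hx hy a b c e
    exact ⟨z, hz, _, _, h⟩
  one_mem' := ⟨0, O.𝔫.zero_mem, 0, 0, by rw [ex_zero, zpow_zero, zpow_zero, one_mul, one_mul]⟩
  inv_mem' := by
    rintro u ⟨x, hx, a, b, rfl⟩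
    obtain ⟨y, hy, h1⟩ := O.s_conj (-a) (O.𝔫.neg_mem hx)
    obtain ⟨z, hz, h2⟩ := O.t_conj (-b) hy
    refine ⟨z, hz, -a, -b, ?_⟩
    have h3 : (ex x)⁻¹ = ex (-x) := ex_inv (O.lie.le1 hx)
    calc (ex x * O.s ^ a * O.t ^ b)⁻¹ = O.t ^ (-b) * (O.s ^ (-a) * (ex x)⁻¹) := by group
      _ = (O.t ^ (-b) * ex y) * O.s ^ (-a) := by rw [h3, h1]; group
      _ = ex z * (O.t ^ (-b) * O.s ^ (-a)) := by rw [h2]; group
      _ = _ := by rw [← O.st_zpow]; group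

theorem ex_mem_H {x : Mat O.n} (hx : x ∈ O.𝔫) : ex x ∈ O.H :=
  ⟨x, hx, 0, 0, by rw [zpow_zero, zpow_zero, mul_one, mul_one]⟩

theorem s_mem_H : O.s ∈ O.H :=
  ⟨0, O.𝔫.zero_mem, 1, 0, by rw [zpow_one, zpow_zero, mul_one, ex_zero, one_mul]⟩

theorem t_mem_H : O.t ∈ O.H :=
  ⟨0, O.𝔫.zero_mem, 0, 1, by rw [zpow_one, zpow_zero, mul_one, ex_zero, one_mul]⟩

theorem Nn_le_H : O.Nn ≤ O.H := by
  rintro _ ⟨x, hx, rfl⟩
  exact O.ex_mem_H hx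

/-- commutators of elements of `H` are in `N` -/
theorem comm_Nn {u v : (Mat O.n)ˣ} (hu : u ∈ O.H) (hv : v ∈ O.H) :
    u * v * u⁻¹ * v⁻¹ ∈ O.Nn := by
  obtain ⟨x, hx, a, b, rfl⟩ := hu
  obtain ⟨y, hy, c, e, rfl⟩ := hv
  obtain ⟨z, hz, h1⟩ := O.form_mul hx hy a b c e
  obtain ⟨w, hw, h2⟩ := O.form_mul hy hx c e a b
  have h3 : (ex x * O.s ^ a * O.t ^ b) * (ex y * O.s ^ c * O.t ^ e) * (ex x * O.s ^ a * O.t ^ b)⁻¹ *
      (ex y * O.s ^ c * O.t ^ e)⁻¹ = ex z * (ex w)⁻¹ := by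
    rw [mul_assoc, ← mul_inv_rev, h2, h1, add_comm c a, add_comm e b]
    group
  rw [h3]
  exact O.Nn.mul_mem ⟨z, hz, rfl⟩ (O.Nn.inv_mem ⟨w, hw, rfl⟩)

theorem H_sub_one {u : (Mat O.n)ˣ} (hu : u ∈ O.H) : (u : Mat O.n) - 1 ∈ FR O.n 1 := by
  obtain ⟨x, hx, a, b, rfl⟩ := hu
  have h1 : ∀ {x : Mat O.n}, x ∈ FR O.n 1 → (ex x : Mat O.n) - 1 ∈ FR O.n 1 := fun hx =>
    (ex_sub_one hx (k := 0)).2 hx
  have h2 := h1 (O.lie.le1 hx)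
  have h3 : ((O.s ^ a : (Mat O.n)ˣ) : Mat O.n) - 1 ∈ FR O.n 1 := by
    unfold s
    rw [ex_zpow O.hD]
    exact h1 (Submodule.smul_mem _ _ O.hD)
  have h4 : ((O.t ^ b : (Mat O.n)ˣ) : Mat O.n) - 1 ∈ FR O.n 1 := by
    unfold t
    rw [ex_zpow O.hA]
    exact h1 (Submodule.smul_mem _ _ O.hA)
  rw [Units.val_mul, Units.val_mul]
  exact (matFiltR O.n).one_add_mul_mem ((matFiltR O.n).one_add_mul_mem h2 h3) h4

/-- the Lie algebra `𝔫 ⊓ FR k` -/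
theorem lieF (k : ℕ) : IsLie (O.𝔫 ⊓ FR O.n (k + 1)) := by
  refine ⟨fun x hx => O.lie.le1 hx.1, fun x hx y hy => ⟨O.lie.br x hx.1 y hy.1, ?_⟩⟩
  refine Submodule.sub_mem _ ?_ ?_
  · exact FR_anti (by omega) (FR_mul hx.2 hy.2)
  · exact FR_anti (by omega) (FR_mul hy.2 hx.2)

/-- the filtration of `H` -/
noncomputable def F : ℕ → Subgroup O.H
  | 0 => ⊤
  | (i + 1) => (exG (O.lieF (i + 1))).subgroupOf O.H

theorem mem_F_succ {i : ℕ} {h : O.H} :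
    h ∈ O.F (i + 1) ↔ ∃ x ∈ O.𝔫, x ∈ FR O.n (i + 2) ∧ (h : (Mat O.n)ˣ) = ex x := by
  unfold F
  rw [Subgroup.mem_subgroupOf, mem_exG]
  constructor
  · rintro ⟨x, hx, h⟩
    exact ⟨x, hx.1, hx.2, h⟩
  · rintro ⟨x, hx, hx2, h⟩
    exact ⟨x, ⟨hx, hx2⟩, h⟩

theorem F_anti : Antitone O.F := by
  refine antitone_nat_of_succ_le fun i => ?_
  rcases i with _ | i
  · exact le_top
  · intro h hh
    rw [mem_F_succ] at hh ⊢
    obtain ⟨x, hx, hx2, h1⟩ := hh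
    exact ⟨x, hx, FR_anti (by omega) hx2, h1⟩

theorem F_bot : O.F (O.n + 1) = ⊥ := by
  rw [eq_bot_iff]
  intro h hh
  rw [mem_F_succ] at hh
  obtain ⟨x, hx, hx2, h1⟩ := hh
  have h2 : x = 0 := (matFiltR O.n).eq_zero_of_le (by omega : O.n ≤ O.n + 2) hx2
  rw [h2, ex_zero] at h1
  rw [Subgroup.mem_bot]
  exact Subtype.ext h1

theorem F_comm (i : ℕ) (h x : O.H) (hx : x ∈ O.F i) : h * x * h⁻¹ * x⁻¹ ∈ O.F (i + 1) := by
  have hx1 : ((x : (Mat O.n)ˣ) : Mat O.n) - 1 ∈ FR O.n (i + 1) := by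
    rcases i with _ | i
    · exact O.H_sub_one x.2
    · rw [mem_F_succ] at hx
      obtain ⟨y, hy, hy2, h1⟩ := hx
      rw [h1]
      exact (ex_sub_one (O.lie.le1 hy) (k := i + 1)).2 hy2
  have h1 := comm_mem (O.H_sub_one h.2) hx1 (O.H_sub_one (O.H.inv_mem h.2))
    (O.H_sub_one (O.H.inv_mem x.2))
  obtain ⟨y, hy, h2⟩ := O.comm_Nn h.2 x.2
  rw [mem_F_succ]
  refine ⟨y, hy, ?_, h2⟩
  rw [h2] at h1
  have h3 := (ex_sub_one (O.lie.le1 hy) (k := i + 1)).1 (by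
    rwa [show i + 1 + 1 = 1 + (i + 1) by ring])
  exact h3

/-- one parameter subgroups in `H` are continuous -/
theorem continuous_line {x : Mat O.n} (hx : x ∈ O.𝔫) :
    Continuous fun r : ℝ => (⟨ex (r • x), O.ex_mem_H (O.𝔫.smul_mem r hx)⟩ : O.H) := by
  refine Continuous.subtype_mk ?_ _
  have h1 : Continuous fun r : ℝ => r • x := continuous_id.smul continuous_const
  exact continuousOn_ex.comp_continuous h1 fun r => O.lie.le1 (O.𝔫.smul_mem r hx)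

theorem roots {x : Mat O.n} (hx : x ∈ O.𝔫) {h : O.H} (hh : (h : (Mat O.n)ˣ) = ex x)
    {W : Set O.H} (hW : W ∈ 𝓝 (1 : O.H)) :
    ∃ (m : ℕ) (y : O.H), (y : (Mat O.n)ˣ) = ex (((m : ℝ) + 1)⁻¹ • x) ∧ y ∈ W ∧ y ^ (m + 1) = h := by
  have h1 := (O.continuous_line hx).tendsto 0
  have h0 : (⟨ex ((0 : ℝ) • x), O.ex_mem_H (O.𝔫.smul_mem 0 hx)⟩ : O.H) = 1 := by
    apply Subtype.ext
    show ex ((0 : ℝ) • x) = 1
    rw [zero_smul, ex_zero]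
  rw [h0] at h1
  have h2 : Tendsto (fun m : ℕ => ((m : ℝ) + 1)⁻¹) atTop (𝓝 0) := by
    have := tendsto_one_div_add_atTop_nhds_zero_nat (𝕜 := ℝ)
    simpa using this
  have h3 := (h1.comp h2).eventually_mem hW
  obtain ⟨m, hm⟩ := h3.exists
  refine ⟨m, ⟨ex (((m : ℝ) + 1)⁻¹ • x), O.ex_mem_H (O.𝔫.smul_mem _ hx)⟩, rfl, hm, ?_⟩
  apply Subtype.ext
  rw [Subgroup.coe_pow, hh]
  show ex (((m : ℝ) + 1)⁻¹ • x) ^ (m + 1) = ex x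
  rw [ex_npow (Submodule.smul_mem _ _ (O.lie.le1 hx)), smul_smul]
  push_cast
  rw [mul_inv_cancel₀ (by positivity), one_smul]

theorem F_div (i : ℕ) (hi : 1 ≤ i) (x : O.H) (hx : x ∈ O.F i) (W : Set O.H)
    (hW : W ∈ 𝓝 (1 : O.H)) : ∃ y ∈ O.F i, y ∈ W ∧ ∃ m : ℕ, y ^ m = x := by
  obtain ⟨i, rfl⟩ := Nat.exists_eq_add_of_le' hi
  obtain ⟨v, hv, hv2, h1⟩ := O.mem_F_succ.1 hx
  obtain ⟨m, y, hy, hyW, hym⟩ := O.roots hv h1 hW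
  exact ⟨y, O.mem_F_succ.2 ⟨_, O.𝔫.smul_mem _ hv, Submodule.smul_mem _ _ hv2, hy⟩, hyW, _, hym⟩

/-- `N` as a subgroup of `H` -/
noncomputable def N0 : Subgroup O.H := O.Nn.subgroupOf O.H

theorem mem_N0 {h : O.H} : h ∈ O.N0 ↔ ∃ x ∈ O.𝔫, (h : (Mat O.n)ˣ) = ex x := by
  unfold N0
  rw [Subgroup.mem_subgroupOf]
  rfl

theorem N0_div (x : O.H) (hx : x ∈ O.N0) (W : Set O.H)
    (hW : W ∈ 𝓝 (1 : O.H)) : ∃ y ∈ O.N0, y ∈ W ∧ ∃ m : ℕ, y ^ m = x := by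
  obtain ⟨v, hv, h1⟩ := O.mem_N0.1 hx
  obtain ⟨m, y, hy, hyW, hym⟩ := O.roots hv h1 hW
  exact ⟨y, O.mem_N0.2 ⟨_, O.𝔫.smul_mem _ hv, hy⟩, hyW, _, hym⟩

instance N0_normal : O.N0.Normal := by
  constructor
  intro x hx g
  obtain ⟨v, hv, h1⟩ := O.mem_N0.1 hx
  have h2 := O.comm_Nn g.2 x.2
  have h3 := O.Nn.mul_mem h2 (show (x : (Mat O.n)ˣ) ∈ O.Nn from ⟨v, hv, h1⟩)
  rw [inv_mul_cancel_right] at h3
  exact h3

/-- `s` in `H` -/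
noncomputable def sH : O.H := ⟨O.s, O.s_mem_H⟩

/-- `t` in `H` -/
noncomputable def tH : O.H := ⟨O.t, O.t_mem_H⟩

theorem stH (a b : ℤ) : O.sH ^ a * O.tH ^ b = O.tH ^ b * O.sH ^ a := by
  apply Subtype.ext
  have h := O.st_zpow a b
  simpa [sH, tH] using h

/-- the subgroup of the elements `s ^ (k a) t ^ b` -/
noncomputable def SS (k : ℤ) : Subgroup O.H where
  carrier := {h | ∃ a b : ℤ, h = O.sH ^ (k * a) * O.tH ^ b}
  mul_mem' := by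
    rintro _ _ ⟨a, b, rfl⟩ ⟨c, e, rfl⟩
    refine ⟨a + c, b + e, ?_⟩
    rw [mul_add, zpow_add, zpow_add]
    calc O.sH ^ (k * a) * O.tH ^ b * (O.sH ^ (k * c) * O.tH ^ e)
        = O.sH ^ (k * a) * (O.tH ^ b * O.sH ^ (k * c)) * O.tH ^ e := by group
      _ = _ := by rw [← O.stH]; group
  one_mem' := ⟨0, 0, by simp⟩
  inv_mem' := by
    rintro _ ⟨a, b, rfl⟩
    refine ⟨-a, -b, ?_⟩
    rw [mul_inv_rev, ← zpow_neg, ← zpow_neg, ← O.stH, mul_neg]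

theorem N0_sup : O.N0 ⊔ O.SS 1 = ⊤ := by
  rw [eq_top_iff]
  rintro ⟨u, x, hx, a, b, rfl⟩ -
  have e : (⟨ex x * O.s ^ a * O.t ^ b, ⟨x, hx, a, b, rfl⟩⟩ : O.H) =
      ⟨ex x, O.ex_mem_H hx⟩ * (O.sH ^ (1 * a) * O.tH ^ b) := by
    apply Subtype.ext
    simp [sH, tH, mul_assoc]
  rw [e]
  exact Subgroup.mul_mem_sup (O.mem_N0.2 ⟨x, hx, rfl⟩) ⟨a, b, rfl⟩

theorem SS_comm (k l : ℤ) (x : O.H) (hx : x ∈ O.SS k) (y : O.H) (hy : y ∈ O.SS l) :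
    x * y = y * x := by
  obtain ⟨a, b, rfl⟩ := hx
  obtain ⟨c, e, rfl⟩ := hy
  calc O.sH ^ (k * a) * O.tH ^ b * (O.sH ^ (l * c) * O.tH ^ e)
      = O.sH ^ (k * a) * (O.tH ^ b * O.sH ^ (l * c)) * O.tH ^ e := by group
    _ = (O.sH ^ (k * a) * O.sH ^ (l * c)) * (O.tH ^ b * O.tH ^ e) := by rw [← O.stH]; group
    _ = (O.sH ^ (l * c) * O.sH ^ (k * a)) * (O.tH ^ e * O.tH ^ b) := by
      rw [← zpow_add, ← zpow_add, ← zpow_add, ← zpow_add, add_comm (k * a), add_comm b]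
    _ = O.sH ^ (l * c) * (O.sH ^ (k * a) * O.tH ^ e) * O.tH ^ b := by group
    _ = _ := by rw [O.stH]; group

end OpSys

end Pool.Agent.N305.PR
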