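import Pool.Agent.N305.PR.Grp

/-!
# Project PR: the lattice of `H`, evaluation maps, compactness
-/

set_option autoImplicit false

namespace Pool.Agent.N305.PR

open Finset Topology Filter Pool.Agent.TH91.RF Pool.Agent.TH91.NB.J887

namespace OpSys

variable {N : ℕ} {𝔤 : Submodule ℝ (Mat N)} {M : Mat N} {I : Type} {p : I → Polynomial ℤ}
  (O : OpSys 𝔤 M p)

theorem s_eq : O.s = ex (O.D + O.q 0) := by
  rw [map_zero, add_zero]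
  rfl

theorem t_eq : O.t = ex (O.A + O.c 0) := by
  rw [map_zero, add_zero]
  rfl

theorem s_spec : ∃ h : O.s ∈ O.G, O.sh ⟨O.s, h⟩ = Multiplicative.ofAdd 1 ∧
    ∀ i m, O.E i m ⟨O.s, h⟩ = ex (((p i).eval (m + 1) - (p i).eval m) • M) := by
  obtain ⟨h, h1, h2⟩ := O.ex_D 0 𝔤.zero_mem
  have e : ∀ u (_ : u = ex (O.D + O.q 0)), ∃ h : u ∈ O.G, O.sh ⟨u, h⟩ = Multiplicative.ofAdd 1 ∧
      ∀ i m, O.E i m ⟨u, h⟩ = ex (((p i).eval (m + 1) - (p i).eval m) • M) := by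
    rintro _ rfl
    refine ⟨h, h1, fun i m => ?_⟩
    rw [h2, add_zero]
  exact e _ O.s_eq

theorem t_spec : ∃ h : O.t ∈ O.G, O.sh ⟨O.t, h⟩ = 1 ∧ ∀ i m, O.E i m ⟨O.t, h⟩ = ex M := by
  obtain ⟨h, h1, h2⟩ := O.ex_A 0 𝔤.zero_mem
  have e : ∀ u (_ : u = ex (O.A + O.c 0)), ∃ h : u ∈ O.G, O.sh ⟨u, h⟩ = 1 ∧
      ∀ i m, O.E i m ⟨u, h⟩ = ex M := by
    rintro _ rfl
    refine ⟨h, h1, fun i m => ?_⟩
    rw [h2, add_zero]
  exact e _ O.t_eq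

theorem mem_Lam {Γ : Subgroup (Mat N)ˣ} {u : (Mat O.n)ˣ} :
    u ∈ O.Lam Γ ↔ ∃ h : u ∈ O.G, ∀ i m, O.E i m ⟨u, h⟩ ∈ Γ := Iff.rfl

theorem ex_mem_Lam {Γ : Subgroup (Mat N)ˣ} (hΓ : ∀ z ∈ 𝔤, ex z ∈ Γ) {x : Mat O.n}
    (hx : x ∈ O.𝔫) : ex x ∈ O.Lam Γ := by
  obtain ⟨h, h1, h2⟩ := O.ex_n x hx
  refine ⟨h, fun i m => ?_⟩
  obtain ⟨z, hz, h3⟩ := h2 i m
  rw [h3]
  exact hΓ z hz

theorem zsmul_real (a : ℤ) (X : Mat N) : a • X = (a : ℝ) • X := (Int.cast_smul_eq_zsmul ℝ a X).symm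

theorem H_le_Lam (hM : M ∈ FR N 1) {Γ : Subgroup (Mat N)ˣ} (hΓ : ∀ z ∈ 𝔤, ex z ∈ Γ)
    (hΓM : ex M ∈ Γ) : O.H ≤ O.Lam Γ := by
  rintro _ ⟨x, hx, a, b, rfl⟩
  obtain ⟨hs, _, hs2⟩ := O.s_spec
  obtain ⟨ht, _, ht2⟩ := O.t_spec
  refine (O.Lam Γ).mul_mem ((O.Lam Γ).mul_mem (O.ex_mem_Lam hΓ hx) ?_) ?_
  · refine (O.Lam Γ).zpow_mem ⟨hs, fun i m => ?_⟩ a
    rw [hs2, zsmul_real, ← ex_zpow hM]
    exact Γ.zpow_mem hΓM _
  · refine (O.Lam Γ).zpow_mem ⟨ht, fun i m => ?_⟩ b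
    rw [ht2]
    exact hΓM

/-- evaluation is multiplicative on the kernel of the shift -/
def Eker (i : I) (m : ℤ) : O.sh.ker →* (Mat N)ˣ where
  toFun u := O.E i m u
  map_one' := O.E_one i m
  map_mul' := by
    intro u v
    have h := O.E_mul i m u v
    rw [(MonoidHom.mem_ker.1 u.2), toAdd_one, add_zero] at h
    exact h

end OpSys

/-! ### In a totally minimal model -/

section model

variable (S : Sys) {I : Type} {p : I → Polynomial ℤ} (O : OpSys S.𝔤 S.M p)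

theorem Sys.ex_mem {z : Mat S.N} (hz : z ∈ S.𝔤) : ex z ∈ S.G :=
  (S.mem_G _).2 ⟨0, z, hz, by rw [Int.cast_zero, zero_smul, zero_add]⟩

theorem Sys.exM_mem : ex S.M ∈ S.G := by
  rw [← S.ha]
  exact S.a.2

theorem Sys.H_le : O.H ≤ O.Lam S.G :=
  O.H_le_Lam S.hM (fun _ hz => S.ex_mem hz) S.exM_mem

/-- evaluation on `H` with values in `G` -/
noncomputable def Sys.ev (i : I) (m : ℤ) (h : O.H) : S.G :=
  ⟨O.E i m ⟨h, (S.H_le O h.2).1⟩, (S.H_le O h.2).2 i m⟩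

theorem Sys.continuous_ev (i : I) (m : ℤ) : Continuous (S.ev O i m) := by
  refine Continuous.subtype_mk ?_ _
  refine (O.E_cont i m).comp ?_
  exact Continuous.subtype_mk continuous_subtype_val _

/-- the shift of an element of `H` -/
noncomputable def Sys.shH (h : O.H) : ℤ := (O.sh ⟨h, (S.H_le O h.2).1⟩).toAdd

theorem Sys.ev_mul (i : I) (m : ℤ) (u v : O.H) :
    S.ev O i m (u * v) = S.ev O i m u * S.ev O i (m + S.shH O u) v := by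
  apply Subtype.ext
  exact O.E_mul i m ⟨u, (S.H_le O u.2).1⟩ ⟨v, (S.H_le O v.2).1⟩

theorem Sys.ev_one (i : I) (m : ℤ) : S.ev O i m 1 = 1 := by
  apply Subtype.ext
  exact O.E_one i m

theorem Sys.ev_s (i : I) (m : ℤ) : S.ev O i m O.sH = S.a ^ ((p i).eval (m + 1) - (p i).eval m) := by
  apply Subtype.ext
  obtain ⟨h, _, h2⟩ := O.s_spec
  rw [Subgroup.coe_zpow, S.ha, ex_zpow S.hM]
  show O.E i m ⟨O.s, _⟩ = _
  rw [h2, OpSys.zsmul_real]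

theorem Sys.shH_s : S.shH O O.sH = 1 := by
  obtain ⟨h, h1, _⟩ := O.s_spec
  show (O.sh ⟨O.s, _⟩).toAdd = 1
  rw [h1, toAdd_ofAdd]

theorem Sys.ev_s_pow (i : I) (e : ℕ) (m : ℤ) :
    S.ev O i m (O.sH ^ e) = S.a ^ ((p i).eval (m + e) - (p i).eval m) := by
  induction e generalizing m with
  | zero => rw [pow_zero, S.ev_one, Nat.cast_zero, add_zero, sub_self, zpow_zero]
  | succ e ih =>
    rw [pow_succ', S.ev_mul, S.ev_s, S.shH_s, ih, ← zpow_add]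
    congr 1
    rw [show m + 1 + (e : ℤ) = m + ((e + 1 : ℕ) : ℤ) by push_cast; ring]
    ring

theorem Sys.ev_t_zpow (i : I) (m : ℤ) (b : ℤ) : S.ev O i m (O.tH ^ b) = S.a ^ b := by
  apply Subtype.ext
  obtain ⟨h, h1, h2⟩ := O.t_spec
  have hk : (⟨O.t, h⟩ : O.G) ∈ O.sh.ker := h1
  have h3 := map_zpow (O.Eker i m) ⟨⟨O.t, h⟩, hk⟩ b
  rw [Subgroup.coe_zpow, S.ha, ← h2 i m]
  have e : ((O.tH ^ b : O.H) : (Mat O.n)ˣ) = O.t ^ b := by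
    rw [Subgroup.coe_zpow]
    rfl
  have h4 : (⟨((O.tH ^ b : O.H) : (Mat O.n)ˣ), (S.H_le O (O.tH ^ b).2).1⟩ : O.G) =
      ((⟨⟨O.t, h⟩, hk⟩ : O.sh.ker) ^ b : O.sh.ker) := by
    apply Subtype.ext
    rw [Subgroup.coe_zpow, Subgroup.coe_zpow]
    exact e
  show O.E i m _ = _
  rw [h4]
  exact h3

/-- the lattice in `H` -/
noncomputable def Sys.LH : Subgroup O.H := (O.Lam S.Γ').subgroupOf O.H

theorem Sys.mem_Γ' {g : S.G} : (g : (Mat S.N)ˣ) ∈ S.Γ' ↔ g ∈ S.Γ := by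
  unfold Sys.Γ'
  constructor
  · rintro ⟨g', hg', h⟩
    have : g' = g := Subtype.ext h
    rwa [← this]
  · intro h
    exact ⟨g, h, rfl⟩

theorem Sys.mem_LH {h : O.H} : h ∈ S.LH O ↔ ∀ i m, S.ev O i m h ∈ S.Γ := by
  unfold Sys.LH
  rw [Subgroup.mem_subgroupOf, O.mem_Lam]
  constructor
  · rintro ⟨h1, h2⟩ i m
    rw [← S.mem_Γ']
    exact h2 i m
  · intro h2
    exact ⟨(S.H_le O h.2).1, fun i m => S.mem_Γ'.2 (h2 i m)⟩

theorem Sys.LH_closed : IsClosed (S.LH O : Set O.H) := by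
  have e : (S.LH O : Set O.H) = ⋂ i, ⋂ m, (S.ev O i m) ⁻¹' (S.Γ : Set S.G) := by
    ext h
    simp only [SetLike.mem_coe, S.mem_LH, Set.mem_iInter, Set.mem_preimage]
  rw [e]
  exact isClosed_iInter fun i => isClosed_iInter fun m => S.closed.preimage (S.continuous_ev O i m)

/-- the evaluation of `H / Λ` at `0` -/
noncomputable def Sys.pr (i : I) : O.H ⧸ S.LH O → S.G ⧸ S.Γ :=
  Quotient.map' (S.ev O i 0) (by
    intro u v h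
    rw [QuotientGroup.leftRel_apply] at h ⊢
    have h1 := (S.mem_LH O).1 h i (0 + S.shH O u)
    have h2 := S.ev_mul O i 0 u (u⁻¹ * v)
    rw [mul_inv_cancel_left] at h2
    rw [h2, inv_mul_cancel_left]
    exact h1)

theorem Sys.pr_mk (i : I) (h : O.H) : S.pr O i (h : O.H ⧸ S.LH O) = (S.ev O i 0 h : S.G ⧸ S.Γ) := rfl

theorem Sys.continuous_pr (i : I) : Continuous (S.pr O i) := by
  refine Continuous.quotient_map' (S.continuous_ev O i 0) _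

theorem Sys.s_mem_sup (hf : ∃ z₀ ∈ S.𝔤, ex (S.M + z₀) ∈ S.Γ') :
    O.sH ∈ O.N0 ⊔ S.LH O ∧ O.tH ∈ O.N0 ⊔ S.LH O := by
  obtain ⟨z₀, hz₀, hγ⟩ := hf
  constructor
  · obtain ⟨w, hw, h1⟩ := ex_add_right (𝔫 := O.𝔫) (𝔧 := O.𝔫) O.lie.le1 le_rfl O.hD O.lie.br
      O.D_mem (O.q_mem z₀ hz₀)
    set v := O.q z₀ + w with hv
    have hvn : v ∈ O.𝔫 := O.𝔫.add_mem (O.q_mem z₀ hz₀) hw
    obtain ⟨h2, _, h3⟩ := O.ex_D z₀ hz₀
    have h4 : ex (O.D + O.q z₀) ∈ O.Lam S.Γ' := by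
      refine ⟨h2, fun i m => ?_⟩
      rw [h3, OpSys.zsmul_real, ← ex_zpow (Submodule.add_mem _ S.hM (S.lie.le1 hz₀))]
      exact S.Γ'.zpow_mem hγ _
    have h5 : ex (O.D + O.q z₀) ∈ O.H := by
      rw [h1]
      exact O.H.mul_mem O.s_mem_H (O.ex_mem_H hvn)
    have h6 : (⟨ex (O.D + O.q z₀), h5⟩ : O.H) ∈ S.LH O := h4
    have h7 : (⟨ex v, O.ex_mem_H hvn⟩ : O.H) ∈ O.N0 := O.mem_N0.2 ⟨v, hvn, rfl⟩
    have h8 : O.sH = (⟨ex (O.D + O.q z₀), h5⟩ : O.H) * (⟨ex v, O.ex_mem_H hvn⟩ : O.H)⁻¹ := by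
      apply Subtype.ext
      show O.s = ex (O.D + O.q z₀) * (ex v)⁻¹
      rw [h1, mul_inv_cancel_right]
      rfl
    rw [h8]
    exact (O.N0 ⊔ S.LH O).mul_mem (Subgroup.mem_sup_right h6)
      ((O.N0 ⊔ S.LH O).inv_mem (Subgroup.mem_sup_left h7))
  · obtain ⟨w, hw, h1⟩ := ex_add_right (𝔫 := O.𝔫) (𝔧 := O.𝔫) O.lie.le1 le_rfl O.hA O.lie.br
      O.A_mem (O.c_mem z₀ hz₀)
    set v := O.c z₀ + w with hv
    have hvn : v ∈ O.𝔫 := O.𝔫.add_mem (O.c_mem z₀ hz₀) hw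
    obtain ⟨h2, _, h3⟩ := O.ex_A z₀ hz₀
    have h4 : ex (O.A + O.c z₀) ∈ O.Lam S.Γ' := by
      refine ⟨h2, fun i m => ?_⟩
      rw [h3]
      exact hγ
    have h5 : ex (O.A + O.c z₀) ∈ O.H := by
      rw [h1]
      exact O.H.mul_mem O.t_mem_H (O.ex_mem_H hvn)
    have h6 : (⟨ex (O.A + O.c z₀), h5⟩ : O.H) ∈ S.LH O := h4
    have h7 : (⟨ex v, O.ex_mem_H hvn⟩ : O.H) ∈ O.N0 := O.mem_N0.2 ⟨v, hvn, rfl⟩
    have h8 : O.tH = (⟨ex (O.A + O.c z₀), h5⟩ : O.H) * (⟨ex v, O.ex_mem_H hvn⟩ : O.H)⁻¹ := by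
      apply Subtype.ext
      show O.t = ex (O.A + O.c z₀) * (ex v)⁻¹
      rw [h1, mul_inv_cancel_right]
      rfl
    rw [h8]
    exact (O.N0 ⊔ S.LH O).mul_mem (Subgroup.mem_sup_right h6)
      ((O.N0 ⊔ S.LH O).inv_mem (Subgroup.mem_sup_left h7))

theorem Sys.sup_LH (hf : ∃ z₀ ∈ S.𝔤, ex (S.M + z₀) ∈ S.Γ') : O.N0 ⊔ S.LH O = ⊤ := by
  obtain ⟨h1, h2⟩ := S.s_mem_sup O hf
  rw [eq_top_iff, ← O.N0_sup]
  refine sup_le le_sup_left ?_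
  rintro _ ⟨a, b, rfl⟩
  exact (O.N0 ⊔ S.LH O).mul_mem ((O.N0 ⊔ S.LH O).zpow_mem h1 _) ((O.N0 ⊔ S.LH O).zpow_mem h2 _)

/-- `H / Λ` is compact -/
theorem Sys.compact_quot (hmal : S_MALCEV) (hspan : S_SPAN) (hfacts : S_FACTS) :
    CompactSpace (O.H ⧸ S.LH O) := by
  obtain ⟨hf, hsp⟩ := hfacts S
  have h1 := hspan S.lie S.hM S.brM O S.Γ' hf hsp
  obtain ⟨K, hK, hKn, hK2⟩ := hmal O.n O.𝔫 O.lie (O.Lam S.Γ') h1
  have hKH : K ⊆ (O.H : Set (Mat O.n)ˣ) := by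
    intro κ hκ
    obtain ⟨x, hx, rfl⟩ := hKn κ hκ
    exact O.ex_mem_H hx
  set K' : Set O.H := {h | (h : (Mat O.n)ˣ) ∈ K} with hK'
  have hK'c : IsCompact K' := by
    rw [Subtype.isCompact_iff]
    have e : (Subtype.val '' K' : Set (Mat O.n)ˣ) = K := by
      ext u
      constructor
      · rintro ⟨h, hh, rfl⟩
        exact hh
      · intro hu
        exact ⟨⟨u, hKH hu⟩, hu, rfl⟩
    rw [e]
    exact hK
  have himg : (fun h : O.H => (h : O.H ⧸ S.LH O)) '' K' = Set.univ := by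
    rw [Set.eq_univ_iff_forall]
    intro y
    obtain ⟨h, rfl⟩ := QuotientGroup.mk_surjective y
    have hh : h ∈ O.N0 ⊔ S.LH O := by rw [S.sup_LH O hf]; trivial
    rw [← SetLike.mem_coe, Subgroup.normal_mul] at hh
    obtain ⟨u, hu, l, hl, rfl⟩ := hh
    obtain ⟨x, hx, hux⟩ := O.mem_N0.1 hu
    obtain ⟨κ, hκ, l', hl', h2⟩ := hK2 x hx
    have h3 : l' ∈ O.H := by
      have : l' = κ⁻¹ * ex x := by rw [h2, inv_mul_cancel_left]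
      rw [this]
      exact O.H.mul_mem (O.H.inv_mem (hKH hκ)) (O.ex_mem_H hx)
    refine ⟨⟨κ, hKH hκ⟩, hκ, ?_⟩
    have h4 : u = ⟨κ, hKH hκ⟩ * ⟨l', h3⟩ := Subtype.ext (by rw [hux, h2]; rfl)
    have h5 : (⟨l', h3⟩ : O.H) ∈ S.LH O := hl'
    show ((⟨κ, hKH hκ⟩ : O.H) : O.H ⧸ S.LH O) = ((u * l : O.H) : O.H ⧸ S.LH O)
    rw [QuotientGroup.eq, h4, mul_assoc, inv_mul_cancel_left]
    exact (S.LH O).mul_mem h5 hl
  constructor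
  rw [← himg]
  exact hK'c.image QuotientGroup.continuous_mk

end model

end Pool.Agent.N305.PR
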