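import Pool.Agent.N305.PR.Stm
import Pool.Agent.TH91.LG.B1

/-!
# Project PR (S04319), part P3: continuous characters of exponential groups
-/

set_option autoImplicit false

namespace Pool.Agent.N305.PR

open Finset Topology Filter Pool.Agent.TH91.RF Pool.Agent.TH91.NB.J887 Pool.Agent.TH91.LG

namespace Linchar

theorem lcs (n : ℕ) : LocallyConvexSpace ℝ (Mat n) :=
  inferInstanceAs (LocallyConvexSpace ℝ (Fin n → Fin n → ℝ))

theorem lpc {n : ℕ} (V : Submodule ℝ (Mat n)) : LocallyPathConnectedSpace V := by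
  have := lcs n
  exact Convex.locallyPathConnectedSpace (Mat n) V.convex

/-- two real functions on a connected space that agree at a point and have the same exponentials -/
theorem uniq {T : Type*} [TopologicalSpace T] [PreconnectedSpace T] {g₁ g₂ : T → ℝ}
    (h₁ : Continuous g₁) (h₂ : Continuous g₂) (h : ∀ t, Circle.exp (g₁ t) = Circle.exp (g₂ t))
    (t₀ : T) (h₀ : g₁ t₀ = g₂ t₀) (t : T) : g₁ t = g₂ t :=
  congrFun (Circle.isCoveringMap_exp.eq_of_comp_eq h₁ h₂ (funext h) t₀ h₀) t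

variable {n : ℕ} {𝔫 : Submodule ℝ (Mat n)}

theorem ex_mem (h : IsLie 𝔫) {x y : Mat n} (hx : x ∈ 𝔫) (hy : y ∈ 𝔫) :
    lg (ex x * ex y) ∈ 𝔫 ∧ ex x * ex y = ex (lg (ex x * ex y)) := by
  obtain ⟨j, hj, h1⟩ := h.self.mul_add hx hy (h.br x hx y hy)
  have hz : x + y + j ∈ 𝔫 := 𝔫.add_mem (𝔫.add_mem hx hy) hj
  rw [h1, lg_ex (h.le1 hz)]
  exact ⟨hz, rfl⟩

theorem cont_z (h : IsLie 𝔫) {x y : Mat n} (hx : x ∈ 𝔫) (hy : y ∈ 𝔫) :
    Continuous fun t : ℝ => lg (ex (t • x) * ex (t • y)) := by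
  have h1 : ∀ w ∈ 𝔫, Continuous fun t : ℝ => ex (t • w) := by
    intro w hw
    exact continuousOn_ex.comp_continuous (by fun_prop)
      fun t => Submodule.smul_mem _ _ (h.le1 hw)
  exact continuous_lg.comp ((h1 x hx).mul (h1 y hy))

theorem lim_z (h : IsLie 𝔫) {x y : Mat n} (hx : x ∈ 𝔫) (hy : y ∈ 𝔫) :
    Tendsto (fun t : ℝ => t⁻¹ • lg (ex (t • x) * ex (t • y))) (𝓝[≠] 0) (𝓝 (x + y)) := by
  open scoped Matrix.Norms.Operator in
  rcases Nat.eq_zero_or_pos n with rfl | hn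
  · have e : ∀ t : ℝ, t⁻¹ • lg (ex (t • x) * ex (t • y)) = x + y := fun t => Subsingleton.elim _ _
    simp_rw [e]
    exact tendsto_const_nhds
  have hd : ∀ w : Mat n, HasDerivAt (fun t : ℝ => t • w) w 0 := by
    intro w
    have h0 := (hasDerivAt_id (0 : ℝ)).smul_const w
    rw [one_smul] at h0
    exact h0
  have h1 := V_hasDerivAt (N := n) hn (LinearMap.id : Mat n →ₗ[ℝ] Mat n) LinearMap.id
    (u := fun t : ℝ => t • x) (v := fun t : ℝ => t • y) (zero_smul _ _) (zero_smul _ _)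
    (hd x) (hd y)
  have h2 : HasDerivAt (fun t : ℝ => lg (ex (t • x) * ex (t • y))) (x + y) 0 := by
    refine h1.congr_of_eventuallyEq (Eventually.of_forall fun t => ?_)
    show Lg n n ((ex (t • x) * ex (t • y) : (Mat n)ˣ) : Mat n) = _
    rw [Units.val_mul, ex_val' (Submodule.smul_mem _ _ (h.le1 hx)),
      ex_val' (Submodule.smul_mem _ _ (h.le1 hy))]
    rfl
  have h3 := h2.tendsto_slope_zero
  refine h3.congr fun t => ?_
  have e0 : lg (ex ((0 : ℝ) • x) * ex ((0 : ℝ) • y)) = 0 := by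
    rw [zero_smul, zero_smul, ex_zero, one_mul, ← ex_zero, lg_ex (Submodule.zero_mem _)]
  simp only [zero_add, e0, sub_zero]

theorem adr_real (s : ℝ) (X x : Mat n) (k : ℕ) :
    (adr (-(s • X)))^[k] x = s ^ k • (adr (-X))^[k] x := by
  induction k with
  | zero => simp
  | succ k ih =>
    rw [Function.iterate_succ_apply', ih, Function.iterate_succ_apply', adr_neg, adr_neg,
      smul_mul_assoc, mul_smul_comm, mul_smul_comm, smul_mul_assoc, pow_succ, mul_smul,
      smul_sub, smul_comm s (s ^ k), smul_comm s (s ^ k), smul_sub]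

theorem Adf_eq (s : ℝ) (X x : Mat n) :
    Adf (s • X) x = ∑ k ∈ range (n + 1), s ^ k • ((k.factorial : ℝ)⁻¹ • (adr (-X))^[k] x) := by
  unfold Adf
  refine sum_congr rfl fun k _ => ?_
  rw [adr_real, ← Rat.cast_smul_eq_qsmul ℝ, Rat.cast_inv, Rat.cast_natCast, smul_comm]

theorem adr_lin (X x : Mat n) (t : ℝ) (k : ℕ) :
    (adr (-X))^[k] (t • x) = t • (adr (-X))^[k] x := by
  induction k with
  | zero => rfl
  | succ k ih =>
    rw [Function.iterate_succ_apply', ih, Function.iterate_succ_apply', adr_neg, adr_neg,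
      smul_mul_assoc, mul_smul_comm, smul_sub]

theorem Adf_smul (X x : Mat n) (t : ℝ) : Adf X (t • x) = t • Adf X x := by
  unfold Adf
  rw [smul_sum]
  refine sum_congr rfl fun k _ => ?_
  rw [adr_lin, smul_comm]

theorem Adf_mem {X : Mat n} (hX : ∀ x ∈ 𝔫, X * x - x * X ∈ 𝔫) {x : Mat n} (hx : x ∈ 𝔫) :
    Adf X x ∈ 𝔫 := by
  have h := Adf_sub_mem (hX x hx) hX
  have e : Adf X x = (Adf X x - x) + x := by abel
  rw [e]
  exact 𝔫.add_mem h hx

theorem Adf_succ {X x : Mat n} (hX : X ∈ FR n 1) (hx : x ∈ FR n 1) (s : ℕ) :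
    Adf (((s + 1 : ℕ) : ℝ) • X) x = Adf X (Adf ((s : ℝ) • X) x) := by
  have hs : ∀ a : ℝ, a • X ∈ FR n 1 := fun a => Submodule.smul_mem _ _ hX
  refine ex_inj (Adf_mem1 (hs _) hx) (Adf_mem1 hX (Adf_mem1 (hs _) hx)) ?_
  rw [← ex_conj (hs _) hx, ← ex_conj hX (Adf_mem1 (hs _) hx), ← ex_conj (hs _) hx,
    ← ex_npow hX, ← ex_npow hX, pow_succ']
  group

end Linchar

open Linchar in
theorem linchar : S_LINCHAR := by
  intro n 𝔫 hL χ hχ hmul
  have : LocallyPathConnectedSpace 𝔫 := lpc 𝔫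
  have hχ0 : χ 0 = 1 := by
    have h := hmul 0 𝔫.zero_mem 0 𝔫.zero_mem 0 𝔫.zero_mem (by rw [ex_zero, one_mul])
    exact left_eq_mul.1 h
  set f : C(𝔫, Circle) := ⟨fun x => χ x, continuousOn_iff_continuous_domRestrict.1 hχ⟩ with hf
  obtain ⟨F, ⟨hF0, hF⟩, -⟩ := Circle.isCoveringMap_exp.existsUnique_continuousMap_lifts f
    (0 : 𝔫) (0 : ℝ) (by
      rw [Circle.exp_zero]
      exact hχ0.symm)
  have hFx : ∀ x : 𝔫, Circle.exp (F x) = χ x := fun x => congrFun hF x
  -- homogeneity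
  have hline : ∀ (x : 𝔫) (s t : ℝ), χ ((s + t) • (x : Mat n)) = χ (s • (x : Mat n)) *
      χ (t • (x : Mat n)) := by
    intro x s t
    refine hmul _ (𝔫.smul_mem _ x.2) _ (𝔫.smul_mem _ x.2) _ (𝔫.smul_mem _ x.2) ?_
    rw [add_smul, ex_add_of_commute (Submodule.smul_mem _ _ (hL.le1 x.2))
      (Submodule.smul_mem _ _ (hL.le1 x.2))]
    rw [smul_mul_smul_comm, smul_mul_smul_comm, mul_comm s]
  have hadd1 : ∀ (x : 𝔫) (s t : ℝ), F ((s + t) • x) = F (s • x) + F (t • x) := by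
    intro x s t
    refine uniq (T := ℝ × ℝ) (g₁ := fun p => F ((p.1 + p.2) • x))
      (g₂ := fun p => F (p.1 • x) + F (p.2 • x)) (by fun_prop) (by fun_prop) ?_ (0, 0) ?_ (s, t)
    · intro p
      rw [Circle.exp_add, hFx, hFx, hFx]
      exact hline x p.1 p.2
    · simp [hF0]
  have hsm : ∀ (t : ℝ) (x : 𝔫), F (t • x) = t * F x := by
    intro t x
    let φ : ℝ →+ ℝ := ⟨⟨fun t => F (t • x), by simp [hF0]⟩, hadd1 x⟩
    have h1 := map_real_smul φ (show Continuous fun t : ℝ => F (t • x) by fun_prop) t 1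
    have h2 : φ (t • 1) = F (t • x) := by
      show F ((t • (1 : ℝ)) • x) = _
      rw [smul_eq_mul, mul_one]
    have h3 : φ 1 = F x := by
      show F ((1 : ℝ) • x) = _
      rw [one_smul]
    rw [h2, h3] at h1
    exact h1
  -- additivity
  have hadd : ∀ x y : 𝔫, F (x + y) = F x + F y := by
    intro x y
    set z : ℝ → 𝔫 := fun t => ⟨lg (ex (t • (x : Mat n)) * ex (t • (y : Mat n))),
      (ex_mem hL (𝔫.smul_mem _ x.2) (𝔫.smul_mem _ y.2)).1⟩ with hz
    have hzc : Continuous z := (cont_z hL x.2 y.2).subtype_mk _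
    have h1 : ∀ t, F (z t) = t * F x + t * F y := by
      refine uniq (F.continuous.comp hzc) (by fun_prop) ?_ (0 : ℝ) ?_
      · intro t
        show Circle.exp (F (z t)) = _
        rw [hFx, ← hsm, ← hsm, Circle.exp_add, hFx, hFx]
        exact hmul _ (𝔫.smul_mem _ x.2) _ (𝔫.smul_mem _ y.2) _ (z t).2
          (ex_mem hL (𝔫.smul_mem _ x.2) (𝔫.smul_mem _ y.2)).2
      · have e0 : z 0 = 0 := by
          apply Subtype.ext
          show lg (ex ((0 : ℝ) • (x : Mat n)) * ex ((0 : ℝ) • (y : Mat n))) = 0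
          rw [zero_smul, zero_smul, ex_zero, one_mul, ← ex_zero, lg_ex (Submodule.zero_mem _)]
        show F (z 0) = _
        rw [e0, hF0]
        simp
    have h2 : Tendsto (fun t : ℝ => t⁻¹ • z t) (𝓝[≠] 0) (𝓝 (x + y)) := by
      rw [tendsto_subtype_rng]
      exact lim_z hL x.2 y.2
    have h3 : Tendsto (fun t : ℝ => F (t⁻¹ • z t)) (𝓝[≠] 0) (𝓝 (F (x + y))) :=
      (F.continuous.tendsto _).comp h2
    have h4 : Tendsto (fun t : ℝ => F (t⁻¹ • z t)) (𝓝[≠] 0) (𝓝 (F x + F y)) := by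
      refine tendsto_const_nhds.congr' ?_
      filter_upwards [self_mem_nhdsWithin] with t ht
      have ht0 : t ≠ 0 := ht
      rw [hsm, h1]
      field_simp
    exact tendsto_nhds_unique h3 h4
  let F' : 𝔫 →ₗ[ℝ] ℝ := ⟨⟨F, hadd⟩, hsm⟩
  obtain ⟨ℓ, hℓ⟩ := LinearMap.exists_extend F'
  have hℓx : ∀ x ∈ 𝔫, χ x = Circle.exp (ℓ x) := by
    intro x hx
    have h1 : ℓ x = F ⟨x, hx⟩ := congrArg (fun T => T ⟨x, hx⟩) hℓ
    rw [h1, hFx]
  have third : ∀ X ∈ FR n 1, (∀ x ∈ 𝔫, X * x - x * X ∈ 𝔫) → (∀ x ∈ 𝔫, χ (Adf X x) = χ x) →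
      ∀ x ∈ 𝔫, ℓ (X * x - x * X) = 0 := by
    intro X hX hXn hχX x hx
    rcases Nat.eq_zero_or_pos n with rfl | hn
    · rw [Subsingleton.elim (X * x - x * X) 0, map_zero]
    have hAdf : ∀ w ∈ 𝔫, ℓ (Adf X w) = ℓ w := by
      intro w hw
      have h1 := uniq (T := ℝ) (g₁ := fun t => t * ℓ (Adf X w)) (g₂ := fun t => t * ℓ w)
        (by fun_prop) (by fun_prop) (fun t => by
          have h2 := hχX (t • w) (𝔫.smul_mem _ hw)
          rw [hℓx _ (Adf_mem hXn (𝔫.smul_mem _ hw)), hℓx _ (𝔫.smul_mem _ hw), Adf_smul,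
            ℓ.map_smul, ℓ.map_smul] at h2
          exact h2) 0 (by simp) 1
      simpa using h1
    have hXs : ∀ s : ℝ, ∀ w ∈ 𝔫, (s • X) * w - w * (s • X) ∈ 𝔫 := by
      intro s w hw
      rw [smul_mul_assoc, mul_smul_comm, ← smul_sub]
      exact 𝔫.smul_mem _ (hXn w hw)
    have hit : ∀ s : ℕ, ℓ (Adf ((s : ℝ) • X) x) = ℓ x := by
      intro s
      induction s with
      | zero =>
        rw [Nat.cast_zero, Adf_eq, map_sum, sum_range_succ']
        simp
      | succ s ih =>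
        rw [Adf_succ hX (hL.le1 hx), hAdf _ (Adf_mem (hXs _) hx), ih]
    set P : Polynomial ℝ := ∑ k ∈ range (n + 1),
      Polynomial.C ((k.factorial : ℝ)⁻¹ * ℓ ((adr (-X))^[k] x)) * Polynomial.X ^ k -
        Polynomial.C (ℓ x) with hP
    have hP0 : P = 0 := by
      apply Polynomial.eq_zero_of_infinite_isRoot
      refine (Set.infinite_range_of_injective (Nat.cast_injective (R := ℝ))).mono ?_
      rintro _ ⟨s, rfl⟩
      show P.eval (s : ℝ) = 0
      rw [hP, Polynomial.eval_sub, Polynomial.eval_finsetSum, Polynomial.eval_C, sub_eq_zero]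
      have h1 := hit s
      rw [Adf_eq, map_sum] at h1
      rw [← h1]
      refine sum_congr rfl fun k _ => ?_
      rw [map_smul, map_smul, Polynomial.eval_mul, Polynomial.eval_C, Polynomial.eval_pow,
        Polynomial.eval_X, smul_eq_mul, smul_eq_mul]
      ring
    have h1 := congrArg (fun Q => Polynomial.coeff Q 1) hP0
    simp only [hP, Polynomial.coeff_sub, Polynomial.finsetSum_coeff, Polynomial.coeff_C_mul,
      Polynomial.coeff_X_pow, Polynomial.coeff_C_of_ne_zero one_ne_zero, sub_zero,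
      Polynomial.coeff_zero, mul_ite, mul_one, mul_zero] at h1
    rw [sum_ite_eq (range (n + 1)) 1, if_pos (by rw [mem_range]; omega)] at h1
    simpa [adr_neg] using h1
  refine ⟨ℓ, hℓx, ?_, third⟩
  intro x hx y hy
  refine third x (hL.le1 hx) (fun w hw => hL.br x hx w hw) ?_ y hy
  intro w hw
  have hA : Adf x w ∈ 𝔫 := Adf_mem (fun w hw => hL.br x hx w hw) hw
  obtain ⟨hz, he⟩ := ex_mem hL hx hw
  have h1 := hmul x hx w hw _ hz he
  have h2 := hmul _ hA x hx _ hz (by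
    rw [← he, ← ex_conj (hL.le1 hx) (hL.le1 hw)]
    group)
  rw [h1, mul_comm (χ x)] at h2
  exact (mul_right_cancel h2).symm

end Pool.Agent.N305.PR
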