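import Pool.Agent.N305.PR.Stm

/-!
# Project PR (S04319), part P2: cocompactness from spanning logarithms
-/

set_option autoImplicit false

namespace Pool.Agent.N305.PR

open Finset Topology Filter Pool.Agent.TH91.RF Pool.Agent.TH91.NB.J887

namespace Malcev

variable {n : ℕ}

/-- the lower central series -/
def lcs (𝔫 : Submodule ℝ (Mat n)) : ℕ → Submodule ℝ (Mat n)
  | 0 => 𝔫
  | i + 1 => Submodule.span ℝ {z | ∃ x ∈ 𝔫, ∃ y ∈ lcs 𝔫 i, z = x * y - y * x}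

variable {𝔫 : Submodule ℝ (Mat n)}

theorem lcs_br {i : ℕ} {x y : Mat n} (hx : x ∈ 𝔫) (hy : y ∈ lcs 𝔫 i) :
    x * y - y * x ∈ lcs 𝔫 (i + 1) :=
  Submodule.subset_span ⟨x, hx, y, hy, rfl⟩

theorem lcs_br' {i : ℕ} {x y : Mat n} (hx : x ∈ 𝔫) (hy : y ∈ lcs 𝔫 i) :
    y * x - x * y ∈ lcs 𝔫 (i + 1) := by
  rw [← neg_sub]
  exact Submodule.neg_mem _ (lcs_br hx hy)

theorem lcs_anti (h : IsLie 𝔫) (i : ℕ) : lcs 𝔫 (i + 1) ≤ lcs 𝔫 i := by
  induction i with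
  | zero =>
    refine Submodule.span_le.2 ?_
    rintro z ⟨x, hx, y, hy, rfl⟩
    exact h.br x hx y hy
  | succ i ih =>
    refine Submodule.span_le.2 ?_
    rintro z ⟨x, hx, y, hy, rfl⟩
    exact lcs_br hx (ih hy)

theorem lcs_le (h : IsLie 𝔫) (i : ℕ) : lcs 𝔫 i ≤ 𝔫 := by
  induction i with
  | zero => exact le_rfl
  | succ i ih => exact (lcs_anti h i).trans ih

theorem lcs_FR (h : IsLie 𝔫) (i : ℕ) : lcs 𝔫 i ≤ FR n (i + 1) := by
  induction i with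
  | zero => exact h.le1
  | succ i ih =>
    refine Submodule.span_le.2 ?_
    rintro z ⟨x, hx, y, hy, rfl⟩
    have h1 : x * y ∈ FR n (1 + (i + 1)) := (matFiltR n).mul (i := 1) (j := i + 1) (h.le1 hx) (ih hy)
    have h2 : y * x ∈ FR n ((i + 1) + 1) := (matFiltR n).mul (i := i + 1) (j := 1) (ih hy) (h.le1 hx)
    rw [add_comm 1 (i + 1)] at h1
    exact Submodule.sub_mem _ h1 h2

theorem lcs_bot (h : IsLie 𝔫) : lcs 𝔫 n = ⊥ := by
  rw [eq_bot_iff]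
  intro x hx
  rw [Submodule.mem_bot]
  ext i j
  exact lcs_FR h n hx i j (by omega)

/-- `[𝔫₁, 𝔫ᵢ] ≤ 𝔫ᵢ₊₂` -/
theorem lcs_one_br {i : ℕ} {x w : Mat n} (hx : x ∈ lcs 𝔫 1) (hw : w ∈ lcs 𝔫 i) :
    x * w - w * x ∈ lcs 𝔫 (i + 2) := by
  change x ∈ Submodule.span ℝ {z | ∃ x ∈ 𝔫, ∃ y ∈ 𝔫, z = x * y - y * x} at hx
  induction hx using Submodule.span_induction with
  | mem x hx =>
    obtain ⟨a, ha, b, hb, rfl⟩ := hx
    have h1 := lcs_br ha (lcs_br hb hw)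
    have h2 := lcs_br hb (lcs_br ha hw)
    have e : (a * b - b * a) * w - w * (a * b - b * a) =
        (a * (b * w - w * b) - (b * w - w * b) * a) -
          (b * (a * w - w * a) - (a * w - w * a) * b) := by noncomm_ring
    rw [e]
    exact Submodule.sub_mem _ h1 h2
  | zero => simp
  | add x y _ _ hx hy =>
    have e : (x + y) * w - w * (x + y) = (x * w - w * x) + (y * w - w * y) := by noncomm_ring
    rw [e]
    exact Submodule.add_mem _ hx hy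
  | smul c x _ hx =>
    have e : (c • x) * w - w * (c • x) = c • (x * w - w * x) := by
      rw [smul_mul_assoc, mul_smul_comm, smul_sub]
    rw [e]
    exact Submodule.smul_mem _ _ hx

/-- `Adf X w = w + [X, w] + ...` -/
theorem Adf_sub_mem2 {𝔧 : Submodule ℝ (Mat n)} {X w : Mat n}
    (hw : X * (X * w - w * X) - (X * w - w * X) * X ∈ 𝔧)
    (h : ∀ x ∈ 𝔧, X * x - x * X ∈ 𝔧) : Adf X w - w - (X * w - w * X) ∈ 𝔧 := by
  rcases Nat.eq_zero_or_pos n with hn | hn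
  · subst hn
    have e : Adf X w - w - (X * w - w * X) = 0 := Subsingleton.elim _ _
    rw [e]
    exact Submodule.zero_mem _
  obtain ⟨m, rfl⟩ : ∃ m, n = m + 1 := ⟨n - 1, by omega⟩
  have key : ∀ k, (adr (-X))^[k + 2] w ∈ 𝔧 := by
    intro k
    induction k with
    | zero =>
      rw [Function.iterate_succ_apply', Function.iterate_succ_apply', Function.iterate_zero_apply,
        adr_neg, adr_neg]
      exact hw
    | succ k ih =>
      rw [Function.iterate_succ_apply', adr_neg]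
      exact h _ ih
  unfold Adf
  rw [sum_range_succ', sum_range_succ', Function.iterate_zero_apply, Nat.factorial_zero,
    Nat.cast_one, inv_one, one_smul, add_sub_cancel_right, zero_add, Nat.factorial_one,
    Nat.cast_one, inv_one, one_smul, Function.iterate_one, adr_neg, add_sub_cancel_right]
  refine Submodule.sum_mem _ fun k _ => ?_
  rw [← Rat.cast_smul_eq_qsmul ℝ]
  exact 𝔧.smul_mem _ (key k)

/-- ideals between consecutive terms of the series -/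
theorem isIdl_of (h : IsLie 𝔫) {i : ℕ} {V : Submodule ℝ (Mat n)} (h1 : lcs 𝔫 (i + 1) ≤ V)
    (h2 : V ≤ lcs 𝔫 i) : IsIdl 𝔫 V :=
  ⟨h.le1, h.br, h2.trans (lcs_le h i), fun _ hx _ hy => h1 (lcs_br hx (h2 hy))⟩

theorem comm_mem (h : IsLie 𝔫) (Λ : Subgroup (Mat n)ˣ) {i : ℕ} {x y : Mat n} (hx : x ∈ 𝔫)
    (hxΛ : ex x ∈ Λ) (hy : y ∈ lcs 𝔫 i) (hyΛ : ex y ∈ Λ) :
    ∃ w ∈ lcs 𝔫 (i + 1), ex w ∈ Λ ∧ w - (x * y - y * x) ∈ lcs 𝔫 (i + 2) := by
  have hyn : y ∈ 𝔫 := lcs_le h i hy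
  have hA2 : Adf x y - y - (x * y - y * x) ∈ lcs 𝔫 (i + 2) :=
    Adf_sub_mem2 (lcs_br hx (lcs_br hx hy)) fun z hz => lcs_anti h _ (lcs_br hx hz)
  have hA1 : Adf x y - y ∈ lcs 𝔫 (i + 1) := by
    have := Submodule.add_mem _ (lcs_anti h _ hA2) (lcs_br hx hy)
    simpa using this
  have hA : Adf x y ∈ 𝔫 := by
    have := Submodule.add_mem _ (lcs_le h _ hA1) hyn
    simpa using this
  have hI : IsIdl 𝔫 (lcs 𝔫 (i + 2)) := isIdl_of h (lcs_anti h (i + 2)) le_rfl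
  have hbr : Adf x y * (-y) - (-y) * Adf x y ∈ lcs 𝔫 (i + 2) := by
    have e : Adf x y * (-y) - (-y) * Adf x y = y * (Adf x y - y) - (Adf x y - y) * y := by
      noncomm_ring
    rw [e]
    exact lcs_br hyn hA1
  obtain ⟨j, hj, hj2⟩ := hI.mul_add hA (Submodule.neg_mem _ hyn) hbr
  refine ⟨Adf x y + -y + j, ?_, ?_, ?_⟩
  · have e : Adf x y + -y + j = (Adf x y - y) + j := by abel
    rw [e]
    exact Submodule.add_mem _ hA1 (lcs_anti h _ hj)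
  · rw [← hj2, ← ex_inv (h.le1 hyn), ← ex_conj (h.le1 hx) (h.le1 hyn)]
    exact Λ.mul_mem (Λ.mul_mem (Λ.mul_mem hxΛ hyΛ) (Λ.inv_mem hxΛ)) (Λ.inv_mem hyΛ)
  · have e : Adf x y + -y + j - (x * y - y * x) = (Adf x y - y - (x * y - y * x)) + j := by abel
    rw [e]
    exact Submodule.add_mem _ hA2 hj

theorem bil (h : IsLie 𝔫) (Λ : Subgroup (Mat n)ˣ) (i : ℕ) {x1 y1 : Mat n}
    (hx1 : x1 ∈ lgs 𝔫 Λ) (hy1 : y1 ∈ Submodule.span ℝ {x | x ∈ lcs 𝔫 i ∧ ex x ∈ Λ}) :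
    x1 * y1 - y1 * x1 ∈
      Submodule.span ℝ {x | x ∈ lcs 𝔫 (i + 1) ∧ ex x ∈ Λ} ⊔ lcs 𝔫 (i + 2) := by
  have hbil : ∀ y ∈ {x | x ∈ lcs 𝔫 i ∧ ex x ∈ Λ}, x1 * y - y * x1 ∈
      Submodule.span ℝ {x | x ∈ lcs 𝔫 (i + 1) ∧ ex x ∈ Λ} ⊔ lcs 𝔫 (i + 2) := by
    intro y hy
    unfold lgs at hx1
    induction hx1 using Submodule.span_induction with
    | mem x hx =>
      obtain ⟨w, hw1, hw2, hw3⟩ := comm_mem h Λ hx.1 hx.2 hy.1 hy.2
      have e2 : x * y - y * x = w - (w - (x * y - y * x)) := by abel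
      rw [e2]
      exact Submodule.sub_mem _ (Submodule.mem_sup_left (Submodule.subset_span ⟨hw1, hw2⟩))
        (Submodule.mem_sup_right hw3)
    | zero => simp
    | add x x' _ _ hx hx' =>
      have e : (x + x') * y - y * (x + x') = (x * y - y * x) + (x' * y - y * x') := by
        noncomm_ring
      rw [e]
      exact Submodule.add_mem _ hx hx'
    | smul c x _ hx =>
      have e : (c • x) * y - y * (c • x) = c • (x * y - y * x) := by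
        rw [smul_mul_assoc, mul_smul_comm, smul_sub]
      rw [e]
      exact Submodule.smul_mem _ _ hx
  induction hy1 using Submodule.span_induction with
  | mem y hy => exact hbil y hy
  | zero => simp
  | add y y' _ _ hy hy' =>
    have e : x1 * (y + y') - (y + y') * x1 = (x1 * y - y * x1) + (x1 * y' - y' * x1) := by
      noncomm_ring
    rw [e]
    exact Submodule.add_mem _ hy hy'
  | smul c y _ hy =>
    have e : x1 * (c • y) - (c • y) * x1 = c • (x1 * y - y * x1) := by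
      rw [smul_mul_assoc, mul_smul_comm, smul_sub]
    rw [e]
    exact Submodule.smul_mem _ _ hy

theorem claimA (h : IsLie 𝔫) (Λ : Subgroup (Mat n)ˣ) (h0 : 𝔫 ≤ lgs 𝔫 Λ ⊔ brs 𝔫) (i : ℕ) :
    lcs 𝔫 i ≤ Submodule.span ℝ {x | x ∈ lcs 𝔫 i ∧ ex x ∈ Λ} ⊔ lcs 𝔫 (i + 1) := by
  induction i with
  | zero => exact h0
  | succ i ih =>
    refine Submodule.span_le.2 ?_
    rintro z ⟨x, hx, y, hy, rfl⟩
    obtain ⟨y1, hy1, y2, hy2, rfl⟩ := Submodule.mem_sup.1 (ih hy)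
    obtain ⟨x1, hx1, x2, hx2, rfl⟩ := Submodule.mem_sup.1 (h0 hx)
    have hy1' : y1 ∈ lcs 𝔫 i := by
      refine (Submodule.span_le.2 ?_) hy1
      intro t ht
      exact ht.1
    have hx2' : x2 ∈ lcs 𝔫 1 := hx2
    have e : (x1 + x2) * (y1 + y2) - (y1 + y2) * (x1 + x2) =
        (x1 * y1 - y1 * x1) + ((x2 * y1 - y1 * x2) + ((x1 + x2) * y2 - y2 * (x1 + x2))) := by
      noncomm_ring
    have h3 : (x2 * y1 - y1 * x2) + ((x1 + x2) * y2 - y2 * (x1 + x2)) ∈ lcs 𝔫 (i + 2) :=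
      Submodule.add_mem _ (lcs_one_br hx2' hy1') (lcs_br hx hy2)
    rw [SetLike.mem_coe, e]
    refine Submodule.add_mem _ ?_ (Submodule.mem_sup_right h3)
    exact bil h Λ i hx1 hy1

/-- `exp V` is contained in a compact set times `Λ` -/
def Cov (𝔫 : Submodule ℝ (Mat n)) (Λ : Subgroup (Mat n)ˣ) (V : Submodule ℝ (Mat n)) : Prop :=
  ∃ K : Set (Mat n)ˣ, IsCompact K ∧ (∀ κ ∈ K, ∃ x ∈ 𝔫, κ = ex x) ∧
    ∀ x ∈ V, ∃ κ ∈ K, ∃ l ∈ Λ, ex x = κ * l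

theorem cov_bot (Λ : Subgroup (Mat n)ˣ) : Cov 𝔫 Λ ⊥ := by
  refine ⟨{1}, isCompact_singleton, ?_, ?_⟩
  · rintro κ rfl
    exact ⟨0, 𝔫.zero_mem, ex_zero.symm⟩
  · intro x hx
    rw [Submodule.mem_bot] at hx
    subst hx
    exact ⟨1, rfl, 1, Λ.one_mem, by rw [ex_zero, one_mul]⟩

theorem cov_step (h : IsLie 𝔫) (Λ : Subgroup (Mat n)ˣ) {V : Submodule ℝ (Mat n)} (hV : IsIdl 𝔫 V)
    {e : Mat n} (he : e ∈ 𝔫) (heΛ : ex e ∈ Λ) (hbr : ∀ x ∈ 𝔫, x * e - e * x ∈ V)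
    (hc : Cov 𝔫 Λ V) : Cov 𝔫 Λ (V ⊔ Submodule.span ℝ {e}) := by
  obtain ⟨K, hK, hK1, hK2⟩ := hc
  have hE : IsCompact (ex '' ((fun s : ℝ => s • e) '' Set.Icc 0 1)) := by
    refine (isCompact_Icc.image (by fun_prop)).image_of_continuousOn ?_
    refine continuousOn_ex.mono ?_
    rintro _ ⟨s, _, rfl⟩
    exact Submodule.smul_mem _ _ (h.le1 he)
  refine ⟨_, hE.mul hK, ?_, ?_⟩
  · rintro κ ⟨a, ⟨_, ⟨s, _, rfl⟩, rfl⟩, b, hb, rfl⟩
    obtain ⟨y, hy, rfl⟩ := hK1 b hb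
    obtain ⟨j, hj, hj2⟩ := h.self.mul_add (𝔫.smul_mem s he) hy (h.br _ (𝔫.smul_mem s he) _ hy)
    exact ⟨_, 𝔫.add_mem (𝔫.add_mem (𝔫.smul_mem s he) hy) hj, hj2⟩
  · intro x hx
    obtain ⟨v, hv, y, hy, rfl⟩ := Submodule.mem_sup.1 hx
    obtain ⟨c, rfl⟩ := Submodule.mem_span_singleton.1 hy
    have hvn : v ∈ 𝔫 := hV.le hv
    have hxn : v + c • e ∈ 𝔫 := 𝔫.add_mem hvn (𝔫.smul_mem c he)
    set m : ℤ := ⌊c⌋ with hm
    have hmn : ((-m : ℤ) : ℝ) • e ∈ 𝔫 := 𝔫.smul_mem _ he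
    have hb1 : (v + c • e) * (((-m : ℤ) : ℝ) • e) - (((-m : ℤ) : ℝ) • e) * (v + c • e) ∈ V := by
      rw [mul_smul_comm, smul_mul_assoc, ← smul_sub]
      exact V.smul_mem _ (hbr _ hxn)
    obtain ⟨j, hj, hj2⟩ := hV.mul_add hxn hmn hb1
    have hsn : (Int.fract c) • e ∈ 𝔫 := 𝔫.smul_mem _ he
    have hjn : j ∈ 𝔫 := hV.le hj
    have hdiff : v + c • e + ((-m : ℤ) : ℝ) • e + j - (Int.fract c) • e = v + j := by
      have e1 : (Int.fract c : ℝ) = c + ((-m : ℤ) : ℝ) := by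
        rw [Int.fract, hm]
        push_cast
        ring
      rw [e1, add_smul]
      abel
    have hmem : v + c • e + ((-m : ℤ) : ℝ) • e + j ∈ 𝔫 :=
      𝔫.add_mem (𝔫.add_mem hxn hmn) hjn
    obtain ⟨j', hj', hj2'⟩ := hV.coset hsn hmem (by
      rw [hdiff]
      exact V.add_mem hv hj)
    obtain ⟨κ, hκ, l, hl, hkl⟩ := hK2 j' hj'
    refine ⟨ex ((Int.fract c) • e) * κ, ⟨_, ⟨_, ⟨Int.fract c, ⟨Int.fract_nonneg c,
      (Int.fract_lt_one c).le⟩, rfl⟩, rfl⟩, κ, hκ, rfl⟩, l * ex e ^ m,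
      Λ.mul_mem hl (Λ.zpow_mem heΛ m), ?_⟩
    have e2 : ex (((-m : ℤ) : ℝ) • e) = (ex e ^ m)⁻¹ := by
      rw [← ex_zpow (h.le1 he), zpow_neg]
    have e3 : ex (v + c • e) * (ex e ^ m)⁻¹ = ex ((Int.fract c) • e) * (κ * l) := by
      rw [← e2, hj2, hj2', hkl]
    rw [mul_inv_eq_iff_eq_mul] at e3
    rw [e3]
    simp only [mul_assoc]

theorem claimB (h : IsLie 𝔫) (Λ : Subgroup (Mat n)ˣ) (h0 : 𝔫 ≤ lgs 𝔫 Λ ⊔ brs 𝔫) (i : ℕ)
    (hc : Cov 𝔫 Λ (lcs 𝔫 (i + 1))) : Cov 𝔫 Λ (lcs 𝔫 i) := by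
  classical
  have hfg : (Submodule.span ℝ {x | x ∈ lcs 𝔫 i ∧ ex x ∈ Λ}).FG :=
    Submodule.FG.of_finite
  obtain ⟨t, ht, hspan⟩ := Submodule.fg_span_iff_fg_span_finset_subset _ |>.1 hfg
  have key : ∀ s : Finset (Mat n), (s : Set (Mat n)) ⊆ {x | x ∈ lcs 𝔫 i ∧ ex x ∈ Λ} →
      Cov 𝔫 Λ (lcs 𝔫 (i + 1) ⊔ Submodule.span ℝ (s : Set (Mat n))) := by
    intro s
    induction s using Finset.induction_on with
    | empty =>
      intro _
      simpa using hc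
    | insert e s hes ih =>
      intro hs
      rw [coe_insert, Set.insert_subset_iff] at hs
      have hle : lcs 𝔫 (i + 1) ⊔ Submodule.span ℝ (s : Set (Mat n)) ≤ lcs 𝔫 i := by
        refine sup_le (lcs_anti h i) (Submodule.span_le.2 fun x hx => (hs.2 hx).1)
      have hI := isIdl_of h le_sup_left hle
      have h2 := cov_step h Λ hI (lcs_le h i hs.1.1) hs.1.2
        (fun x hx => Submodule.mem_sup_left (lcs_br hx hs.1.1)) (ih hs.2)
      rw [coe_insert, Set.insert_eq, Submodule.span_union, sup_comm (Submodule.span ℝ {e}),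
        ← sup_assoc]
      exact h2
  obtain ⟨K, hK, hK1, hK2⟩ := key t ht
  refine ⟨K, hK, hK1, fun x hx => hK2 x ?_⟩
  have h3 := claimA h Λ h0 i hx
  rw [hspan, sup_comm] at h3
  exact h3

theorem cov_all (h : IsLie 𝔫) (Λ : Subgroup (Mat n)ˣ) (h0 : 𝔫 ≤ lgs 𝔫 Λ ⊔ brs 𝔫) (m : ℕ) :
    ∀ i, i + m = n → Cov 𝔫 Λ (lcs 𝔫 i) := by
  induction m with
  | zero =>
    intro i hi
    rw [add_zero] at hi
    subst hi
    rw [lcs_bot h]
    exact cov_bot Λ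
  | succ m ih =>
    intro i hi
    exact claimB h Λ h0 i (ih (i + 1) (by omega))

end Malcev

theorem malcev : S_MALCEV := by
  intro n 𝔫 h Λ h0
  exact Malcev.cov_all h Λ h0 n 0 (zero_add n)

end Pool.Agent.N305.PR
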