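import Pool.Agent.N305.PR.Stm

/-!
# Project PR, part P4: the operator system (helper692 for helper305)
-/

set_option autoImplicit false

namespace Pool.Agent.N305.PR

open Finset Topology Filter Pool.Agent.TH91.RF Pool.Agent.TH91.NB.J887
open Polynomial

namespace Op

variable {N : ℕ} {I : Type}

/-- families of vector valued polynomials -/
abbrev VV (N : ℕ) (I : Type) := I → Fin N → ℝ[X]

/-- matrices with polynomial entries -/
abbrev PM (N : ℕ) := Matrix (Fin N) (Fin N) ℝ[X]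

/-- the flag -/
noncomputable def W (N : ℕ) (I : Type) (K s : ℕ) : Submodule ℝ (VV N I) where
  carrier := {f | ∀ (i : I) (r : Fin N), f i r ∈ degreeLT ℝ (s - (K + 1) * (r : ℕ))}
  add_mem' := fun hf hg i r => Submodule.add_mem _ (hf i r) (hg i r)
  zero_mem' := fun _ _ => Submodule.zero_mem _
  smul_mem' := fun c _ hf i r => Submodule.smul_mem _ c (hf i r)

theorem mem_W {K s : ℕ} {f : VV N I} :
    f ∈ W N I K s ↔ ∀ (i : I) (r : Fin N), f i r ∈ degreeLT ℝ (s - (K + 1) * (r : ℕ)) := Iff.rfl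

theorem W_zero (K : ℕ) : W N I K 0 = ⊥ := by
  rw [eq_bot_iff]
  intro f hf
  rw [Submodule.mem_bot]
  funext i r
  have h := mem_W.1 hf i r
  rw [Nat.zero_sub, mem_degreeLT] at h
  simpa using h

theorem W_mono (K : ℕ) : Monotone (W N I K) := by
  intro s t hst f hf i r
  exact degreeLT_mono (Nat.sub_le_sub_right hst _) (mem_W.1 hf i r)

/-- multiplication operators -/
noncomputable def mulOp (G : I → PM N) : VV N I →ₗ[ℝ] VV N I where
  toFun f := fun i => (G i).mulVec (f i)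
  map_add' f g := by
    funext i r
    simp only [Matrix.mulVec, dotProduct, Pi.add_apply, mul_add, sum_add_distrib]
  map_smul' c f := by
    funext i r
    simp only [Matrix.mulVec, dotProduct, Pi.smul_apply, RingHom.id_apply, smul_sum,
      mul_smul_comm]

theorem mulOp_apply (G : I → PM N) (f : VV N I) (i : I) : mulOp G f i = (G i).mulVec (f i) := rfl

/-- the derivation -/
noncomputable def DD (P : I → ℝ[X]) (z : Mat N) : VV N I →ₗ[ℝ] VV N I where
  toFun f := fun i => vD (P i) z (f i)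
  map_add' f g := by
    funext i
    exact map_add (vD (P i) z) (f i) (g i)
  map_smul' c f := by
    funext i
    exact map_smul (vD (P i) z) c (f i)

theorem DD_apply (P : I → ℝ[X]) (z : Mat N) (f : VV N I) (i : I) :
    DD P z f i = vD (P i) z (f i) := rfl

/-- the operator lowers the flag -/
def Low (K : ℕ) (T : VV N I →ₗ[ℝ] VV N I) : Prop := ∀ s, ∀ f ∈ W N I K (s + 1), T f ∈ W N I K s

theorem Low.add {K : ℕ} {T T' : VV N I →ₗ[ℝ] VV N I} (h : Low K T) (h' : Low K T') :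
    Low K (T + T') := fun s f hf => Submodule.add_mem _ (h s f hf) (h' s f hf)

theorem Low.maps {K : ℕ} {T : VV N I →ₗ[ℝ] VV N I} (h : Low K T) (s : ℕ) :
    ∀ f ∈ W N I K s, T f ∈ W N I K s := fun f hf => h s f (W_mono K (Nat.le_succ s) hf)

theorem mul_mem_degreeLT {K a : ℕ} {p q : ℝ[X]} (hp : p ∈ degreeLT ℝ (K + 1))
    (hq : q ∈ degreeLT ℝ a) : p * q ∈ degreeLT ℝ (K + a) := by
  by_cases h0 : p * q = 0
  · rw [h0]; exact Submodule.zero_mem _
  · have hp0 : p ≠ 0 := left_ne_zero_of_mul h0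
    have hq0 : q ≠ 0 := right_ne_zero_of_mul h0
    rw [mem_degreeLT, ← natDegree_lt_iff_degree_lt hp0] at hp
    rw [mem_degreeLT, ← natDegree_lt_iff_degree_lt hq0] at hq
    rw [mem_degreeLT, ← natDegree_lt_iff_degree_lt h0, natDegree_mul hp0 hq0]
    omega

theorem low_mulOp {K : ℕ} (G : I → PM N) (h0 : ∀ i (r t : Fin N), (t : ℕ) ≤ (r : ℕ) → G i r t = 0)
    (h1 : ∀ i (r t : Fin N), G i r t ∈ degreeLT ℝ (K + 1)) : Low K (mulOp G) := by
  intro s f hf i r
  rw [mulOp_apply]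
  simp only [Matrix.mulVec, dotProduct]
  refine Submodule.sum_mem _ fun t _ => ?_
  by_cases ht : (t : ℕ) ≤ (r : ℕ)
  · rw [h0 i r t ht, zero_mul]; exact Submodule.zero_mem _
  · have h2 := mem_W.1 hf i t
    by_cases h3 : s + 1 - (K + 1) * (t : ℕ) = 0
    · rw [h3] at h2
      have h4 : f i t = 0 := by
        rw [mem_degreeLT] at h2
        simpa using h2
      rw [h4, mul_zero]; exact Submodule.zero_mem _
    · refine degreeLT_mono ?_ (mul_mem_degreeLT (h1 i r t) h2)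
      have h5 : (K + 1) * ((r : ℕ) + 1) ≤ (K + 1) * (t : ℕ) := Nat.mul_le_mul_left _ (by omega)
      rw [Nat.mul_succ] at h5
      omega

/-- scalar polynomial times constant matrix -/
noncomputable def PC (p : ℝ[X]) (z : Mat N) : PM N := p • z.map C

theorem PC_apply (p : ℝ[X]) (z : Mat N) (r t : Fin N) : PC p z r t = p * C (z r t) := rfl

theorem low_PC {K : ℕ} (P : I → ℝ[X]) (hP : ∀ i, P i ∈ degreeLT ℝ (K + 1)) {z : Mat N}
    (hz : z ∈ FR N 1) : Low K (mulOp fun i => PC (P i) z) := by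
  refine low_mulOp _ (fun i r t h => ?_) fun i r t => ?_
  · rw [PC_apply, hz r t (by omega), C_0, mul_zero]
  · rw [PC_apply, mul_comm, ← smul_eq_C_mul]
    exact Submodule.smul_mem _ _ (hP i)

theorem vD_eq (p : ℝ[X]) (z : Mat N) (f : Fin N → ℝ[X]) :
    vD p z f = (fun r => derivative (f r)) + (PC (derivative p) z).mulVec f := by
  funext r
  simp only [vD, LinearMap.coe_mk, AddHom.coe_mk, Pi.add_apply, Matrix.mulVec, dotProduct,
    PC_apply, mul_sum]
  congr 1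
  exact sum_congr rfl fun t _ => by ring

theorem low_DD {K : ℕ} (P : I → ℝ[X]) (hP : ∀ i, derivative (P i) ∈ degreeLT ℝ (K + 1)) {z : Mat N}
    (hz : z ∈ FR N 1) : Low K (DD P z) := by
  intro s f hf i r
  rw [DD_apply, vD_eq, Pi.add_apply]
  refine Submodule.add_mem _ ?_ (low_PC (fun i => derivative (P i)) hP hz s f hf i r)
  have h2 := mem_W.1 hf i r
  by_cases h0 : derivative (f i r) = 0
  · simp only [h0]; exact Submodule.zero_mem _
  · have h3 : f i r ≠ 0 := fun h => h0 (by rw [h, derivative_zero])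
    rw [mem_degreeLT, ← natDegree_lt_iff_degree_lt h3] at h2
    rw [mem_degreeLT, ← natDegree_lt_iff_degree_lt h0]
    have h4 := natDegree_derivative_lt (p := f i r) (fun h => h0 (by
      rw [eq_C_of_natDegree_eq_zero h, derivative_C]))
    omega

/-! ### The finite dimensional space -/

instance finDim [Finite I] (K L : ℕ) : FiniteDimensional ℝ (W N I K L) := by
  have : FiniteDimensional ℝ (degreeLT ℝ L) := (degreeLTEquiv ℝ L).symm.finiteDimensional
  let φ : W N I K L →ₗ[ℝ] (I → Fin N → degreeLT ℝ L) :=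
    { toFun := fun f i r => ⟨f.1 i r, degreeLT_mono (Nat.sub_le _ _) (mem_W.1 f.2 i r)⟩
      map_add' := fun f g => rfl
      map_smul' := fun c f => rfl }
  refine FiniteDimensional.of_injective φ fun f g h => ?_
  refine Subtype.ext (funext fun i => funext fun r => ?_)
  exact congrArg Subtype.val (congrFun (congrFun h i) r)

/-- the restriction of an operator to the finite dimensional space -/
noncomputable def rs {K : ℕ} {T : VV N I →ₗ[ℝ] VV N I} (h : Low K T) (L : ℕ) :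
    Module.End ℝ (W N I K L) := T.restrict (h.maps L)

theorem rs_apply {K : ℕ} {T : VV N I →ₗ[ℝ] VV N I} (h : Low K T) (L : ℕ) (f : W N I K L) :
    ((rs h L f : W N I K L) : VV N I) = T f := rfl

/-- the flag of the space -/
noncomputable def fl (N : ℕ) (I : Type) (K L s : ℕ) : Submodule ℝ (W N I K L) :=
  (W N I K s).comap (W N I K L).subtype

/-- the operators that lower the flag -/
def LowV {K L : ℕ} (T : Module.End ℝ (W N I K L)) : Prop :=
  ∀ s, ∀ v ∈ fl N I K L (s + 1), T v ∈ fl N I K L s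

theorem lowV_rs {K : ℕ} {T : VV N I →ₗ[ℝ] VV N I} (h : Low K T) (L : ℕ) : LowV (rs h L) :=
  fun s v hv => h s v.1 hv

theorem tri_use (hT : S_TRI) [Finite I] (K L : ℕ) : ∃ (n : ℕ) (b : Module.Basis (Fin n) ℝ (W N I K L)),
    ∀ T : Module.End ℝ (W N I K L), LowV T → LinearMap.toMatrixAlgEquiv b T ∈ FR n 1 := by
  obtain ⟨n, b, hb⟩ := hT (W N I K L) L (fl N I K L)
    (by unfold fl; rw [W_zero, Submodule.comap_bot, Submodule.ker_subtype])
    (fun s t hst => Submodule.comap_mono (W_mono K hst))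
    (by unfold fl; exact Submodule.comap_subtype_self _)
  exact ⟨n, b, fun T hT => hb T hT⟩

/-- projection to the strictly upper triangular matrices -/
noncomputable def pj (N : ℕ) : Mat N →ₗ[ℝ] Mat N where
  toFun z := fun r t => if (t : ℕ) < r + 1 then 0 else z r t
  map_add' z w := by
    ext r t
    show (if (t : ℕ) < r + 1 then 0 else (z + w) r t) =
      (if (t : ℕ) < r + 1 then 0 else z r t) + (if (t : ℕ) < r + 1 then 0 else w r t)
    split_ifs
    · rw [add_zero]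
    · rfl
  map_smul' a z := by
    ext r t
    show (if (t : ℕ) < r + 1 then 0 else (a • z) r t) =
      a • (if (t : ℕ) < r + 1 then 0 else z r t)
    split_ifs
    · rw [smul_zero]
    · rfl

theorem pj_apply (z : Mat N) (r t : Fin N) : pj N z r t = if (t : ℕ) < r + 1 then 0 else z r t := rfl

theorem pj_mem (z : Mat N) : pj N z ∈ FR N 1 := by
  intro r t h
  rw [pj_apply, if_pos h]

theorem pj_eq {z : Mat N} (hz : z ∈ FR N 1) : pj N z = z := by
  ext r t
  rw [pj_apply]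
  split_ifs with h
  · exact (hz r t h).symm
  · rfl

theorem PC_add (p : ℝ[X]) (z w : Mat N) : PC p (z + w) = PC p z + PC p w := by
  ext1 r t
  rw [Matrix.add_apply, PC_apply, PC_apply, PC_apply, Matrix.add_apply, C_add, mul_add]

theorem PC_smul (p : ℝ[X]) (a : ℝ) (z : Mat N) : PC p (a • z) = a • PC p z := by
  ext1 r t
  rw [Matrix.smul_apply, PC_apply, PC_apply, Matrix.smul_apply, smul_eq_mul, C_mul,
    smul_eq_C_mul]
  ring

theorem PC_mul (p q : ℝ[X]) (z w : Mat N) : PC p z * PC q w = PC (p * q) (z * w) := by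
  ext1 r t
  rw [Matrix.mul_apply, PC_apply, Matrix.mul_apply, map_sum, mul_sum]
  refine sum_congr rfl fun s _ => ?_
  rw [PC_apply, PC_apply, C_mul]
  ring

theorem PC_sub (p : ℝ[X]) (z w : Mat N) : PC p (z - w) = PC p z - PC p w := by
  ext1 r t
  rw [Matrix.sub_apply, PC_apply, PC_apply, PC_apply, Matrix.sub_apply, C_sub, mul_sub]

/-- the multiplication operators `Q_i(X) z` as a linear function of `z` -/
noncomputable def mo {K : ℕ} (L : ℕ) (Q : I → ℝ[X]) (hQ : ∀ i, Q i ∈ degreeLT ℝ (K + 1)) :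
    Mat N →ₗ[ℝ] Module.End ℝ (W N I K L) where
  toFun z := rs (low_PC Q hQ (pj_mem z)) L
  map_add' z w := by
    refine LinearMap.ext fun f => Subtype.ext (funext fun i => ?_)
    show (PC (Q i) (pj N (z + w))).mulVec (f.1 i) =
      (PC (Q i) (pj N z)).mulVec (f.1 i) + (PC (Q i) (pj N w)).mulVec (f.1 i)
    rw [map_add, PC_add, Matrix.add_mulVec]
  map_smul' a z := by
    refine LinearMap.ext fun f => Subtype.ext (funext fun i => ?_)
    show (PC (Q i) (pj N (a • z))).mulVec (f.1 i) = a • (PC (Q i) (pj N z)).mulVec (f.1 i)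
    rw [map_smul, PC_smul, Matrix.smul_mulVec]

theorem mo_apply {K : ℕ} (L : ℕ) (Q : I → ℝ[X]) (hQ : ∀ i, Q i ∈ degreeLT ℝ (K + 1)) {z : Mat N}
    (hz : z ∈ FR N 1) (f : W N I K L) (i : I) :
    (mo L Q hQ z f : W N I K L).1 i = (PC (Q i) z).mulVec (f.1 i) := by
  show (PC (Q i) (pj N z)).mulVec (f.1 i) = _
  rw [pj_eq hz]

theorem lowV_mo {K : ℕ} (L : ℕ) (Q : I → ℝ[X]) (hQ : ∀ i, Q i ∈ degreeLT ℝ (K + 1)) (z : Mat N) :
    LowV (mo L Q hQ z) := lowV_rs (low_PC Q hQ (pj_mem z)) L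

/-! ### Multiplication operators with coefficients in `𝔤` -/

/-- the operator is the multiplication by matrix polynomials with coefficients in `𝔤` -/
def IsMul (𝔤 : Submodule ℝ (Mat N)) {K L : ℕ} (T : Module.End ℝ (W N I K L)) : Prop :=
  ∃ G : I → PM N, (∀ i k, (matPolyEquiv (G i)).coeff k ∈ 𝔤) ∧
    ∀ (f : W N I K L) (i : I), (T f).1 i = (G i).mulVec (f.1 i)

variable {𝔤 : Submodule ℝ (Mat N)} {K L : ℕ}

theorem IsMul.zero : IsMul 𝔤 (0 : Module.End ℝ (W N I K L)) := by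
  refine ⟨fun _ => 0, fun i k => ?_, fun f i => ?_⟩
  · rw [map_zero, coeff_zero]; exact 𝔤.zero_mem
  · rw [Matrix.zero_mulVec]; rfl

theorem IsMul.add {T T' : Module.End ℝ (W N I K L)} (h : IsMul 𝔤 T) (h' : IsMul 𝔤 T') :
    IsMul 𝔤 (T + T') := by
  obtain ⟨G, h1, h2⟩ := h
  obtain ⟨G', h1', h2'⟩ := h'
  refine ⟨fun i => G i + G' i, fun i k => ?_, fun f i => ?_⟩
  · rw [map_add, coeff_add]; exact 𝔤.add_mem (h1 i k) (h1' i k)
  · rw [Matrix.add_mulVec, ← h2, ← h2']; rfl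

theorem IsMul.smul {T : Module.End ℝ (W N I K L)} (h : IsMul 𝔤 T) (a : ℝ) :
    IsMul 𝔤 (a • T) := by
  obtain ⟨G, h1, h2⟩ := h
  refine ⟨fun i => a • G i, fun i k => ?_, fun f i => ?_⟩
  · rw [map_smul, coeff_smul]; exact 𝔤.smul_mem _ (h1 i k)
  · rw [Matrix.smul_mulVec, ← h2]; rfl

theorem coeff_br_mem {A B : (Mat N)[X]} (h : ∀ a b, A.coeff a * B.coeff b - B.coeff b * A.coeff a ∈ 𝔤)
    (k : ℕ) : (A * B - B * A).coeff k ∈ 𝔤 := by
  rw [coeff_sub, coeff_mul, coeff_mul, ← Finset.Nat.sum_antidiagonal_swap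
    (f := fun x => B.coeff x.1 * A.coeff x.2), ← sum_sub_distrib]
  exact 𝔤.sum_mem fun x _ => h _ _

theorem IsMul.br (hg : ∀ x ∈ 𝔤, ∀ y ∈ 𝔤, x * y - y * x ∈ 𝔤) {T T' : Module.End ℝ (W N I K L)}
    (h : IsMul 𝔤 T) (h' : IsMul 𝔤 T') : IsMul 𝔤 (T * T' - T' * T) := by
  obtain ⟨G, h1, h2⟩ := h
  obtain ⟨G', h1', h2'⟩ := h'
  refine ⟨fun i => G i * G' i - G' i * G i, fun i k => ?_, fun f i => ?_⟩
  · rw [map_sub, map_mul, map_mul]
    exact coeff_br_mem (fun a b => hg _ (h1 i a) _ (h1' i b)) k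
  · show (T (T' f)).1 i - (T' (T f)).1 i = _
    rw [h2, h2', h2', h2, Matrix.sub_mulVec, Matrix.mulVec_mulVec, Matrix.mulVec_mulVec]

theorem matPoly_PC (p : ℝ[X]) (z : Mat N) :
    matPolyEquiv (PC p z) = p.map (algebraMap ℝ (Mat N)) * C z := by
  unfold PC
  rw [matPolyEquiv_map_smul, matPolyEquiv_map_C]

theorem coeff_PC (p : ℝ[X]) (z : Mat N) (k : ℕ) : (matPolyEquiv (PC p z)).coeff k = p.coeff k • z := by
  rw [matPoly_PC, coeff_mul_C, coeff_map, Algebra.smul_def]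

theorem isMul_mo (Q : I → ℝ[X]) (hQ : ∀ i, Q i ∈ degreeLT ℝ (K + 1)) {z : Mat N}
    (hz : z ∈ FR N 1) (hzg : z ∈ 𝔤) : IsMul 𝔤 (mo L Q hQ z) := by
  refine ⟨fun i => PC (Q i) z, fun i k => ?_, fun f i => mo_apply L Q hQ hz f i⟩
  rw [coeff_PC]
  exact 𝔤.smul_mem _ hzg

/-- brackets with the multiplication by `M` -/
theorem IsMul.brA {M : Mat N} (hM : ∀ x ∈ 𝔤, M * x - x * M ∈ 𝔤) {A T : Module.End ℝ (W N I K L)}
    (hA : ∀ (f : W N I K L) (i : I), (A f).1 i = (PC 1 M).mulVec (f.1 i)) (h : IsMul 𝔤 T) :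
    IsMul 𝔤 (A * T - T * A) := by
  obtain ⟨G, h1, h2⟩ := h
  refine ⟨fun i => PC 1 M * G i - G i * PC 1 M, fun i k => ?_, fun f i => ?_⟩
  · rw [map_sub, map_mul, map_mul]
    refine coeff_br_mem (fun a b => ?_) k
    rw [coeff_PC, smul_mul_assoc, mul_smul_comm, ← smul_sub]
    exact 𝔤.smul_mem _ (hM _ (h1 i b))
  · show (A (T f)).1 i - (T (A f)).1 i = _
    rw [h2, hA, hA, h2, Matrix.sub_mulVec, Matrix.mulVec_mulVec, Matrix.mulVec_mulVec]

/-- entrywise derivative -/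
noncomputable def dm (G : PM N) : PM N := G.map derivative

theorem coeff_dm (G : PM N) (k : ℕ) :
    (matPolyEquiv (dm G)).coeff k = ((k : ℝ) + 1) • (matPolyEquiv G).coeff (k + 1) := by
  ext r t
  rw [Matrix.smul_apply, matPolyEquiv_coeff_apply, matPolyEquiv_coeff_apply]
  show (derivative (G r t)).coeff k = _
  rw [coeff_derivative, smul_eq_mul, mul_comm]

theorem deriv_mulVec (G : PM N) (f : Fin N → ℝ[X]) :
    (fun r => derivative (G.mulVec f r)) = (dm G).mulVec f + G.mulVec (fun r => derivative (f r)) := by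
  funext r
  simp only [Matrix.mulVec, dotProduct, derivative_sum, derivative_mul, sum_add_distrib,
    Pi.add_apply]
  rfl

/-- brackets with the derivation -/
theorem IsMul.brD {M : Mat N} (hM : ∀ x ∈ 𝔤, M * x - x * M ∈ 𝔤) {P : I → ℝ[X]}
    {D T : Module.End ℝ (W N I K L)}
    (hD : ∀ (f : W N I K L) (i : I), (D f).1 i = vD (P i) M (f.1 i)) (h : IsMul 𝔤 T) :
    IsMul 𝔤 (D * T - T * D) := by
  obtain ⟨G, h1, h2⟩ := h
  refine ⟨fun i => dm (G i) + (PC (derivative (P i)) M * G i - G i * PC (derivative (P i)) M),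
    fun i k => ?_, fun f i => ?_⟩
  · rw [map_add, coeff_add, map_sub, map_mul, map_mul]
    refine 𝔤.add_mem ?_ (coeff_br_mem (fun a b => ?_) k)
    · rw [coeff_dm]; exact 𝔤.smul_mem _ (h1 i _)
    · rw [coeff_PC, smul_mul_assoc, mul_smul_comm, ← smul_sub]
      exact 𝔤.smul_mem _ (hM _ (h1 i b))
  · show (D (T f)).1 i - (T (D f)).1 i = _
    rw [h2, hD, hD, h2, vD_eq, vD_eq, deriv_mulVec, Matrix.mulVec_add, Matrix.add_mulVec,
      Matrix.sub_mulVec, Matrix.mulVec_mulVec, Matrix.mulVec_mulVec]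
    abel

/-! ### Values of the operators -/

/-- the vector of the values -/
noncomputable def ev (m : ℝ) (f : Fin N → ℝ[X]) : Fin N → ℝ := fun r => (f r).eval m

theorem ev_mulVec (m : ℝ) (G : PM N) (f : Fin N → ℝ[X]) :
    ev m (G.mulVec f) = (G.map (eval m)).mulVec (ev m f) := by
  funext r
  simp only [ev, Matrix.mulVec, dotProduct, eval_finsetSum, eval_mul, Matrix.map_apply]

theorem ev_inj {f g : Fin N → ℝ[X]} (h : ∀ m : ℤ, ev (m : ℝ) f = ev (m : ℝ) g) : f = g := by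
  funext r
  refine Polynomial.eq_of_infinite_eval_eq _ _ ?_
  refine Set.Infinite.mono (s := Set.range fun m : ℤ => (m : ℝ)) ?_
    (Set.infinite_range_of_injective Int.cast_injective)
  rintro _ ⟨m, rfl⟩
  exact congrFun (h m) r

/-- `(U f)_i (m) = g_i(m) f_i(m + s)` -/
def HasE {K L : ℕ} (U : Module.End ℝ (W N I K L)) (s : ℤ) (g : I → ℤ → (Mat N)ˣ) : Prop :=
  ∀ (f : W N I K L) (i : I) (m : ℤ),
    ev (m : ℝ) ((U f).1 i) = (g i m : Mat N).mulVec (ev ((m + s : ℤ) : ℝ) (f.1 i))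

theorem HasE.one : HasE (1 : Module.End ℝ (W N I K L)) 0 (fun _ _ => 1) := by
  intro f i m
  rw [Units.val_one, Matrix.one_mulVec, add_zero]
  rfl

theorem HasE.mul {U U' : Module.End ℝ (W N I K L)} {s s' : ℤ} {g g' : I → ℤ → (Mat N)ˣ}
    (h : HasE U s g) (h' : HasE U' s' g') :
    HasE (U * U') (s + s') (fun i m => g i m * g' i (m + s)) := by
  intro f i m
  show ev (m : ℝ) ((U (U' f)).1 i) = _
  rw [h, h', Matrix.mulVec_mulVec, Units.val_mul, add_assoc]

theorem HasE.inv {U U' : Module.End ℝ (W N I K L)} {s : ℤ} {g : I → ℤ → (Mat N)ˣ}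
    (h : HasE U s g) (hU : U * U' = 1) :
    HasE U' (-s) (fun i m => (g i (m - s))⁻¹) := by
  intro f i m
  have h1 := h (U' f) i (m - s)
  have h2 : U (U' f) = f := by
    have := congrArg (fun T : Module.End ℝ (W N I K L) => T f) hU
    exact this
  rw [h2, sub_add_cancel] at h1
  rw [← sub_eq_add_neg, h1, Matrix.mulVec_mulVec, Units.inv_mul, Matrix.one_mulVec]

/-- the constant vectors -/
noncomputable def cst {K L : ℕ} (hL : (K + 1) * N + 1 ≤ L) (t : Fin N) (p : ℝ[X])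
    (hp : p ∈ degreeLT ℝ 2) (ht : p = 1 ∨ (t : ℕ) = 0 ∧ 2 ≤ L) : W N I K L :=
  ⟨fun _ => Pi.single t p, by
    intro i r
    show (Pi.single t p : Fin N → ℝ[X]) r ∈ _
    by_cases hr : r = t
    · subst hr
      rw [Pi.single_eq_same]
      rcases ht with rfl | ⟨h1, h2⟩
      · refine degreeLT_mono (m := 1) ?_ ?_
        · have h3 : (K + 1) * (r : ℕ) ≤ (K + 1) * N := Nat.mul_le_mul_left _ r.2.le
          omega
        · rw [mem_degreeLT]
          exact lt_of_le_of_lt degree_one_le (by norm_num)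
      · refine degreeLT_mono (m := 2) ?_ hp
        rw [h1, mul_zero]
        omega
    · rw [Pi.single_eq_of_ne hr]
      exact Submodule.zero_mem _⟩

theorem one_mem2 : (1 : ℝ[X]) ∈ degreeLT ℝ 2 := by
  rw [mem_degreeLT]
  exact lt_of_le_of_lt degree_one_le (by norm_num)

theorem X_mem2 : (X : ℝ[X]) ∈ degreeLT ℝ 2 := by
  rw [mem_degreeLT]
  exact lt_of_le_of_lt degree_X_le (by norm_num)

theorem ev_single (m : ℝ) (t : Fin N) (p : ℝ[X]) :
    ev m (Pi.single t p : Fin N → ℝ[X]) = Pi.single t (p.eval m) := by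
  funext r
  unfold ev
  by_cases hr : r = t
  · subst hr
    rw [Pi.single_eq_same, Pi.single_eq_same]
  · rw [Pi.single_eq_of_ne hr, Pi.single_eq_of_ne hr, eval_zero]

theorem HasE.col {U : Module.End ℝ (W N I K L)} {s : ℤ} {g : I → ℤ → (Mat N)ˣ}
    (h : HasE U s g) (hL : (K + 1) * N + 1 ≤ L) (i : I) (m : ℤ) (r t : Fin N) :
    (g i m : Mat N) r t =
      ((U (cst (I := I) hL t 1 one_mem2 (Or.inl rfl))).1 i r).eval (m : ℝ) := by
  have h1 := h (cst (I := I) hL t 1 one_mem2 (Or.inl rfl)) i m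
  have h2 : ev ((m + s : ℤ) : ℝ) ((cst (I := I) hL t 1 one_mem2 (Or.inl rfl) : W N I K L).1 i) =
      Pi.single t 1 := by
    show ev _ (Pi.single t (1 : ℝ[X]) : Fin N → ℝ[X]) = _
    rw [ev_single, eval_one]
  rw [h2, Matrix.mulVec_single_one] at h1
  have h3 := congrFun h1 r
  exact h3.symm

theorem HasE.unique {U : Module.End ℝ (W N I K L)} {s s' : ℤ} {g g' : I → ℤ → (Mat N)ˣ}
    (h : HasE U s g) (h' : HasE U s' g') (hL : (K + 1) * N + 1 ≤ L) (hN : 0 < N) [Nonempty I] :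
    s = s' ∧ g = g' := by
  have hg : g = g' := by
    funext i m
    refine Units.ext ?_
    ext r t
    rw [h.col hL, h'.col hL]
  refine ⟨?_, hg⟩
  subst hg
  obtain ⟨i⟩ := ‹Nonempty I›
  have hL2 : 2 ≤ L := by
    have : 1 * 1 ≤ (K + 1) * N := Nat.mul_le_mul (by omega) hN
    omega
  set f : W N I K L := cst (I := I) hL ⟨0, hN⟩ X X_mem2 (Or.inr ⟨rfl, hL2⟩) with hf
  have h1 := (h f i 0).symm.trans (h' f i 0)
  have h2 := congrArg (fun v => (((g i 0)⁻¹ : (Mat N)ˣ) : Mat N).mulVec v) h1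
  simp only [Matrix.mulVec_mulVec, Units.inv_mul, Matrix.one_mulVec] at h2
  have h3 : ∀ x : ℝ, ev x (f.1 i) = Pi.single ⟨0, hN⟩ x := by
    intro x
    show ev _ (Pi.single _ (X : ℝ[X]) : Fin N → ℝ[X]) = _
    rw [ev_single, eval_X]
  rw [h3, h3] at h2
  have h4 := congrFun h2 ⟨0, hN⟩
  rw [Pi.single_eq_same, Pi.single_eq_same, zero_add, zero_add] at h4
  exact_mod_cast h4

/-! ### Exponentials -/

theorem ex_sum {n : ℕ} {x : Mat n} (hx : x ∈ FR n 1) {k : ℕ} (hk : n + 1 ≤ k) :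
    (ex x : Mat n) = ∑ j ∈ range k, ((j.factorial : ℝ))⁻¹ • x ^ j := by
  rw [ex_val hx, IsNilpotent.exp_eq_sum ((matFiltR n).pow_eq_zero (toF hx) k (by omega) (by omega))]
  refine sum_congr rfl fun j _ => ?_
  rw [← Rat.cast_smul_eq_qsmul ℝ]
  push_cast
  rfl

theorem pow_zero_of_le {n : ℕ} {x : Mat n} (hx : x ∈ FR n 1) {k : ℕ} (hk : n + 1 ≤ k) :
    x ^ k = 0 := (matFiltR n).pow_eq_zero (toF hx) k (by omega) (by omega)

theorem ev_sum_smul {ι : Type} (s : Finset ι) (a : ι → ℝ) (f : ι → Fin N → ℝ[X]) (m : ℝ) :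
    ev m (∑ j ∈ s, a j • f j) = ∑ j ∈ s, a j • ev m (f j) := by
  funext r
  simp only [ev, Finset.sum_apply, Pi.smul_apply, eval_finsetSum, eval_smul]

theorem coe_sum_smul {ι : Type} (s : Finset ι) (a : ι → ℝ) (T : ι → Module.End ℝ (W N I K L))
    (f : W N I K L) (i : I) :
    ((∑ j ∈ s, a j • T j) f).1 i = ∑ j ∈ s, a j • (T j f).1 i := by
  rw [LinearMap.sum_apply, Submodule.coe_sum, Finset.sum_apply]
  rfl

section exps

variable {n : ℕ} (mt : Module.End ℝ (W N I K L) ≃ₐ[ℝ] Mat n)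

theorem symm_ex {x : Mat n} (hx : x ∈ FR n 1) {k : ℕ} (hk : n + 1 ≤ k) :
    mt.symm (ex x : Mat n) = ∑ j ∈ range k, ((j.factorial : ℝ))⁻¹ • (mt.symm x) ^ j := by
  rw [ex_sum hx hk, map_sum]
  exact sum_congr rfl fun j _ => by rw [map_smul, map_pow]

theorem hasE_mul {x : Mat n} (hx : x ∈ FR n 1) (G : I → PM N)
    (hG : ∀ (f : W N I K L) (i : I), (mt.symm x f).1 i = (G i).mulVec (f.1 i))
    (hG1 : ∀ i (m : ℝ), (G i).map (eval m) ∈ FR N 1) :
    HasE (mt.symm (ex x : Mat n)) 0 (fun i m => ex ((G i).map (eval (m : ℝ)))) := by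
  intro f i m
  have hp : ∀ j : ℕ, (((mt.symm x) ^ j) f).1 i = ((G i) ^ j).mulVec (f.1 i) := by
    intro j
    induction j with
    | zero => rw [pow_zero, pow_zero, Matrix.one_mulVec]; rfl
    | succ j ih =>
      rw [pow_succ', pow_succ', ← Matrix.mulVec_mulVec, ← ih]
      exact hG _ i
  have hm : ∀ j : ℕ, ((G i) ^ j).map (eval (m : ℝ)) = ((G i).map (eval (m : ℝ))) ^ j := by
    intro j
    have := map_pow ((evalRingHom (m : ℝ)).mapMatrix (m := Fin N)) (G i) j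
    exact this
  rw [symm_ex mt hx (k := n + N + 1) (by omega), coe_sum_smul, ev_sum_smul,
    ex_sum (hG1 i m) (k := n + N + 1) (by omega), add_zero, Matrix.sum_mulVec]
  refine sum_congr rfl fun j _ => ?_
  rw [hp, ev_mulVec, hm, Matrix.smul_mulVec]

theorem hasE_D {x : Mat n} (hx : x ∈ FR n 1) (hE : S_EXPD) (P : I → ℝ[X]) {z : Mat N}
    (hz : z ∈ FR N 1)
    (hG : ∀ (f : W N I K L) (i : I), (mt.symm x f).1 i = vD (P i) z (f.1 i)) :
    HasE (mt.symm (ex x : Mat n)) 1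
      (fun i m => ex (((P i).eval ((m : ℝ) + 1) - (P i).eval (m : ℝ)) • z)) := by
  intro f i m
  have hp : ∀ j : ℕ, (((mt.symm x) ^ j) f).1 i = ((vD (P i) z) ^ j) (f.1 i) := by
    intro j
    induction j with
    | zero => rfl
    | succ j ih =>
      rw [pow_succ', pow_succ', Module.End.mul_apply, Module.End.mul_apply, ← ih]
      exact hG _ i
  have h0 : ((vD (P i) z) ^ (n + 1)) (f.1 i) = 0 := by
    rw [← hp, ← map_pow, pow_zero_of_le hx le_rfl, map_zero]
    rfl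
  have h1 := hE N z hz (P i) (f.1 i) (n + 1) h0 m
  rw [symm_ex mt hx (k := n + 1) le_rfl, coe_sum_smul, ev_sum_smul]
  funext r
  rw [Finset.sum_apply]
  simp only [Pi.smul_apply, smul_eq_mul, hp]
  have h2 := h1 r
  simp only [ev, Matrix.mulVec, dotProduct, Int.cast_add, Int.cast_one]
  exact h2

end exps

/-! ### The group -/

section group

variable {n : ℕ} (mt : Module.End ℝ (W N I K L) ≃ₐ[ℝ] Mat n)

/-- the group of the operators of the form `(U f)_i(m) = g_i(m) f_i(m + s)` -/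
def GG : Subgroup (Mat n)ˣ where
  carrier := {u | ∃ (s : ℤ) (g : I → ℤ → (Mat N)ˣ), HasE (mt.symm (u : Mat n)) s g}
  mul_mem' := by
    rintro u v ⟨s, g, h⟩ ⟨s', g', h'⟩
    refine ⟨_, _, (?_ : HasE _ (s + s') (fun i m => g i m * g' i (m + s)))⟩
    rw [Units.val_mul, map_mul]
    exact h.mul h'
  one_mem' := ⟨0, fun _ _ => 1, by
    rw [Units.val_one, map_one]
    exact HasE.one⟩
  inv_mem' := by
    rintro u ⟨s, g, h⟩
    refine ⟨_, _, h.inv (U' := mt.symm ((u⁻¹ : (Mat n)ˣ) : Mat n)) ?_⟩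
    rw [← map_mul, Units.mul_inv, map_one]

theorem mem_GG {u : (Mat n)ˣ} : u ∈ GG mt ↔
    ∃ (s : ℤ) (g : I → ℤ → (Mat N)ˣ), HasE (mt.symm (u : Mat n)) s g := Iff.rfl

/-- the shift -/
noncomputable def shf (u : GG mt) : ℤ := ((mem_GG mt).1 u.2).choose

/-- the values -/
noncomputable def EE (u : GG mt) : I → ℤ → (Mat N)ˣ := ((mem_GG mt).1 u.2).choose_spec.choose

theorem EE_spec (u : GG mt) : HasE (mt.symm ((u : (Mat n)ˣ) : Mat n)) (shf mt u) (EE mt u) :=
  ((mem_GG mt).1 u.2).choose_spec.choose_spec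

variable (hL : (K + 1) * N + 1 ≤ L) (hN : 0 < N) [Nonempty I]

include hL hN in
theorem GG_unique (u : GG mt) {s : ℤ} {g : I → ℤ → (Mat N)ˣ}
    (h : HasE (mt.symm ((u : (Mat n)ˣ) : Mat n)) s g) : shf mt u = s ∧ EE mt u = g :=
  (EE_spec mt u).unique h hL hN

include hL hN in
theorem GG_mul (u v : GG mt) : shf mt (u * v) = shf mt u + shf mt v ∧
    EE mt (u * v) = fun i m => EE mt u i m * EE mt v i (m + shf mt u) := by
  refine GG_unique mt hL hN (u * v) ?_
  rw [Subgroup.coe_mul, Units.val_mul, map_mul]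
  exact (EE_spec mt u).mul (EE_spec mt v)

/-- the shift homomorphism -/
noncomputable def shH : GG mt →* Multiplicative ℤ :=
  MonoidHom.mk' (fun u => Multiplicative.ofAdd (shf mt u)) (fun u v => by
    rw [(GG_mul mt hL hN u v).1, ofAdd_add])

theorem shH_apply (u : GG mt) : shH mt hL hN u = Multiplicative.ofAdd (shf mt u) := rfl

include hL in
omit [Nonempty I] in
theorem EE_val_continuous (i : I) (m : ℤ) :
    Continuous fun u : GG mt => ((EE mt u i m : (Mat N)ˣ) : Mat N) := by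
  refine continuous_matrix fun r t => ?_
  let φ : Mat n →ₗ[ℝ] ℝ :=
    { toFun := fun x => ((mt.symm x (cst (I := I) hL t 1 one_mem2 (Or.inl rfl))).1 i r).eval (m : ℝ)
      map_add' := fun x y => by
        rw [map_add]
        exact eval_add
      map_smul' := fun a x => by
        rw [map_smul]
        exact eval_smul _ _ _ }
  have hφ : Continuous φ := LinearMap.continuous_of_finiteDimensional φ
  have h2 : Continuous fun u : GG mt => φ ((u : (Mat n)ˣ) : Mat n) :=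
    hφ.comp (Units.continuous_val.comp continuous_subtype_val)
  exact h2.congr fun u => ((EE_spec mt u).col hL i m r t).symm

include hL in
omit [Nonempty I] in
theorem EE_continuous (i : I) (m : ℤ) : Continuous fun u : GG mt => EE mt u i m := by
  rw [Units.continuous_iff]
  refine ⟨EE_val_continuous mt hL i m, ?_⟩
  have h := EE_val_continuous mt hL i m
  have h2 : ∀ u : GG mt, (((EE mt u i m)⁻¹ : (Mat N)ˣ) : Mat N) =
      (((EE mt u i m : (Mat N)ˣ) : Mat N).det)⁻¹ • ((EE mt u i m : (Mat N)ˣ) : Mat N).adjugate := by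
    intro u
    rw [Matrix.coe_units_inv, Matrix.inv_def, Ring.inverse_eq_inv]
  refine Continuous.congr ?_ fun u => (h2 u).symm
  refine Continuous.smul (Continuous.inv₀ h.matrix_det fun u => ?_) h.matrix_adjugate
  have := (Matrix.isUnit_iff_isUnit_det _).1 (EE mt u i m).isUnit
  exact this.ne_zero

end group

/-! ### The Lie algebra -/

/-- generation by brackets -/
inductive Gen {n : ℕ} (𝔤 : Submodule ℝ (Mat N)) (c q : Mat N →ₗ[ℝ] Mat n) (D A : Mat n) :
    Mat n → Prop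
  | c (z : Mat N) (hz : z ∈ 𝔤) : Gen 𝔤 c q D A (c z)
  | q (z : Mat N) (hz : z ∈ 𝔤) : Gen 𝔤 c q D A (q z)
  | D (x : Mat n) (hx : Gen 𝔤 c q D A x) : Gen 𝔤 c q D A (D * x - x * D)
  | A (x : Mat n) (hx : Gen 𝔤 c q D A x) : Gen 𝔤 c q D A (A * x - x * A)
  | br (x y : Mat n) (hx : Gen 𝔤 c q D A x) (hy : Gen 𝔤 c q D A y) :
      Gen 𝔤 c q D A (x * y - y * x)

section lie

variable {n : ℕ} (𝔤 : Submodule ℝ (Mat N)) (c q : Mat N →ₗ[ℝ] Mat n) (D A : Mat n)

/-- the Lie algebra generated -/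
def nn : Submodule ℝ (Mat n) := Submodule.span ℝ {x | Gen 𝔤 c q D A x}

theorem nn_of {x : Mat n} (h : Gen 𝔤 c q D A x) : x ∈ nn 𝔤 c q D A := Submodule.subset_span h

theorem nn_ad {B : Mat n} (hB : ∀ x, Gen 𝔤 c q D A x → B * x - x * B ∈ nn 𝔤 c q D A) :
    ∀ x ∈ nn 𝔤 c q D A, B * x - x * B ∈ nn 𝔤 c q D A := by
  intro x hx
  induction hx using Submodule.span_induction with
  | mem x h => exact hB x h
  | zero => rw [mul_zero, zero_mul, sub_zero]; exact Submodule.zero_mem _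
  | add x y _ _ hx hy =>
    have e : B * (x + y) - (x + y) * B = (B * x - x * B) + (B * y - y * B) := by noncomm_ring
    rw [e]; exact Submodule.add_mem _ hx hy
  | smul a x _ hx =>
    rw [mul_smul_comm, smul_mul_assoc, ← smul_sub]
    exact Submodule.smul_mem _ _ hx

theorem nn_br : ∀ x ∈ nn 𝔤 c q D A, ∀ y ∈ nn 𝔤 c q D A, x * y - y * x ∈ nn 𝔤 c q D A := by
  intro x hx
  induction hx using Submodule.span_induction with
  | mem x h => exact nn_ad 𝔤 c q D A fun y hy => nn_of 𝔤 c q D A (Gen.br x y h hy)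
  | zero => intro y _; rw [mul_zero, zero_mul, sub_zero]; exact Submodule.zero_mem _
  | add x x' _ _ hx hx' =>
    intro y hy
    have e : (x + x') * y - y * (x + x') = (x * y - y * x) + (x' * y - y * x') := by noncomm_ring
    rw [e]; exact Submodule.add_mem _ (hx y hy) (hx' y hy)
  | smul a x _ hx =>
    intro y hy
    rw [mul_smul_comm, smul_mul_assoc, ← smul_sub]
    exact Submodule.smul_mem _ _ (hx y hy)

theorem nn_le {𝔪 : Submodule ℝ (Mat n)} (h1 : ∀ z ∈ 𝔤, c z ∈ 𝔪) (h2 : ∀ z ∈ 𝔤, q z ∈ 𝔪)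
    (h3 : ∀ x ∈ nn 𝔤 c q D A, ∀ y ∈ nn 𝔤 c q D A, x * y - y * x ∈ 𝔪)
    (h4 : ∀ x ∈ nn 𝔤 c q D A, D * x - x * D ∈ 𝔪) (h5 : ∀ x ∈ nn 𝔤 c q D A, A * x - x * A ∈ 𝔪) :
    nn 𝔤 c q D A ≤ 𝔪 := by
  refine Submodule.span_le.2 ?_
  intro x hx
  cases hx with
  | c z hz => exact h1 z hz
  | q z hz => exact h2 z hz
  | D x hx => exact h4 x (nn_of 𝔤 c q D A hx)
  | A x hx => exact h5 x (nn_of 𝔤 c q D A hx)
  | br x y hx hy => exact h3 x (nn_of 𝔤 c q D A hx) y (nn_of 𝔤 c q D A hy)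

theorem FR_mul {n : ℕ} {x y : Mat n} (hx : x ∈ FR n 1) (hy : y ∈ FR n 1) : x * y ∈ FR n 1 :=
  (matFiltR n).anti (by omega) ((matFiltR n).mul (toF hx) (toF hy))

theorem FR_br {n : ℕ} {x y : Mat n} (hx : x ∈ FR n 1) (hy : y ∈ FR n 1) :
    x * y - y * x ∈ FR n 1 := Submodule.sub_mem _ (FR_mul hx hy) (FR_mul hy hx)

theorem nn_FR (h1 : ∀ z ∈ 𝔤, c z ∈ FR n 1) (h2 : ∀ z ∈ 𝔤, q z ∈ FR n 1) (hD : D ∈ FR n 1)
    (hA : A ∈ FR n 1) : nn 𝔤 c q D A ≤ FR n 1 := by
  refine Submodule.span_le.2 ?_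
  intro x hx
  have hx' : Gen 𝔤 c q D A x := hx
  show x ∈ FR n 1
  clear hx
  induction hx' with
  | c z hz => exact h1 z hz
  | q z hz => exact h2 z hz
  | D x hx ih => exact FR_br hD ih
  | A x hx ih => exact FR_br hA ih
  | br x y hx hy ih1 ih2 => exact FR_br ih1 ih2

end lie

/-! ### The system -/

theorem eval_mem {G : PM N} (h : ∀ k, (matPolyEquiv G).coeff k ∈ 𝔤) (m : ℝ) :
    G.map (eval m) ∈ 𝔤 := by
  rw [← matPolyEquiv_eval_eq_map, eval_eq_sum_range]
  refine 𝔤.sum_mem fun k _ => ?_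
  have e : (matPolyEquiv G).coeff k * (Matrix.scalar (Fin N) m) ^ k =
      (m ^ k) • (matPolyEquiv G).coeff k := by
    rw [← map_pow, Matrix.scalar_apply, ← Matrix.smul_one_eq_diagonal, mul_smul_comm, mul_one]
  rw [e]
  exact 𝔤.smul_mem _ (h k)

theorem map_PC_one (z : Mat N) (m : ℝ) : (PC 1 z).map (eval m) = z := by
  ext r t
  rw [Matrix.map_apply, PC_apply, one_mul, eval_C]

theorem isMul_nn {n : ℕ} (mt : Module.End ℝ (W N I K L) ≃ₐ[ℝ] Mat n)
    (hg : ∀ x ∈ 𝔤, ∀ y ∈ 𝔤, x * y - y * x ∈ 𝔤) {M : Mat N} (hM : ∀ x ∈ 𝔤, M * x - x * M ∈ 𝔤)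
    {P : I → ℝ[X]} {c q : Mat N →ₗ[ℝ] Mat n} {D A : Mat n}
    (hc : ∀ z ∈ 𝔤, IsMul 𝔤 (mt.symm (c z))) (hq : ∀ z ∈ 𝔤, IsMul 𝔤 (mt.symm (q z)))
    (hD : ∀ (f : W N I K L) (i : I), (mt.symm D f).1 i = vD (P i) M (f.1 i))
    (hA : ∀ (f : W N I K L) (i : I), (mt.symm A f).1 i = (PC 1 M).mulVec (f.1 i)) :
    ∀ x ∈ nn 𝔤 c q D A, IsMul 𝔤 (mt.symm x) := by
  have h0 : ∀ x, Gen 𝔤 c q D A x → IsMul 𝔤 (mt.symm x) := by
    intro x hx
    induction hx with
    | c z hz => exact hc z hz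
    | q z hz => exact hq z hz
    | D x hx ih =>
      rw [map_sub, map_mul, map_mul]
      exact ih.brD hM hD
    | A x hx ih =>
      rw [map_sub, map_mul, map_mul]
      exact ih.brA hM hA
    | br x y hx hy ih1 ih2 =>
      rw [map_sub, map_mul, map_mul]
      exact ih1.br hg ih2
  intro x hx
  induction hx using Submodule.span_induction with
  | mem x h => exact h0 x h
  | zero => rw [map_zero]; exact IsMul.zero
  | add x y _ _ hx hy => rw [map_add]; exact hx.add hy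
  | smul a x _ hx => rw [map_smul]; exact hx.smul a

theorem mo_br (Q : I → ℝ[X]) (hQ : ∀ i, Q i ∈ degreeLT ℝ (K + 1))
    (h1 : ∀ _ : I, (1 : ℝ[X]) ∈ degreeLT ℝ (K + 1)) {x y : Mat N} (hx : x ∈ FR N 1)
    (hy : y ∈ FR N 1) :
    mo L (fun _ => 1) h1 x * mo L Q hQ y - mo L Q hQ y * mo L (fun _ => 1) h1 x =
      mo L Q hQ (x * y - y * x) := by
  refine LinearMap.ext fun f => Subtype.ext (funext fun i => ?_)
  show (mo L (fun _ => 1) h1 x (mo L Q hQ y f)).1 i - (mo L Q hQ y (mo L (fun _ => 1) h1 x f)).1 i =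
    (mo L Q hQ (x * y - y * x) f).1 i
  rw [mo_apply L _ _ hx, mo_apply L _ _ hy, mo_apply L _ _ hy, mo_apply L _ _ hx,
    mo_apply L _ _ (FR_br hx hy), Matrix.mulVec_mulVec, Matrix.mulVec_mulVec, PC_mul, PC_mul,
    one_mul, mul_one, ← Matrix.sub_mulVec, ← PC_sub]

theorem dm_PC_one (z : Mat N) : dm (PC 1 z) = 0 := by
  ext1 r t
  show derivative (PC 1 z r t) = 0
  rw [PC_apply, one_mul, derivative_C]

theorem use_HasE {n : ℕ} (mt : Module.End ℝ (W N I K L) ≃ₐ[ℝ] Mat n)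
    (hL : (K + 1) * N + 1 ≤ L) (hN : 0 < N) [Nonempty I] {x : Mat n} {s : ℤ}
    {g : I → ℤ → (Mat N)ˣ} (h : HasE (mt.symm (ex x : Mat n)) s g) :
    ∃ h : ex x ∈ GG mt, shH mt hL hN ⟨ex x, h⟩ = Multiplicative.ofAdd s ∧
      ∀ i m, EE mt ⟨ex x, h⟩ i m = g i m := by
  have hm : ex x ∈ GG mt := ⟨s, g, h⟩
  obtain ⟨h1, h2⟩ := GG_unique mt hL hN ⟨ex x, hm⟩ h
  refine ⟨hm, ?_, fun i m => by rw [h2]⟩
  rw [shH_apply, h1]

end Op

open Op in
theorem op : S_TRI → S_EXPD → S_OP := by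
  intro hT hE N hN 𝔤 M hg hM hgM I _ _ p
  set P : I → ℝ[X] := fun i => (p i).map (Int.castRingHom ℝ) with hP
  obtain ⟨K, hK⟩ : ∃ K : ℕ, ∀ i, derivative (P i) ∈ degreeLT ℝ (K + 1) := by
    refine ⟨univ.sup fun i => (P i).natDegree, fun i => ?_⟩
    rw [mem_degreeLT]
    refine lt_of_le_of_lt (degree_derivative_le.trans degree_le_natDegree) ?_
    have h1 : (P i).natDegree ≤ univ.sup fun i => (P i).natDegree :=
      Finset.le_sup (f := fun i => (P i).natDegree) (mem_univ i)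
    exact_mod_cast Nat.lt_succ_of_le h1
  have h1 : ∀ _ : I, (1 : ℝ[X]) ∈ degreeLT ℝ (K + 1) := by
    intro _
    rw [mem_degreeLT]
    refine lt_of_le_of_lt degree_one_le ?_
    exact_mod_cast Nat.succ_pos K
  obtain ⟨L, hL⟩ : ∃ L, (K + 1) * N + 1 ≤ L := ⟨_, le_rfl⟩
  obtain ⟨n, b, hb⟩ := tri_use hT (N := N) (I := I) K L
  set mt : Module.End ℝ (W N I K L) ≃ₐ[ℝ] Mat n := LinearMap.toMatrixAlgEquiv b with hmt
  set Do : Module.End ℝ (W N I K L) := rs (low_DD P hK hM) L with hDo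
  set cO := mo L (fun _ : I => (1 : ℝ[X])) h1 with hcO
  set qO := mo L (fun i : I => derivative (P i)) hK with hqO
  have hDo_app : ∀ (f : W N I K L) (i : I), (Do f).1 i = vD (P i) M (f.1 i) := fun f i => rfl
  set c : Mat N →ₗ[ℝ] Mat n := mt.toLinearMap ∘ₗ cO with hc
  set q : Mat N →ₗ[ℝ] Mat n := mt.toLinearMap ∘ₗ qO with hq
  have c_app : ∀ z, c z = mt (cO z) := fun z => rfl
  have q_app : ∀ z, q z = mt (qO z) := fun z => rfl
  have hD : mt Do ∈ FR n 1 := hb _ (lowV_rs _ L)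
  have hc1 : ∀ z, c z ∈ FR n 1 := fun z => hb _ (lowV_mo L _ h1 z)
  have hq1 : ∀ z, q z ∈ FR n 1 := fun z => hb _ (lowV_mo L _ hK z)
  have hA : mt (cO M) ∈ FR n 1 := hc1 M
  have nF := nn_FR 𝔤 c q (mt Do) (mt (cO M)) (fun z _ => hc1 z) (fun z _ => hq1 z) hD hA
  refine ⟨{
    n := n
    D := mt Do
    A := mt (cO M)
    𝔫 := nn 𝔤 c q (mt Do) (mt (cO M))
    c := c
    q := q
    hD := hD
    hA := hA
    comm := ?_
    lie := ⟨nF, nn_br 𝔤 c q _ _⟩
    D_mem := nn_ad 𝔤 c q _ _ fun x hx => nn_of 𝔤 c q _ _ (Gen.D x hx)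
    A_mem := nn_ad 𝔤 c q _ _ fun x hx => nn_of 𝔤 c q _ _ (Gen.A x hx)
    c_mem := fun z hz => nn_of 𝔤 c q _ _ (Gen.c z hz)
    q_mem := fun z hz => nn_of 𝔤 c q _ _ (Gen.q z hz)
    cc := ?_
    Ac := ?_
    cq := ?_
    Aq := ?_
    gen := fun 𝔪 a1 a2 a3 a4 a5 => nn_le 𝔤 c q _ _ a1 a2 a3 a4 a5
    G := GG mt
    sh := shH mt hL hN
    E := fun i m u => EE mt u i m
    E_cont := fun i m => EE_continuous mt hL i m
    E_mul := ?_
    ex_n := ?_
    ex_c := ?_
    ex_A := ?_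
    ex_D := ?_ }⟩
  · -- comm
    rw [← map_mul, ← map_mul]
    congr 1
    refine LinearMap.ext fun f => Subtype.ext (funext fun i => ?_)
    show (Do (cO M f)).1 i = (cO M (Do f)).1 i
    rw [hDo_app, hcO, mo_apply L _ _ hM, mo_apply L _ _ hM, hDo_app, vD_eq, vD_eq, deriv_mulVec,
      dm_PC_one, Matrix.zero_mulVec, zero_add, Matrix.mulVec_add, Matrix.mulVec_mulVec,
      Matrix.mulVec_mulVec, PC_mul, PC_mul, mul_one, one_mul]
  · -- cc
    intro x hx y hy
    rw [c_app, c_app, c_app, ← map_mul mt, ← map_mul mt, ← map_sub mt]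
    exact congrArg mt (mo_br _ h1 h1 (hg.le1 hx) (hg.le1 hy))
  · -- Ac
    intro x hx
    rw [c_app, c_app, ← map_mul mt, ← map_mul mt, ← map_sub mt]
    exact congrArg mt (mo_br _ h1 h1 hM (hg.le1 hx))
  · -- cq
    intro x hx y hy
    rw [c_app, q_app, q_app, ← map_mul, ← map_mul, ← map_sub, hcO, hqO,
      mo_br _ hK h1 (hg.le1 hx) (hg.le1 hy)]
  · -- Aq
    intro x hx
    rw [q_app, q_app, ← map_mul, ← map_mul, ← map_sub, hcO, hqO, mo_br _ hK h1 hM (hg.le1 hx)]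
  · -- E_mul
    intro i m u v
    have h2 := (GG_mul mt hL hN u v).2
    show EE mt (u * v) i m = EE mt u i m * EE mt v i (m + shf mt u)
    rw [h2]
  · -- ex_n
    intro x hx
    have hx1 : x ∈ FR n 1 := nF hx
    have hmul : IsMul 𝔤 (mt.symm x) := by
      refine isMul_nn mt hg.br hgM (P := P) (fun z hz => ?_) (fun z hz => ?_) (fun f i => ?_)
        (fun f i => ?_) x hx
      · rw [c_app, AlgEquiv.symm_apply_apply]
        exact isMul_mo _ h1 (hg.le1 hz) hz
      · rw [q_app, AlgEquiv.symm_apply_apply]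
        exact isMul_mo _ hK (hg.le1 hz) hz
      · rw [AlgEquiv.symm_apply_apply]
        exact hDo_app f i
      · rw [AlgEquiv.symm_apply_apply]
        exact mo_apply L _ h1 hM f i
    obtain ⟨G, hG1, hG2⟩ := hmul
    have h3 := hasE_mul mt hx1 G hG2 (fun i m => hg.le1 (eval_mem (hG1 i) m))
    obtain ⟨h4, h5, h6⟩ := use_HasE mt hL hN h3
    refine ⟨h4, ?_, fun i m => ⟨_, eval_mem (hG1 i) (m : ℝ), h6 i m⟩⟩
    rw [h5]
    rfl
  · -- ex_c
    intro z hz
    have hz1 : z ∈ FR N 1 := hg.le1 hz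
    have h3 := hasE_mul mt (hc1 z) (fun _ => PC 1 z) (fun f i => by
      rw [c_app, AlgEquiv.symm_apply_apply]
      exact mo_apply L _ h1 hz1 f i) (fun i m => by rw [map_PC_one]; exact hz1)
    obtain ⟨h4, h5, h6⟩ := use_HasE mt hL hN h3
    refine ⟨h4, by rw [h5]; rfl, fun i m => ?_⟩
    rw [h6, map_PC_one]
  · -- ex_A
    intro z hz
    have hz1 : M + z ∈ FR N 1 := Submodule.add_mem _ hM (hg.le1 hz)
    have e : mt (cO M) + c z = c (M + z) := by rw [map_add]; rfl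
    rw [e]
    have h3 := hasE_mul mt (hc1 (M + z)) (fun _ => PC 1 (M + z)) (fun f i => by
      rw [c_app, AlgEquiv.symm_apply_apply]
      exact mo_apply L _ h1 hz1 f i) (fun i m => by rw [map_PC_one]; exact hz1)
    obtain ⟨h4, h5, h6⟩ := use_HasE mt hL hN h3
    refine ⟨h4, by rw [h5]; rfl, fun i m => ?_⟩
    rw [h6, map_PC_one]
  · -- ex_D
    intro z hz
    have hz1 : M + z ∈ FR N 1 := Submodule.add_mem _ hM (hg.le1 hz)
    have hx1 : mt Do + q z ∈ FR n 1 := Submodule.add_mem _ hD (hq1 z)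
    have h3 := hasE_D mt hx1 hE P hz1 (fun f i => by
      rw [map_add, q_app, AlgEquiv.symm_apply_apply, AlgEquiv.symm_apply_apply]
      show (Do f).1 i + (qO z f).1 i = _
      rw [hDo_app, hqO, mo_apply L _ _ (hg.le1 hz), vD_eq, vD_eq, PC_add, Matrix.add_mulVec,
        add_assoc])
    obtain ⟨h4, h5, h6⟩ := use_HasE mt hL hN h3
    refine ⟨h4, h5, fun i m => ?_⟩
    rw [h6]
    congr 1
    have e1 : (P i).eval (m : ℝ) = (((p i).eval m : ℤ) : ℝ) := by
      show ((p i).map (Int.castRingHom ℝ)).eval (m : ℝ) = _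
      rw [eval_intCast_map]
      rfl
    have e2 : (P i).eval ((m : ℝ) + 1) = (((p i).eval (m + 1) : ℤ) : ℝ) := by
      have := eval_intCast_map (Int.castRingHom ℝ) (p i) (m + 1)
      push_cast at this
      simpa using this
    rw [e1, e2, ← Int.cast_sub, Int.cast_smul_eq_zsmul]

end Pool.Agent.N305.PR
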