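import Pool.Agent.N305.PR.Stm
import Pool.Agent.Helper472.Lat_Chars

/-!
# P1: a Parry type criterion of minimality (helper814, for the project PR of helper305)
-/

set_option autoImplicit false

namespace Pool.Agent.N305.PR.Parry

open Topology Filter Pointwise

variable {H : Type} [Group H] [TopologicalSpace H] [IsTopologicalGroup H]

/-- left invariant under `S`, right invariant under `A` -/
def Inv (S A : Subgroup H) (C : Set H) : Prop :=
  (∀ s ∈ S, ∀ h ∈ C, s * h ∈ C) ∧ ∀ a ∈ A, ∀ h ∈ C, h * a ∈ C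

/-- `S` acts minimally on `H / A` -/
def Mi (S A : Subgroup H) : Prop := ∀ C : Set H, IsClosed C → C.Nonempty → Inv S A C → C = Set.univ

omit [TopologicalSpace H] [IsTopologicalGroup H] in
lemma sat {A : Subgroup H} {C : Set H} (h : ∀ a ∈ A, ∀ h ∈ C, h * a ∈ C) :
    C * (A : Set H) = C := by
  ext x
  rw [Set.mem_mul]
  constructor
  · rintro ⟨y, hy, a, ha, rfl⟩
    exact h a ha y hy
  · intro hx
    exact ⟨x, hx, 1, A.one_mem, mul_one x⟩

lemma pre_image {A : Subgroup H} {C : Set H} (h : ∀ a ∈ A, ∀ h ∈ C, h * a ∈ C) :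
    (QuotientGroup.mk : H → H ⧸ A) ⁻¹' (QuotientGroup.mk '' C) = C := by
  rw [QuotientGroup.preimage_image_mk_eq_mul, sat h]

lemma closed_image {A : Subgroup H} {C : Set H} (hC : IsClosed C)
    (h : ∀ a ∈ A, ∀ h ∈ C, h * a ∈ C) :
    IsClosed ((QuotientGroup.mk : H → H ⧸ A) '' C) := by
  rw [← (QuotientGroup.isQuotientMap_mk A).isClosed_preimage, pre_image h]
  exact hC

/-- minimal closed invariant sets -/
lemma exists_min {S A Λ : Subgroup H} (hΛ : Λ ≤ A) [CompactSpace (H ⧸ Λ)] (C : Set H)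
    (hC : IsClosed C) (hne : C.Nonempty) (hinv : Inv S A C) :
    ∃ M : Set H, M ⊆ C ∧ IsClosed M ∧ M.Nonempty ∧ Inv S A M ∧
      ∀ M' : Set H, M' ⊆ M → IsClosed M' → M'.Nonempty → Inv S A M' → M' = M := by
  have hz : ∀ c ⊆ {C : Set H | IsClosed C ∧ C.Nonempty ∧ Inv S A C}, IsChain (· ⊆ ·) c →
      c.Nonempty → ∃ lb ∈ {C : Set H | IsClosed C ∧ C.Nonempty ∧ Inv S A C}, ∀ s ∈ c, lb ⊆ s := by
    intro c hc hchain hcne
    refine ⟨⋂₀ c, ⟨?_, ?_, ?_, ?_⟩, fun s hs => Set.sInter_subset_of_mem hs⟩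
    · exact isClosed_sInter fun t ht => (hc ht).1
    · have hinvΛ : ∀ t ∈ c, ∀ a ∈ Λ, ∀ h ∈ t, h * a ∈ t := fun t ht a ha h hh =>
        (hc ht).2.2.2 a (hΛ ha) h hh
      haveI : Nonempty ((fun t : Set H => (QuotientGroup.mk : H → H ⧸ Λ) '' t) '' c) := by
        obtain ⟨t, ht⟩ := hcne
        exact ⟨⟨_, t, ht, rfl⟩⟩
      have h1 := IsCompact.nonempty_sInter_of_directed_nonempty_isCompact_isClosed
        (S := (fun t : Set H => (QuotientGroup.mk : H → H ⧸ Λ) '' t) '' c) ?_ ?_ ?_ ?_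
      · obtain ⟨x, hx⟩ := h1
        obtain ⟨h, rfl⟩ := QuotientGroup.mk_surjective x
        refine ⟨h, ?_⟩
        rw [Set.mem_sInter]
        intro t ht
        have h2 : (QuotientGroup.mk h : H ⧸ Λ) ∈ (QuotientGroup.mk : H → H ⧸ Λ) '' t :=
          Set.mem_sInter.mp hx _ ⟨t, ht, rfl⟩
        have h3 : h ∈ (QuotientGroup.mk : H → H ⧸ Λ) ⁻¹' (QuotientGroup.mk '' t) := h2
        rwa [pre_image (hinvΛ t ht)] at h3
      · rintro _ ⟨t, ht, rfl⟩ _ ⟨t', ht', rfl⟩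
        rcases hchain.total ht ht' with h | h
        · exact ⟨_, ⟨t, ht, rfl⟩, subset_rfl, Set.image_mono h⟩
        · exact ⟨_, ⟨t', ht', rfl⟩, Set.image_mono h, subset_rfl⟩
      · rintro _ ⟨t, ht, rfl⟩
        exact (hc ht).2.1.image _
      · rintro _ ⟨t, ht, rfl⟩
        exact (closed_image (hc ht).1 (hinvΛ t ht)).isCompact
      · rintro _ ⟨t, ht, rfl⟩
        exact closed_image (hc ht).1 (hinvΛ t ht)
    · intro s hs h hh
      rw [Set.mem_sInter] at hh ⊢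
      exact fun t ht => (hc ht).2.2.1 s hs h (hh t ht)
    · intro a ha h hh
      rw [Set.mem_sInter] at hh ⊢
      exact fun t ht => (hc ht).2.2.2 a ha h (hh t ht)
  obtain ⟨M, hM1, hM2⟩ := zorn_superset_nonempty _ hz C ⟨hC, hne, hinv⟩
  refine ⟨M, hM1, hM2.prop.1, hM2.prop.2.1, hM2.prop.2.2, ?_⟩
  intro M' h1 h2 h3 h4
  exact h1.antisymm (hM2.le_of_le ⟨h2, h3, h4⟩ h1)

/-- quotients of closed subgroups are compact -/
lemma compact_quot {Λ K A : Subgroup H} (hΛK : Λ ≤ K) (hKA : K ≤ A) (hA : IsClosed (A : Set H))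
    [CompactSpace (H ⧸ Λ)] : CompactSpace (A ⧸ K.subgroupOf A) := by
  haveI h1 : CompactSpace (H ⧸ K) := by
    refine Function.Surjective.compactSpace
      (f := Quotient.map' (s₁ := QuotientGroup.leftRel Λ) (s₂ := QuotientGroup.leftRel K) id ?_)
      ?_ ?_
    · intro a b hab
      rw [QuotientGroup.leftRel_apply] at hab ⊢
      exact hΛK hab
    · exact continuous_id.quotient_map' _
    · intro x
      obtain ⟨h, rfl⟩ := QuotientGroup.mk_surjective x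
      exact ⟨QuotientGroup.mk h, rfl⟩
  set j : A ⧸ K.subgroupOf A → H ⧸ K :=
    Quotient.map' (s₁ := QuotientGroup.leftRel (K.subgroupOf A)) (s₂ := QuotientGroup.leftRel K)
      (fun a : A => (a : H)) (by
        intro a b hab
        rw [QuotientGroup.leftRel_apply] at hab ⊢
        exact hab) with hj
  have hjmk : ∀ a : A, j (QuotientGroup.mk a) = QuotientGroup.mk (a : H) := fun a => rfl
  have hcont : Continuous j := continuous_subtype_val.quotient_map' _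
  have hinj : Function.Injective j := by
    intro x y hxy
    obtain ⟨a, rfl⟩ := QuotientGroup.mk_surjective x
    obtain ⟨b, rfl⟩ := QuotientGroup.mk_surjective y
    rw [hjmk, hjmk, QuotientGroup.eq] at hxy
    rw [QuotientGroup.eq]
    exact hxy
  have hcl : IsClosedMap j := by
    intro C hC
    have h2 : j '' C = (QuotientGroup.mk : H → H ⧸ K) ''
        ((fun a : A => (a : H)) '' ((QuotientGroup.mk : A → A ⧸ K.subgroupOf A) ⁻¹' C)) := by
      ext x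
      constructor
      · rintro ⟨y, hy, rfl⟩
        obtain ⟨a, rfl⟩ := QuotientGroup.mk_surjective y
        exact ⟨a, ⟨a, hy, rfl⟩, rfl⟩
      · rintro ⟨_, ⟨a, ha, rfl⟩, rfl⟩
        exact ⟨QuotientGroup.mk a, ha, rfl⟩
    rw [h2]
    refine closed_image ?_ ?_
    · exact hA.isClosedEmbedding_subtypeVal.isClosedMap _
        (hC.preimage QuotientGroup.continuous_mk)
    · rintro k hk _ ⟨a, ha, rfl⟩
      refine ⟨a * ⟨k, hKA hk⟩, ?_, rfl⟩
      have h3 : (QuotientGroup.mk (a * ⟨k, hKA hk⟩) : A ⧸ K.subgroupOf A) = QuotientGroup.mk a := by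
        rw [eq_comm, QuotientGroup.eq, ← mul_assoc, inv_mul_cancel, one_mul]
        exact hk
      show (QuotientGroup.mk (a * ⟨k, hKA hk⟩) : A ⧸ K.subgroupOf A) ∈ C
      rw [h3]
      exact ha
  exact (IsClosedEmbedding.of_continuous_injective_isClosedMap hcont hinj hcl).compactSpace

/-- a point of the circle all whose rotations are near `1` -/
lemma circle_lemma (c w : Circle) (h : ∀ n : ℕ, ‖((c ^ n * w : Circle) : ℂ) - 1‖ < 1) : c = 1 := by
  by_contra hc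
  have hc1 : (c : ℂ) - 1 ≠ 0 := by
    intro h0
    apply hc
    apply Subtype.ext
    show (c : ℂ) = ((1 : Circle) : ℂ)
    rw [Circle.coe_one]
    exact sub_eq_zero.mp h0
  have hpos : 0 < ‖(c : ℂ) - 1‖ := norm_pos_iff.mpr hc1
  have hre : ∀ n : ℕ, (1 : ℝ) / 2 ≤ ((c ^ n * w : Circle) : ℂ).re := by
    intro n
    have h1 := h n
    have h2 : ‖((c ^ n * w : Circle) : ℂ)‖ = 1 := Circle.norm_coe _
    set z : ℂ := ((c ^ n * w : Circle) : ℂ) with hz
    have h3 : ‖z - 1‖ ^ 2 < 1 := by nlinarith [norm_nonneg (z - 1)]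
    have h4 : ‖z‖ ^ 2 = 1 := by rw [h2]; norm_num
    rw [← Complex.normSq_eq_norm_sq, Complex.normSq_apply] at h3 h4
    rw [Complex.sub_re, Complex.sub_im, Complex.one_re, Complex.one_im] at h3
    nlinarith
  obtain ⟨N, hN⟩ := exists_nat_gt (4 / ‖(c : ℂ) - 1‖)
  have h1 : (∑ n ∈ Finset.range N, ((c ^ n * w : Circle) : ℂ)) * ((c : ℂ) - 1) =
      ((c : ℂ) ^ N - 1) * w := by
    have h2 : ∀ n ∈ Finset.range N, ((c ^ n * w : Circle) : ℂ) = (c : ℂ) ^ n * w := by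
      intro n _
      rw [Circle.coe_mul, Circle.coe_pow]
    rw [Finset.sum_congr rfl h2, ← Finset.sum_mul]
    have h3 := geom_sum_mul (c : ℂ) N
    rw [← h3]
    ring
  have h2 : ‖∑ n ∈ Finset.range N, ((c ^ n * w : Circle) : ℂ)‖ * ‖(c : ℂ) - 1‖ ≤ 2 := by
    rw [← norm_mul, h1, norm_mul, Circle.norm_coe, mul_one]
    refine (norm_sub_le _ _).trans ?_
    rw [norm_pow, Circle.norm_coe, one_pow, norm_one]
    norm_num
  have h3 : (N : ℝ) / 2 ≤ ‖∑ n ∈ Finset.range N, ((c ^ n * w : Circle) : ℂ)‖ := by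
    refine le_trans ?_ (Complex.re_le_norm _)
    rw [Complex.re_sum]
    calc (N : ℝ) / 2 = ∑ n ∈ Finset.range N, (1 : ℝ) / 2 := by
          rw [Finset.sum_const, Finset.card_range, nsmul_eq_mul]
          ring
      _ ≤ _ := Finset.sum_le_sum fun n _ => hre n
  rw [div_lt_iff₀ hpos] at hN
  nlinarith

/-- the stabilizer of `M` in `Ap` -/
def Kst (Ap : Subgroup H) (M : Set H) : Subgroup H where
  carrier := {v | v ∈ Ap ∧ ∀ h ∈ M, h * v ∈ M ∧ h * v⁻¹ ∈ M}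
  mul_mem' := by
    rintro v w ⟨hv1, hv2⟩ ⟨hw1, hw2⟩
    refine ⟨Ap.mul_mem hv1 hw1, fun h hh => ⟨?_, ?_⟩⟩
    · rw [← mul_assoc]
      exact (hw2 _ (hv2 h hh).1).1
    · rw [mul_inv_rev, ← mul_assoc]
      exact (hv2 _ (hw2 h hh).2).2
  one_mem' := ⟨Ap.one_mem, fun h hh => by simpa using hh⟩
  inv_mem' := by
    rintro v ⟨hv1, hv2⟩
    refine ⟨Ap.inv_mem hv1, fun h hh => ⟨(hv2 h hh).2, ?_⟩⟩
    rw [inv_inv]
    exact (hv2 h hh).1

lemma Kst_closed {Ap : Subgroup H} (hAp : IsClosed (Ap : Set H)) {M : Set H} (hM : IsClosed M) :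
    IsClosed (Kst Ap M : Set H) := by
  have h1 : (Kst Ap M : Set H) = (Ap : Set H) ∩ ⋂ h ∈ M, ({v | h * v ∈ M} ∩ {v | h * v⁻¹ ∈ M}) := by
    ext v
    simp only [Set.mem_inter_iff, Set.mem_iInter, Set.mem_setOf_eq]
    rfl
  rw [h1]
  refine hAp.inter (isClosed_biInter fun h _ => ?_)
  exact (hM.preimage (continuous_const.mul continuous_id)).inter
    (hM.preimage (continuous_const.mul continuous_inv))

/-- the map to the fibre group -/
lemma exists_phi {S Ap K : Subgroup H} {M : Set H} (hM : IsClosed M) (hne : M.Nonempty)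
    (hS : ∀ s ∈ S, ∀ h ∈ M, s * h ∈ M) [(K.subgroupOf Ap).Normal]
    [CompactSpace (Ap ⧸ K.subgroupOf Ap)] [T2Space (Ap ⧸ K.subgroupOf Ap)]
    (hMK : ∀ k ∈ K, ∀ h ∈ M, h * k ∈ M) (key : ∀ v ∈ Ap, ∀ h ∈ M, h * v ∈ M → v ∈ K)
    (hmin : Mi S Ap) :
    ∃ φ : H → Ap ⧸ K.subgroupOf Ap, Continuous φ ∧
      ∀ (h : H) (v : Ap), φ h = QuotientGroup.mk v ↔ h * (v : H)⁻¹ ∈ M := by
  -- change of representatives
  have hrep : ∀ (h : H) (v w : Ap), (QuotientGroup.mk v : Ap ⧸ K.subgroupOf Ap) =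
      QuotientGroup.mk w → h * (v : H)⁻¹ ∈ M → h * (w : H)⁻¹ ∈ M := by
    intro h v w hvw hh
    have h1 : v * w⁻¹ ∈ K.subgroupOf Ap := by
      rw [← QuotientGroup.eq_one_iff, QuotientGroup.mk_mul, QuotientGroup.mk_inv, hvw,
        mul_inv_cancel]
    have h2 := hMK _ (Subgroup.mem_subgroupOf.mp h1) _ hh
    rw [Subgroup.coe_mul, Subgroup.coe_inv, mul_assoc, inv_mul_cancel_left] at h2
    exact h2
  set G : Set (H × (Ap ⧸ K.subgroupOf Ap)) :=
    {p | ∃ v : Ap, QuotientGroup.mk v = p.2 ∧ p.1 * (v : H)⁻¹ ∈ M} with hG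
  have hGmem : ∀ (h : H) (v : Ap), (h, (QuotientGroup.mk v : Ap ⧸ K.subgroupOf Ap)) ∈ G ↔
      h * (v : H)⁻¹ ∈ M := by
    intro h v
    constructor
    · rintro ⟨w, hw1, hw2⟩
      exact hrep h w v hw1 hw2
    · intro hh
      exact ⟨v, rfl, hh⟩
  have hGcl : IsClosed G := by
    have h1 := (IsOpenQuotientMap.id (X := H)).prodMap
      (QuotientGroup.isOpenQuotientMap_mk (N := K.subgroupOf Ap))
    rw [← h1.isQuotientMap.isClosed_preimage]
    have h2 : Prod.map id (QuotientGroup.mk : Ap → Ap ⧸ K.subgroupOf Ap) ⁻¹' G =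
        {p : H × Ap | p.1 * (p.2 : H)⁻¹ ∈ M} := by
      ext ⟨h, v⟩
      exact hGmem h v
    rw [h2]
    exact hM.preimage (continuous_fst.mul (continuous_subtype_val.comp continuous_snd).inv)
  -- totality
  have htot : ∀ h : H, ∃ v : Ap, h * (v : H)⁻¹ ∈ M := by
    have h1 : IsClosed (Prod.fst '' G) := isClosedMap_fst_of_compactSpace _ hGcl
    have h2 : Prod.fst '' G = {h : H | ∃ v : Ap, h * (v : H)⁻¹ ∈ M} := by
      ext h
      constructor
      · rintro ⟨⟨h', q⟩, ⟨v, _, hv⟩, rfl⟩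
        exact ⟨v, hv⟩
      · rintro ⟨v, hv⟩
        exact ⟨(h, QuotientGroup.mk v), ⟨v, rfl, hv⟩, rfl⟩
    rw [h2] at h1
    have h3 := hmin _ h1 ?_ ⟨?_, ?_⟩
    · intro h
      have h4 : h ∈ {h : H | ∃ v : Ap, h * (v : H)⁻¹ ∈ M} := by
        rw [h3]
        exact Set.mem_univ _
      exact h4
    · obtain ⟨m, hm⟩ := hne
      exact ⟨m, 1, by simpa using hm⟩
    · rintro s hs h ⟨v, hv⟩
      refine ⟨v, ?_⟩
      rw [mul_assoc]
      exact hS s hs _ hv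
    · rintro a ha h ⟨v, hv⟩
      refine ⟨v * ⟨a, ha⟩, ?_⟩
      rw [Subgroup.coe_mul, mul_inv_rev, mul_assoc, ← mul_assoc a, mul_inv_cancel, one_mul]
      exact hv
  choose vv hvv using htot
  have huniq : ∀ (h : H) (v w : Ap), h * (v : H)⁻¹ ∈ M → h * (w : H)⁻¹ ∈ M →
      (QuotientGroup.mk v : Ap ⧸ K.subgroupOf Ap) = QuotientGroup.mk w := by
    intro h v w hv hw
    have h1 : (v * w⁻¹ : Ap) ∈ K.subgroupOf Ap := by
      rw [Subgroup.mem_subgroupOf]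
      refine key _ (v * w⁻¹).2 _ hv ?_
      rw [Subgroup.coe_mul, Subgroup.coe_inv, mul_assoc, inv_mul_cancel_left]
      exact hw
    rw [← QuotientGroup.eq_one_iff, QuotientGroup.mk_mul, QuotientGroup.mk_inv,
      mul_inv_eq_one] at h1
    exact h1
  have hφ : ∀ (h : H) (v : Ap), (QuotientGroup.mk (vv h) : Ap ⧸ K.subgroupOf Ap) =
      QuotientGroup.mk v ↔ h * (v : H)⁻¹ ∈ M :=
    fun h v => ⟨fun hv => hrep h _ _ hv (hvv h), fun hv => huniq h _ _ (hvv h) hv⟩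
  refine ⟨fun h => QuotientGroup.mk (vv h), ?_, hφ⟩
  rw [continuous_iff_isClosed]
  intro C hC
  have h1 : (fun h : H => (QuotientGroup.mk (vv h) : Ap ⧸ K.subgroupOf Ap)) ⁻¹' C =
      Prod.fst '' (G ∩ (Prod.snd ⁻¹' C)) := by
    ext h
    constructor
    · intro hh
      exact ⟨(h, QuotientGroup.mk (vv h)), ⟨⟨vv h, rfl, hvv h⟩, hh⟩, rfl⟩
    · rintro ⟨⟨h', q⟩, ⟨⟨v, hv1, hv2⟩, hq⟩, rfl⟩
      show (QuotientGroup.mk (vv h') : Ap ⧸ K.subgroupOf Ap) ∈ C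
      rw [(hφ h' v).mpr hv2, hv1]
      exact hq
  rw [h1]
  exact isClosedMap_fst_of_compactSpace _ (hGcl.inter (hC.preimage continuous_snd))

/-- the part of the argument with the function `f` -/
lemma core {Λ Ap S Z N0 : Subgroup H} [CompactSpace (H ⧸ Λ)] (hΛ : Λ ≤ Ap) (hmin : Mi S Ap)
    (r : ℕ) (F : ℕ → Subgroup H) (hF0 : F 0 = ⊤) (hanti : Antitone F) (hFr : F r = ⊥)
    (hcomm : ∀ i, ∀ h : H, ∀ x ∈ F i, h * x * h⁻¹ * x⁻¹ ∈ F (i + 1))
    (hpow : ∀ i, 1 ≤ i → ∀ x ∈ F i, ∀ W ∈ 𝓝 (1 : H), ∃ y ∈ F i, y ∈ W ∧ ∃ m : ℕ, y ^ m = x)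
    (hSZ : ∀ s ∈ S, ∀ z ∈ Z, s * z = z * s)
    (hpow0 : ∀ x ∈ N0, ∀ W ∈ 𝓝 (1 : H), ∃ y ∈ N0, y ∈ W ∧ ∃ m : ℕ, y ^ m = x)
    (htop : N0 ⊔ Z = ⊤)
    (hchar : ∀ c : H →* Circle, Continuous c → (∀ s ∈ S, c s = 1) → (∀ l ∈ Λ, c l = 1) →
      ∀ h, c h = 1)
    (f : H → Circle) (χ : H → Circle) (hf : Continuous f) (hfS : ∀ s ∈ S, ∀ h, f (s * h) = f h)
    (hfA : ∀ a ∈ Ap, ∀ h, f (h * a) = f h * χ a) (hχΛ : ∀ l ∈ Λ, χ l = 1) :
    ∀ v ∈ Ap, χ v = 1 := by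
  obtain ⟨ψ, hψ⟩ : ∃ ψ : H → H → Circle, ∀ h y, ψ h y = f (h * y) * (f y)⁻¹ :=
    ⟨_, fun _ _ => rfl⟩
  obtain ⟨c, hc⟩ : ∃ c : H → Circle, ∀ h, c h = f h * (f 1)⁻¹ := ⟨_, fun _ => rfl⟩
  have hψA : ∀ a ∈ Ap, ∀ h y, ψ h (y * a) = ψ h y := by
    intro a ha h y
    rw [hψ, hψ, ← mul_assoc, hfA a ha, hfA a ha, mul_inv_rev]
    calc f (h * y) * χ a * ((χ a)⁻¹ * (f y)⁻¹) = f (h * y) * (χ a * (χ a)⁻¹) * (f y)⁻¹ := by
          simp only [mul_assoc]
      _ = f (h * y) * (f y)⁻¹ := by rw [mul_inv_cancel, mul_one]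
  have hψcont : Continuous fun p : H × H => ψ p.1 p.2 := by
    simp only [hψ]
    exact (hf.comp continuous_mul).mul (hf.comp continuous_snd).inv
  have hc1 : c 1 = 1 := by rw [hc, mul_inv_cancel]
  -- the subgroup `L`
  let L : Subgroup H :=
    { carrier := {h | ∀ y, f (h * y) = c h * f y}
      mul_mem' := by
        intro g h hg hh y
        have h1 : c (g * h) = c g * c h := by
          rw [hc (g * h), hg h, mul_assoc, ← hc h]
        rw [mul_assoc g h y, hg (h * y), hh y, h1, mul_assoc]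
      one_mem' := by
        intro y
        rw [one_mul, hc1, one_mul]
      inv_mem' := by
        intro h hh y
        have h1 : f y = c h * f (h⁻¹ * y) := by
          rw [← hh (h⁻¹ * y), mul_inv_cancel_left]
        have h2 : c h⁻¹ = (c h)⁻¹ := by
          have h3 : f 1 = c h * f h⁻¹ := by rw [← hh h⁻¹, mul_inv_cancel]
          rw [hc h⁻¹, h3, mul_inv_rev, ← mul_assoc, mul_inv_cancel, one_mul]
        rw [h2, h1, inv_mul_cancel_left] }
  have hL : ∀ h, h ∈ L ↔ ∀ y, f (h * y) = c h * f y := fun h => Iff.rfl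
  have hcmul : ∀ g ∈ L, ∀ h, c (g * h) = c g * c h := by
    intro g hg h
    rw [hc (g * h), (hL g).mp hg h, mul_assoc, ← hc h]
  -- invariant functions
  have hinv : ∀ h, (∀ s ∈ S, ∀ y, ψ h (s * y) = ψ h y) → h ∈ L := by
    intro h hs
    have h1 := hmin {y | ψ h y = ψ h 1} ?_ ⟨1, rfl⟩ ⟨?_, ?_⟩
    · rw [hL]
      intro y
      have h2 : y ∈ {y | ψ h y = ψ h 1} := by
        rw [h1]
        exact Set.mem_univ _
      have h3 : ψ h y = ψ h 1 := h2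
      rw [hψ, hψ, mul_one, ← hc h, mul_inv_eq_iff_eq_mul] at h3
      exact h3
    · exact isClosed_eq (hψcont.comp (continuous_const.prodMk continuous_id)) continuous_const
    · intro s hs' y hy
      show ψ h (s * y) = ψ h 1
      rw [hs s hs']
      exact hy
    · intro a ha y hy
      show ψ h (y * a) = ψ h 1
      rw [hψA a ha]
      exact hy
  -- small elements
  have hsmall : ∀ᶠ h in 𝓝 (1 : H), ∀ y, ‖((ψ h y : Circle) : ℂ) - 1‖ < 1 := by
    set O : Set (H × H) := {p | ‖((ψ p.1 p.2 : Circle) : ℂ) - 1‖ < 1} with hO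
    have hcoe : Continuous fun z : Circle => (z : ℂ) := continuous_subtype_val
    have hOo : IsOpen O :=
      isOpen_lt ((hcoe.comp hψcont).sub continuous_const).norm continuous_const
    have hq := (IsOpenQuotientMap.id (X := H)).prodMap
      (QuotientGroup.isOpenQuotientMap_mk (N := Λ))
    have hO' : IsOpen (Prod.map id (QuotientGroup.mk : H → H ⧸ Λ) '' O) := hq.isOpenMap _ hOo
    have h1 := (isCompact_univ (X := H ⧸ Λ)).eventually_forall_of_forall_eventually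
      (x₀ := (1 : H)) (P := fun h x => (h, x) ∈ Prod.map id (QuotientGroup.mk : H → H ⧸ Λ) '' O)
      (by
        intro x _
        obtain ⟨y, rfl⟩ := QuotientGroup.mk_surjective x
        refine hO'.mem_nhds ⟨(1, y), ?_, rfl⟩
        show ‖((ψ 1 y : Circle) : ℂ) - 1‖ < 1
        rw [hψ, one_mul, mul_inv_cancel]
        simp)
    refine h1.mono fun h hh y => ?_
    obtain ⟨⟨h', y'⟩, hp, he⟩ := hh (QuotientGroup.mk y) (Set.mem_univ _)
    have he1 : h' = h := congrArg Prod.fst he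
    have he2 : (QuotientGroup.mk y' : H ⧸ Λ) = QuotientGroup.mk y := congrArg Prod.snd he
    rw [QuotientGroup.eq] at he2
    subst he1
    have h2 := hψA _ (hΛ he2) h' y'
    rw [mul_inv_cancel_left] at h2
    rw [h2]
    exact hp
  have hsm : ∀ h, (∀ y, ‖((ψ h y : Circle) : ℂ) - 1‖ < 1) → (∀ s ∈ S, s⁻¹ * h * s * h⁻¹ ∈ L) →
      h ∈ L := by
    intro h hh hs
    apply hinv
    intro s hs'
    obtain ⟨c₀, hc₀⟩ : ∃ c₀ : Circle, c₀ = c (s⁻¹ * h * s * h⁻¹) := ⟨_, rfl⟩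
    have h1 : ∀ y, ψ h (s * y) = c₀ * ψ h y := by
      intro y
      have h2 : f (s⁻¹ * h * s * h⁻¹ * (h * y)) = c₀ * f (h * y) := by
        rw [hc₀]
        exact (hL _).mp (hs s hs') (h * y)
      have h3 : s⁻¹ * h * s * h⁻¹ * (h * y) = s⁻¹ * (h * (s * y)) := by group
      rw [h3, hfS s⁻¹ (S.inv_mem hs')] at h2
      rw [hψ, hψ, hfS s hs', h2, mul_assoc]
    have h2 : ∀ n : ℕ, ψ h (s ^ n * 1) = c₀ ^ n * ψ h 1 := by
      intro n
      induction n with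
      | zero => simp
      | succ n ih => rw [pow_succ' s, mul_assoc s, h1, ih, pow_succ' c₀, mul_assoc c₀]
    have h3 : c₀ = 1 := circle_lemma c₀ (ψ h 1) fun n => by
      rw [← h2]
      exact hh _
    intro y
    rw [h1, h3, one_mul]
  have hFL : ∀ k j : ℕ, 1 ≤ j → j + k = r → F j ≤ L := by
    intro k
    induction k with
    | zero =>
      intro j _ hj
      rw [add_zero] at hj
      rw [hj, hFr]
      exact bot_le
    | succ k ih =>
      intro j hj1 hj x hx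
      obtain ⟨y, hy1, hy2, m, rfl⟩ := hpow j hj1 x hx _ hsmall
      refine L.pow_mem (hsm y hy2 fun s _ => ?_) m
      refine ih (j + 1) (by omega) (by omega) ?_
      have h1 := hcomm j s⁻¹ y hy1
      rwa [inv_inv] at h1
  have hF1 : F 1 ≤ L := by
    rcases Nat.eq_zero_or_pos r with hr | hr
    · refine (hanti (by omega : 0 ≤ 1)).trans ?_
      rw [← hr, hFr]
      exact bot_le
    · exact hFL (r - 1) 1 le_rfl (by omega)
  have hN0 : N0 ≤ L := by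
    intro x hx
    obtain ⟨y, hy1, hy2, m, rfl⟩ := hpow0 x hx _ hsmall
    refine L.pow_mem (hsm y hy2 fun s _ => ?_) m
    apply hF1
    have h1 := hcomm 0 s⁻¹ y (by rw [hF0]; exact Subgroup.mem_top _)
    rwa [inv_inv, zero_add] at h1
  have hZ : Z ≤ L := by
    intro z hz
    apply hinv
    intro s hs y
    have h1 : z * (s * y) = s * (z * y) := by
      rw [← mul_assoc, ← hSZ s hs z hz, mul_assoc]
    rw [hψ, hψ, h1, hfS s hs, hfS s hs]
  have hLtop : ∀ h, h ∈ L := by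
    intro h
    have h1 : N0 ⊔ Z ≤ L := sup_le hN0 hZ
    rw [htop] at h1
    exact h1 (Subgroup.mem_top h)
  -- the character
  let cc : H →* Circle :=
    { toFun := c
      map_one' := hc1
      map_mul' := fun g h => hcmul g (hLtop g) h }
  have hccont : Continuous c := by
    have h1 : c = fun h => f h * (f 1)⁻¹ := funext hc
    rw [h1]
    exact hf.mul continuous_const
  have hcc : ∀ h, c h = 1 := hchar cc hccont (by
      intro s hs
      show c s = 1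
      have h1 := hfS s hs 1
      rw [mul_one] at h1
      rw [hc, h1, mul_inv_cancel]) (by
      intro l hl
      show c l = 1
      have h1 := hfA l (hΛ hl) 1
      rw [one_mul, hχΛ l hl, mul_one] at h1
      rw [hc, h1, mul_inv_cancel])
  intro v hv
  have h1 := hcc v
  have h2 := hfA v hv 1
  rw [one_mul] at h2
  rw [hc, h2, mul_inv_eq_one] at h1
  exact mul_eq_left.mp h1

/-- one step of the induction -/
lemma step {Λ Am Ap S Z N0 : Subgroup H} [CompactSpace (H ⧸ Λ)] (hΛ : Λ ≤ Am) (hle : Am ≤ Ap)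
    (hAp : IsClosed (Ap : Set H))
    (hnorm : ∀ u ∈ Ap, ∀ a ∈ Am, u * a * u⁻¹ ∈ Am)
    (hcom : ∀ u ∈ Ap, ∀ v ∈ Ap, u * v * u⁻¹ * v⁻¹ ∈ Am) (hmin : Mi S Ap)
    (r : ℕ) (F : ℕ → Subgroup H) (hF0 : F 0 = ⊤) (hanti : Antitone F) (hFr : F r = ⊥)
    (hcomm : ∀ i, ∀ h : H, ∀ x ∈ F i, h * x * h⁻¹ * x⁻¹ ∈ F (i + 1))
    (hpow : ∀ i, 1 ≤ i → ∀ x ∈ F i, ∀ W ∈ 𝓝 (1 : H), ∃ y ∈ F i, y ∈ W ∧ ∃ m : ℕ, y ^ m = x)
    (hSZ : ∀ s ∈ S, ∀ z ∈ Z, s * z = z * s)
    (hpow0 : ∀ x ∈ N0, ∀ W ∈ 𝓝 (1 : H), ∃ y ∈ N0, y ∈ W ∧ ∃ m : ℕ, y ^ m = x)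
    (htop : N0 ⊔ Z = ⊤)
    (hchar : ∀ c : H →* Circle, Continuous c → (∀ s ∈ S, c s = 1) → (∀ l ∈ Λ, c l = 1) →
      ∀ h, c h = 1) : Mi S Am := by
  intro C hC hne hinv
  obtain ⟨M, hMC, hM, hMne, hMinv, hMmin⟩ := exists_min hΛ C hC hne hinv
  have hP : ∀ v ∈ Ap, ∀ h₀ ∈ M, h₀ * v ∈ M → ∀ h ∈ M, h * v ∈ M := by
    intro v hv h₀ h0 h0v
    have h1 := hMmin {h | h ∈ M ∧ h * v ∈ M} (fun h hh => hh.1)
      (hM.inter (hM.preimage (continuous_id.mul continuous_const))) ⟨h₀, h0, h0v⟩ ⟨?_, ?_⟩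
    · intro h hh
      rw [← h1] at hh
      exact hh.2
    · rintro s hs h ⟨hh1, hh2⟩
      refine ⟨hMinv.1 s hs h hh1, ?_⟩
      rw [mul_assoc]
      exact hMinv.1 s hs _ hh2
    · rintro a ha h ⟨hh1, hh2⟩
      refine ⟨hMinv.2 a ha h hh1, ?_⟩
      have h2 := hMinv.2 _ (hnorm v⁻¹ (Ap.inv_mem hv) a ha) _ hh2
      have h3 : h * v * (v⁻¹ * a * v⁻¹⁻¹) = h * a * v := by group
      rwa [h3] at h2
  set K : Subgroup H := Kst Ap M with hK
  have hKcl : IsClosed (K : Set H) := Kst_closed hAp hM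
  have hKA : K ≤ Ap := fun v hv => hv.1
  have hMK : ∀ k ∈ K, ∀ h ∈ M, h * k ∈ M := fun k hk h hh => (hk.2 h hh).1
  have hAmK : Am ≤ K := fun a ha => ⟨hle ha, fun h hh =>
    ⟨hMinv.2 a ha h hh, hMinv.2 _ (Am.inv_mem ha) h hh⟩⟩
  have key : ∀ v ∈ Ap, ∀ h ∈ M, h * v ∈ M → v ∈ K := by
    intro v hv h hh hhv
    refine ⟨hv, fun h' hh' => ⟨hP v hv h hh hhv h' hh', ?_⟩⟩
    refine hP v⁻¹ (Ap.inv_mem hv) (h * v) hhv ?_ h' hh'
    rw [mul_inv_cancel_right]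
    exact hh
  by_cases hKeq : Ap ≤ K
  · have h1 : M = Set.univ := hmin M hM hMne ⟨hMinv.1, fun a ha h hh => hMK a (hKeq ha) h hh⟩
    rw [Set.eq_univ_iff_forall]
    intro x
    apply hMC
    rw [h1]
    exact Set.mem_univ x
  · exfalso
    rw [SetLike.not_le_iff_exists] at hKeq
    obtain ⟨v₀, hv₀, hv₀K⟩ := hKeq
    haveI hKn : (K.subgroupOf Ap).Normal := by
      refine ⟨fun k hk u => ?_⟩
      rw [Subgroup.mem_subgroupOf] at hk ⊢
      have h1 := K.mul_mem (hAmK (hcom u u.2 k k.2)) hk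
      rw [inv_mul_cancel_right] at h1
      exact h1
    haveI hclK : IsClosed ((K.subgroupOf Ap : Subgroup Ap) : Set Ap) :=
      hKcl.preimage continuous_subtype_val
    haveI : CompactSpace (Ap ⧸ K.subgroupOf Ap) := compact_quot (hΛ.trans hAmK) hKA hAp
    obtain ⟨φ, hφc, hφ⟩ := exists_phi (S := S) hM hMne hMinv.1 hMK key hmin
    letI : CommGroup (Ap ⧸ K.subgroupOf Ap) :=
      { (inferInstance : Group (Ap ⧸ K.subgroupOf Ap)) with
        mul_comm := by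
          intro x y
          obtain ⟨u, rfl⟩ := QuotientGroup.mk_surjective x
          obtain ⟨v, rfl⟩ := QuotientGroup.mk_surjective y
          show (QuotientGroup.mk (u * v) : Ap ⧸ K.subgroupOf Ap) = QuotientGroup.mk (v * u)
          rw [eq_comm, QuotientGroup.eq, Subgroup.mem_subgroupOf]
          have h1 := hAmK (hcom _ (Ap.inv_mem u.2) _ (Ap.inv_mem v.2))
          have h2 : (((v * u)⁻¹ * (u * v) : Ap) : H) =
              (u : H)⁻¹ * (v : H)⁻¹ * (u : H)⁻¹⁻¹ * (v : H)⁻¹⁻¹ := by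
            push_cast
            group
          rw [h2]
          exact h1 }
    obtain ⟨χ, hχ⟩ := Pool.LatH472.chars (QuotientGroup.mk ⟨v₀, hv₀⟩ : Ap ⧸ K.subgroupOf Ap) (by
      intro h1
      rw [QuotientGroup.eq_one_iff, Subgroup.mem_subgroupOf] at h1
      exact hv₀K h1)
    apply hχ
    classical
    have h1 := core (hΛ.trans hle) hmin r F hF0 hanti hFr hcomm hpow hSZ hpow0 htop hchar
      (fun h => χ (φ h)) (fun h => if hh : h ∈ Ap then χ (QuotientGroup.mk ⟨h, hh⟩) else 1)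
      (χ.continuous_toFun.comp hφc) ?_ ?_ ?_ v₀ hv₀
    · rw [dif_pos hv₀] at h1
      exact h1
    · intro s hs h
      show χ (φ (s * h)) = χ (φ h)
      congr 1
      obtain ⟨v, hv⟩ := QuotientGroup.mk_surjective (φ h)
      rw [← hv, hφ, mul_assoc]
      exact hMinv.1 s hs _ ((hφ h v).mp hv.symm)
    · intro a ha h
      show χ (φ (h * a)) = χ (φ h) * _
      rw [dif_pos ha, ← map_mul]
      congr 1
      obtain ⟨v, hv⟩ := QuotientGroup.mk_surjective (φ h)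
      rw [← hv]
      show φ (h * a) = QuotientGroup.mk (v * ⟨a, ha⟩)
      rw [hφ, Subgroup.coe_mul, mul_inv_rev, mul_assoc, mul_inv_cancel_left]
      exact (hφ h v).mp hv.symm
    · intro l hl
      rw [dif_pos (hle (hΛ hl))]
      have h2 : (QuotientGroup.mk ⟨l, hle (hΛ hl)⟩ : Ap ⧸ K.subgroupOf Ap) = 1 := by
        rw [QuotientGroup.eq_one_iff, Subgroup.mem_subgroupOf]
        exact hAmK (hΛ hl)
      rw [h2, map_one]

/-- the chain of closed subgroups -/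
def Ac (Λ : Subgroup H) (F : ℕ → Subgroup H) (i : ℕ) : Subgroup H :=
  (Λ ⊔ F i).topologicalClosure

lemma Ac_closed (Λ : Subgroup H) (F : ℕ → Subgroup H) (i : ℕ) :
    IsClosed (Ac Λ F i : Set H) := Subgroup.isClosed_topologicalClosure _

lemma le_Ac (Λ : Subgroup H) (F : ℕ → Subgroup H) (i : ℕ) : Λ ⊔ F i ≤ Ac Λ F i :=
  Subgroup.le_topologicalClosure _

lemma Ac_sub {Λ : Subgroup H} {F : ℕ → Subgroup H} {i : ℕ} {T : Set H} (hT : IsClosed T)
    (h : ∀ u ∈ Λ ⊔ F i, u ∈ T) : ∀ u ∈ Ac Λ F i, u ∈ T := by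
  intro u hu
  have h1 : u ∈ closure ((Λ ⊔ F i : Subgroup H) : Set H) := hu
  exact (closure_minimal (fun v hv => h v hv) hT) h1

omit [TopologicalSpace H] [IsTopologicalGroup H] in
lemma mem_sup_dec {Λ : Subgroup H} {F : ℕ → Subgroup H} (hanti : Antitone F)
    (hcomm : ∀ i, ∀ h : H, ∀ x ∈ F i, h * x * h⁻¹ * x⁻¹ ∈ F (i + 1)) {i : ℕ} {u : H}
    (hu : u ∈ Λ ⊔ F i) : ∃ l ∈ Λ, ∃ x ∈ F i, u = l * x := by
  haveI : (F i).Normal := ⟨fun x hx h => by
    have h1 := (F i).mul_mem (hanti (Nat.le_succ i) (hcomm i h x hx)) hx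
    rwa [inv_mul_cancel_right] at h1⟩
  have h1 : u ∈ ((Λ ⊔ F i : Subgroup H) : Set H) := hu
  rw [Subgroup.mul_normal, Set.mem_mul] at h1
  obtain ⟨l, hl, x, hx, rfl⟩ := h1
  exact ⟨l, hl, x, hx, rfl⟩

omit [TopologicalSpace H] [IsTopologicalGroup H] in
lemma comm' {F : ℕ → Subgroup H}
    (hcomm : ∀ i, ∀ h : H, ∀ x ∈ F i, h * x * h⁻¹ * x⁻¹ ∈ F (i + 1)) {i : ℕ} {x : H}
    (hx : x ∈ F i) (v : H) : x * v * x⁻¹ * v⁻¹ ∈ F (i + 1) := by
  have h1 := (F (i + 1)).inv_mem (hcomm i v x hx)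
  have h2 : (v * x * v⁻¹ * x⁻¹)⁻¹ = x * v * x⁻¹ * v⁻¹ := by group
  rwa [h2] at h1

lemma Ac_norm {Λ : Subgroup H} {F : ℕ → Subgroup H} (hanti : Antitone F)
    (hcomm : ∀ i, ∀ h : H, ∀ x ∈ F i, h * x * h⁻¹ * x⁻¹ ∈ F (i + 1)) (i : ℕ) :
    ∀ u ∈ Ac Λ F i, ∀ a ∈ Ac Λ F (i + 1), u * a * u⁻¹ ∈ Ac Λ F (i + 1) := by
  have h1 : ∀ a ∈ Λ ⊔ F (i + 1), ∀ u ∈ Λ ⊔ F i, u * a * u⁻¹ ∈ Λ ⊔ F (i + 1) := by
    intro a ha u hu
    obtain ⟨l, hl, x, hx, rfl⟩ := mem_sup_dec hanti hcomm hu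
    have h2 : l * x * a * (l * x)⁻¹ = l * (x * a * x⁻¹ * a⁻¹) * a * l⁻¹ := by group
    rw [h2]
    have hl' : l ∈ Λ ⊔ F (i + 1) := (le_sup_left : Λ ≤ Λ ⊔ F (i + 1)) hl
    have hc' : x * a * x⁻¹ * a⁻¹ ∈ Λ ⊔ F (i + 1) :=
      (le_sup_right : F (i + 1) ≤ Λ ⊔ F (i + 1)) (comm' hcomm hx a)
    exact Subgroup.mul_mem _ (Subgroup.mul_mem _ (Subgroup.mul_mem _ hl' hc') ha)
      (Subgroup.inv_mem _ hl')
  have h2 : ∀ a ∈ Λ ⊔ F (i + 1), ∀ u ∈ Ac Λ F i, u * a * u⁻¹ ∈ Ac Λ F (i + 1) := by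
    intro a ha
    refine Ac_sub (T := {u | u * a * u⁻¹ ∈ Ac Λ F (i + 1)}) ?_
      fun u hu => le_Ac _ _ _ (h1 a ha u hu)
    exact (Ac_closed Λ F (i + 1)).preimage
      ((continuous_id.mul continuous_const).mul continuous_inv)
  intro u hu
  refine Ac_sub (T := {a | u * a * u⁻¹ ∈ Ac Λ F (i + 1)}) ?_ fun a ha => h2 a ha u hu
  exact (Ac_closed Λ F (i + 1)).preimage
    ((continuous_const.mul continuous_id).mul continuous_const)

lemma Ac_com {Λ : Subgroup H} {F : ℕ → Subgroup H} (hanti : Antitone F)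
    (hcomm : ∀ i, ∀ h : H, ∀ x ∈ F i, h * x * h⁻¹ * x⁻¹ ∈ F (i + 1)) (i : ℕ) :
    ∀ u ∈ Ac Λ F i, ∀ v ∈ Ac Λ F i, u * v * u⁻¹ * v⁻¹ ∈ Ac Λ F (i + 1) := by
  intro u hu v hv
  revert u
  refine Ac_sub (T := {u | u * v * u⁻¹ * v⁻¹ ∈ Ac Λ F (i + 1)}) ?_ ?_
  · exact (Ac_closed Λ F (i + 1)).preimage
      (((continuous_id.mul continuous_const).mul continuous_inv).mul continuous_const)
  · intro u hu
    obtain ⟨l, hl, x, hx, rfl⟩ := mem_sup_dec hanti hcomm hu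
    show l * x * v * (l * x)⁻¹ * v⁻¹ ∈ Ac Λ F (i + 1)
    have h2 : l * x * v * (l * x)⁻¹ * v⁻¹ = l * (x * v * x⁻¹ * v⁻¹) * (v * l⁻¹ * v⁻¹) := by group
    rw [h2]
    have hl' : l ∈ Ac Λ F (i + 1) := le_Ac _ _ _ ((le_sup_left : Λ ≤ Λ ⊔ F (i + 1)) hl)
    have hc' : x * v * x⁻¹ * v⁻¹ ∈ Ac Λ F (i + 1) :=
      le_Ac _ _ _ ((le_sup_right : F (i + 1) ≤ Λ ⊔ F (i + 1)) (comm' hcomm hx v))
    exact Subgroup.mul_mem _ (Subgroup.mul_mem _ hl' hc')
      (Ac_norm hanti hcomm i v hv _ (Subgroup.inv_mem _ hl'))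

end Pool.Agent.N305.PR.Parry

namespace Pool.Agent.N305.PR

open Topology Filter Pointwise Parry

/-- P1 -/
theorem parry : S_PARRY := by
  intro H _ _ _ _ Λ hΛ hcomp r F hF0 hanti hFr hcomm hpow S Z N0 hSZ hpow0 htop hchar x
  haveI := hcomp
  have hmi : ∀ i, i ≤ r → Mi S (Ac Λ F i) := by
    intro i
    induction i with
    | zero =>
      intro _ C _ hne hinv
      rw [Set.eq_univ_iff_forall]
      intro y
      obtain ⟨h, hh⟩ := hne
      have h1 : h⁻¹ * y ∈ Ac Λ F 0 := by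
        refine le_Ac _ _ _ ?_
        rw [hF0, sup_top_eq]
        exact Subgroup.mem_top _
      have h2 := hinv.2 _ h1 h hh
      rwa [mul_inv_cancel_left] at h2
    | succ i ih =>
      intro hi
      refine step (Λ := Λ) (Ap := Ac Λ F i) (Z := Z) (N0 := N0) ?_ ?_ (Ac_closed Λ F i)
        (Ac_norm hanti hcomm i) (Ac_com hanti hcomm i) (ih (by omega)) r F hF0 hanti hFr hcomm
        hpow hSZ hpow0 htop hchar
      · exact le_sup_left.trans (le_Ac _ _ _)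
      · refine Subgroup.topologicalClosure_mono ?_
        exact sup_le_sup_left (hanti (Nat.le_succ i)) Λ
  have hΛr : Ac Λ F r = Λ := by
    apply le_antisymm
    · refine Ac_sub (T := (Λ : Set H)) hΛ ?_
      intro u hu
      rw [hFr, sup_bot_eq] at hu
      exact hu
    · exact le_sup_left.trans (le_Ac _ _ _)
  have hmin : Mi S Λ := by
    have h1 := hmi r le_rfl
    rwa [hΛr] at h1
  obtain ⟨h, rfl⟩ := QuotientGroup.mk_surjective x
  have h1 : (Set.range fun s : S => (s : H) • (QuotientGroup.mk h : H ⧸ Λ)) =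
      (QuotientGroup.mk : H → H ⧸ Λ) '' {y | ∃ s ∈ S, y = s * h} := by
    ext z
    constructor
    · rintro ⟨s, rfl⟩
      exact ⟨s * h, ⟨s, s.2, rfl⟩, rfl⟩
    · rintro ⟨_, ⟨s, hs, rfl⟩, rfl⟩
      exact ⟨⟨s, hs⟩, rfl⟩
  rw [h1, QuotientGroup.dense_image_mk, dense_iff_closure_eq]
  refine hmin _ isClosed_closure ⟨h, subset_closure ?_⟩ ⟨?_, ?_⟩
  · exact Set.mem_mul.mpr ⟨h, ⟨1, S.one_mem, (one_mul h).symm⟩, 1, Λ.one_mem, mul_one h⟩
  · intro s hs y hy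
    refine map_mem_closure (f := fun y => s * y) (continuous_const.mul continuous_id) hy ?_
    intro z hz
    obtain ⟨_, ⟨s', hs', rfl⟩, l, hl, rfl⟩ := Set.mem_mul.mp hz
    refine Set.mem_mul.mpr ⟨s * s' * h, ⟨s * s', S.mul_mem hs hs', rfl⟩, l, hl, ?_⟩
    simp only [mul_assoc]
  · intro a ha y hy
    refine map_mem_closure (f := fun y => y * a) (continuous_id.mul continuous_const) hy ?_
    intro z hz
    obtain ⟨_, ⟨s', hs', rfl⟩, l, hl, rfl⟩ := Set.mem_mul.mp hz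
    refine Set.mem_mul.mpr ⟨s' * h, ⟨s', hs', rfl⟩, l * a, Λ.mul_mem hl ha, ?_⟩
    simp only [mul_assoc]

end Pool.Agent.N305.PR
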