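import Pool.Agent.N305.PR.Stm

/-!
# Project PR (S04319), part P5: the logarithms of the elements of `Λ` span `𝔫` modulo `[𝔫, 𝔫]`

The Nakayama argument: `𝔪 = lgs 𝔫 Λ ⊔ brs 𝔫` is stable under `[D, ·]` and `[A, ·]` and
`𝔫 ≤ 𝔪 ⊔ [D, 𝔫] ⊔ [A, 𝔫]`.
-/

set_option autoImplicit false

namespace Pool.Agent.N305.PR

open Finset Topology Filter Pool.Agent.TH91.RF Pool.Agent.TH91.NB.J887

namespace Span

variable {n : ℕ}

/-- the bracket with `X` as a linear map -/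
noncomputable def adL (X : Mat n) : Mat n →ₗ[ℝ] Mat n where
  toFun x := X * x - x * X
  map_add' x y := by noncomm_ring
  map_smul' a x := by
    simp only [mul_smul_comm, smul_mul_assoc, smul_sub, RingHom.id_apply]

theorem adL_apply (X x : Mat n) : adL X x = X * x - x * X := rfl

/-- Vandermonde: if a subspace contains `ex(X)^s`-conjugates of `x`, it contains `[X, x]`. -/
theorem bracket_mem {X x : Mat n} (𝔪 : Submodule ℝ (Mat n))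
    (h : ∀ s : ℕ, Adf ((s : ℝ) • X) x ∈ 𝔪) : X * x - x * X ∈ 𝔪 := by
  rcases Nat.eq_zero_or_pos n with hn | hn
  · subst hn
    have : X * x - x * X = 0 := by
      ext i
      exact i.elim0
    rw [this]
    exact Submodule.zero_mem _
  have hcon : ∀ t : ℕ, ∑ i ∈ range (n + 1), ((t ^ i : ℕ) : ℤ) •
      (((i.factorial : ℚ))⁻¹ • (adr (-X))^[i] x) ∈ 𝔪.toAddSubgroup := by
    intro t
    have hsum : ∑ i ∈ range (n + 1), ((t ^ i : ℕ) : ℤ) •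
        (((i.factorial : ℚ))⁻¹ • (adr (-X))^[i] x) = Adf ((t : ℝ) • X) x := by
      unfold Adf
      refine sum_congr rfl fun i _ => ?_
      have e1 : (-((t : ℝ) • X)) = (t : ℚ) • (-X) := by
        rw [smul_neg, Nat.cast_smul_eq_nsmul, Nat.cast_smul_eq_nsmul]
      rw [e1, adr_smul_iter, smul_comm, ← Int.cast_smul_eq_zsmul ℚ]
      push_cast
      rfl
    rw [hsum]
    exact h t
  have h5 := vdm_mem n 𝔪.toAddSubgroup _ hcon 1 (by omega)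
  simp only [Nat.factorial_one, Nat.cast_one, inv_one, one_smul, Function.iterate_one] at h5
  rw [adr_neg] at h5
  have h6 := 𝔪.smul_mem ((vdm n : ℤ) : ℝ)⁻¹ h5
  rwa [← Int.cast_smul_eq_zsmul ℝ, inv_smul_smul₀ (by exact_mod_cast vdm_ne_zero n)] at h6

theorem Adf_mem {𝔫 : Submodule ℝ (Mat n)} {X x : Mat n} (hXn : ∀ x ∈ 𝔫, X * x - x * X ∈ 𝔫)
    (hx : x ∈ 𝔫) : Adf X x ∈ 𝔫 := by
  have h := Adf_sub_mem (hXn x hx) hXn
  have h2 := 𝔫.add_mem h hx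
  rwa [sub_add_cancel] at h2

theorem brs_mem {𝔫 : Submodule ℝ (Mat n)} {x y : Mat n} (hx : x ∈ 𝔫) (hy : y ∈ 𝔫) :
    x * y - y * x ∈ brs 𝔫 := Submodule.subset_span ⟨x, hx, y, hy, rfl⟩

/-- `lgs 𝔫 Λ ⊔ brs 𝔫` is stable under `[X, ·]` if `ex (X + w) ∈ Λ` for some `w ∈ 𝔫` -/
theorem stable {𝔫 : Submodule ℝ (Mat n)} (h𝔫 : IsLie 𝔫) (Λ : Subgroup (Mat n)ˣ) {X : Mat n}
    (hX : X ∈ FR n 1) (hXn : ∀ x ∈ 𝔫, X * x - x * X ∈ 𝔫) {w : Mat n} (hw : w ∈ 𝔫)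
    (hL : ex (X + w) ∈ Λ) :
    ∀ x ∈ lgs 𝔫 Λ ⊔ brs 𝔫, X * x - x * X ∈ lgs 𝔫 Λ ⊔ brs 𝔫 := by
  have hXw : X + w ∈ FR n 1 := Submodule.add_mem _ hX (h𝔫.le1 hw)
  have hXwn : ∀ x ∈ 𝔫, (X + w) * x - x * (X + w) ∈ 𝔫 := by
    intro x hx
    have e : (X + w) * x - x * (X + w) = (X * x - x * X) + (w * x - x * w) := by noncomm_ring
    rw [e]
    exact 𝔫.add_mem (hXn x hx) (h𝔫.br w hw x hx)
  have key : lgs 𝔫 Λ ⊔ brs 𝔫 ≤ (lgs 𝔫 Λ ⊔ brs 𝔫).comap (adL X) := by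
    refine sup_le ?_ ?_
    · unfold lgs
      rw [Submodule.span_le]
      rintro x ⟨hx, hxL⟩
      show X * x - x * X ∈ lgs 𝔫 Λ ⊔ brs 𝔫
      have h1 : (X + w) * x - x * (X + w) ∈ lgs 𝔫 Λ := by
        refine bracket_mem _ fun s => ?_
        have hs : (s : ℝ) • (X + w) ∈ FR n 1 := Submodule.smul_mem _ _ hXw
        refine Submodule.subset_span ⟨Adf_mem (fun y hy => ?_) hx, ?_⟩
        · have e : (s : ℝ) • (X + w) * y - y * (s : ℝ) • (X + w) =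
              (s : ℝ) • ((X + w) * y - y * (X + w)) := by
            rw [smul_mul_assoc, mul_smul_comm, smul_sub]
          rw [e]
          exact 𝔫.smul_mem _ (hXwn y hy)
        · rw [← ex_conj hs (h𝔫.le1 hx), ← ex_npow hXw s]
          exact Λ.mul_mem (Λ.mul_mem (Λ.pow_mem hL s) hxL) (Λ.inv_mem (Λ.pow_mem hL s))
      have e : X * x - x * X = ((X + w) * x - x * (X + w)) - (w * x - x * w) := by noncomm_ring
      rw [e]
      exact Submodule.sub_mem _ (Submodule.mem_sup_left h1)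
        (Submodule.mem_sup_right (brs_mem hw hx))
    · rw [show brs 𝔫 = Submodule.span ℝ {z | ∃ x ∈ 𝔫, ∃ y ∈ 𝔫, z = x * y - y * x} from rfl,
        Submodule.span_le]
      rintro _ ⟨y, hy, z, hz, rfl⟩
      show X * (y * z - z * y) - (y * z - z * y) * X ∈ lgs 𝔫 Λ ⊔ brs 𝔫
      have e : X * (y * z - z * y) - (y * z - z * y) * X =
          ((X * y - y * X) * z - z * (X * y - y * X)) +
            (y * (X * z - z * X) - (X * z - z * X) * y) := by noncomm_ring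
      rw [e]
      exact Submodule.mem_sup_right
        (Submodule.add_mem _ (brs_mem (hXn y hy) hz) (brs_mem hy (hXn z hz)))
  exact fun x hx => key hx

/-- the powers of `[D, ·]` and `[A, ·]` applied to `𝔫` -/
noncomputable def wser (D A : Mat n) (𝔫 : Submodule ℝ (Mat n)) : ℕ → Submodule ℝ (Mat n)
  | 0 => 𝔫
  | j + 1 => (wser D A 𝔫 j).map (adL D) ⊔ (wser D A 𝔫 j).map (adL A)

theorem ad_FR {X x : Mat n} {k : ℕ} (hX : X ∈ FR n 1) (hx : x ∈ FR n k) :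
    X * x - x * X ∈ FR n (k + 1) := by
  have h1 : X * x ∈ (matFiltR n).F (1 + k) := (matFiltR n).mul (i := 1) (j := k) hX hx
  have h2 : x * X ∈ (matFiltR n).F (k + 1) := (matFiltR n).mul (i := k) (j := 1) hx hX
  rw [Nat.add_comm] at h1
  exact Submodule.sub_mem _ h1 h2

theorem wser_le {D A : Mat n} {𝔫 : Submodule ℝ (Mat n)} (hD : D ∈ FR n 1) (hA : A ∈ FR n 1)
    (h𝔫 : 𝔫 ≤ FR n 1) (j : ℕ) : wser D A 𝔫 j ≤ FR n (j + 1) := by
  induction j with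
  | zero => exact h𝔫
  | succ j ih =>
    unfold wser
    refine sup_le ?_ ?_
    · rintro _ ⟨x, hx, rfl⟩
      exact ad_FR hD (ih hx)
    · rintro _ ⟨x, hx, rfl⟩
      exact ad_FR hA (ih hx)

/-- Nakayama -/
theorem nakayama {D A : Mat n} {𝔫 𝔪 : Submodule ℝ (Mat n)} (hD : D ∈ FR n 1) (hA : A ∈ FR n 1)
    (h𝔫 : 𝔫 ≤ FR n 1) (hDm : ∀ x ∈ 𝔪, D * x - x * D ∈ 𝔪) (hAm : ∀ x ∈ 𝔪, A * x - x * A ∈ 𝔪)
    (h : 𝔫 ≤ 𝔪 ⊔ (𝔫.map (adL D) ⊔ 𝔫.map (adL A))) : 𝔫 ≤ 𝔪 := by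
  have key : ∀ j, 𝔫 ≤ 𝔪 ⊔ wser D A 𝔫 j := by
    intro j
    induction j with
    | zero => exact le_sup_right
    | succ j ih =>
      have h1 : 𝔫.map (adL D) ≤ 𝔪 ⊔ wser D A 𝔫 (j + 1) := by
        refine (Submodule.map_mono ih).trans ?_
        rw [Submodule.map_sup]
        refine sup_le ?_ ?_
        · rintro _ ⟨x, hx, rfl⟩
          exact Submodule.mem_sup_left (hDm x hx)
        · exact (le_sup_left : _ ≤ (wser D A 𝔫 j).map (adL D) ⊔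
            (wser D A 𝔫 j).map (adL A)).trans le_sup_right
      have h2 : 𝔫.map (adL A) ≤ 𝔪 ⊔ wser D A 𝔫 (j + 1) := by
        refine (Submodule.map_mono ih).trans ?_
        rw [Submodule.map_sup]
        refine sup_le ?_ ?_
        · rintro _ ⟨x, hx, rfl⟩
          exact Submodule.mem_sup_left (hAm x hx)
        · exact (le_sup_right : _ ≤ (wser D A 𝔫 j).map (adL D) ⊔
            (wser D A 𝔫 j).map (adL A)).trans le_sup_right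
      exact h.trans (sup_le le_sup_left (sup_le h1 h2))
  intro x hx
  obtain ⟨a, ha, b, hb, hab⟩ := Submodule.mem_sup.1 (key n hx)
  have hb0 : b = 0 := by
    have hb1 : b ∈ (matFiltR n).F (n + 1) := wser_le hD hA h𝔫 n hb
    exact (matFiltR n).bot b ((matFiltR n).anti (by omega : n ≤ n + 1) hb1)
  rw [hb0, add_zero] at hab
  rwa [← hab]

end Span

open Pool.Agent.N305.PR.Span in
/-- P5. -/
theorem span : S_SPAN := by
  intro N 𝔤 M I p h𝔤 hM hM𝔤 O Γ hz hspan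
  obtain ⟨z₀, hz₀, hγ₀⟩ := hz
  -- (1)
  have hc : ∀ z ∈ 𝔤, O.c z ∈ lgs O.𝔫 (O.Lam Γ) := by
    have h : lgs 𝔤 Γ ≤ (lgs O.𝔫 (O.Lam Γ)).comap O.c := by
      rw [show lgs 𝔤 Γ = Submodule.span ℝ {x | x ∈ 𝔤 ∧ ex x ∈ Γ} from rfl, Submodule.span_le]
      rintro z ⟨hz, hzΓ⟩
      refine Submodule.subset_span ⟨O.c_mem z hz, ?_⟩
      obtain ⟨h, -, h2⟩ := O.ex_c z hz
      refine ⟨h, fun i m => ?_⟩
      rw [h2 i m]
      exact hzΓ
    exact fun z hz => h (hspan hz)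
  -- (2)
  have hsD : ∀ z ∈ 𝔤, ex (M + z) ∈ Γ → ex (O.D + O.q z) ∈ O.Lam Γ := by
    intro z hz hzΓ
    obtain ⟨h, -, h2⟩ := O.ex_D z hz
    refine ⟨h, fun i m => ?_⟩
    rw [h2 i m, ← Int.cast_smul_eq_zsmul ℝ, ← ex_zpow (Submodule.add_mem _ hM (h𝔤.le1 hz))]
    exact Γ.zpow_mem hzΓ _
  have hsA : ∀ z ∈ 𝔤, ex (M + z) ∈ Γ → ex (O.A + O.c z) ∈ O.Lam Γ := by
    intro z hz hzΓ
    obtain ⟨h, -, h2⟩ := O.ex_A z hz
    refine ⟨h, fun i m => ?_⟩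
    rw [h2 i m]
    exact hzΓ
  -- (3)
  have hDst := stable O.lie (O.Lam Γ) O.hD O.D_mem (O.q_mem z₀ hz₀) (hsD z₀ hz₀ hγ₀)
  have hAst := stable O.lie (O.Lam Γ) O.hA O.A_mem (O.c_mem z₀ hz₀) (hsA z₀ hz₀ hγ₀)
  refine nakayama O.hD O.hA O.lie.le1 hDst hAst ?_
  set 𝔪 := lgs O.𝔫 (O.Lam Γ) ⊔ brs O.𝔫 with h𝔪
  have hDn : O.𝔫.map (adL O.D) ≤ 𝔪 ⊔ (O.𝔫.map (adL O.D) ⊔ O.𝔫.map (adL O.A)) :=
    le_sup_left.trans le_sup_right
  have hAn : O.𝔫.map (adL O.A) ≤ 𝔪 ⊔ (O.𝔫.map (adL O.D) ⊔ O.𝔫.map (adL O.A)) :=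
    le_sup_right.trans le_sup_right
  have hbn : brs O.𝔫 ≤ 𝔪 ⊔ (O.𝔫.map (adL O.D) ⊔ O.𝔫.map (adL O.A)) :=
    (le_sup_right : brs O.𝔫 ≤ lgs O.𝔫 (O.Lam Γ) ⊔ brs O.𝔫).trans le_sup_left
  have hln : lgs O.𝔫 (O.Lam Γ) ≤ 𝔪 ⊔ (O.𝔫.map (adL O.D) ⊔ O.𝔫.map (adL O.A)) :=
    (le_sup_left : lgs O.𝔫 (O.Lam Γ) ≤ lgs O.𝔫 (O.Lam Γ) ⊔ brs O.𝔫).trans le_sup_left
  -- the Lie algebra `T = 𝔤 ⊔ ℝ M`
  have hTmem : ∀ u ∈ 𝔤 ⊔ Submodule.span ℝ {M}, ∃ x ∈ 𝔤, ∃ a : ℝ, u = x + a • M := by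
    intro u hu
    obtain ⟨x, hx, y, hy, rfl⟩ := Submodule.mem_sup.1 hu
    obtain ⟨a, rfl⟩ := Submodule.mem_span_singleton.1 hy
    exact ⟨x, hx, a, rfl⟩
  have hbr : ∀ (x y : Mat N) (a b : ℝ), (x + a • M) * (y + b • M) - (y + b • M) * (x + a • M) =
      (x * y - y * x) + a • (M * y - y * M) - b • (M * x - x * M) := by
    intro x y a b
    simp only [add_mul, mul_add, smul_mul_assoc, mul_smul_comm, smul_sub, smul_add, smul_smul,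
      mul_comm b a]
    abel
  have hTbr : ∀ u ∈ 𝔤 ⊔ Submodule.span ℝ {M}, ∀ v ∈ 𝔤 ⊔ Submodule.span ℝ {M},
      u * v - v * u ∈ 𝔤 := by
    intro u hu v hv
    obtain ⟨x, hx, a, rfl⟩ := hTmem u hu
    obtain ⟨y, hy, b, rfl⟩ := hTmem v hv
    rw [hbr]
    exact 𝔤.sub_mem (𝔤.add_mem (h𝔤.br x hx y hy) (𝔤.smul_mem _ (hM𝔤 y hy)))
      (𝔤.smul_mem _ (hM𝔤 x hx))
  have hJ𝔤 : brs (𝔤 ⊔ Submodule.span ℝ {M}) ≤ 𝔤 := by
    rw [show brs (𝔤 ⊔ Submodule.span ℝ {M}) = Submodule.span ℝ {z | ∃ x ∈ 𝔤 ⊔ Submodule.span ℝ {M},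
      ∃ y ∈ 𝔤 ⊔ Submodule.span ℝ {M}, z = x * y - y * x} from rfl, Submodule.span_le]
    rintro _ ⟨x, hx, y, hy, rfl⟩
    exact hTbr x hx y hy
  have hI : IsIdl (𝔤 ⊔ Submodule.span ℝ {M}) (brs (𝔤 ⊔ Submodule.span ℝ {M})) := by
    refine ⟨sup_le h𝔤.le1 ?_, fun u hu v hv => Submodule.mem_sup_left (hTbr u hu v hv),
      hJ𝔤.trans le_sup_left, fun u hu v hv => brs_mem hu (Submodule.mem_sup_left (hJ𝔤 hv))⟩
    rw [Submodule.span_le, Set.singleton_subset_iff]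
    exact hM
  -- `q J`
  have hqJ : ∀ j ∈ brs (𝔤 ⊔ Submodule.span ℝ {M}),
      O.q j ∈ brs O.𝔫 ⊔ O.𝔫.map (adL O.A) := by
    have h : brs (𝔤 ⊔ Submodule.span ℝ {M}) ≤
        (brs O.𝔫 ⊔ O.𝔫.map (adL O.A)).comap O.q := by
      rw [show brs (𝔤 ⊔ Submodule.span ℝ {M}) = Submodule.span ℝ {z |
        ∃ x ∈ 𝔤 ⊔ Submodule.span ℝ {M}, ∃ y ∈ 𝔤 ⊔ Submodule.span ℝ {M}, z = x * y - y * x}
        from rfl, Submodule.span_le]
      rintro _ ⟨u, hu, v, hv, rfl⟩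
      obtain ⟨x, hx, a, rfl⟩ := hTmem u hu
      obtain ⟨y, hy, b, rfl⟩ := hTmem v hv
      show O.q _ ∈ brs O.𝔫 ⊔ O.𝔫.map (adL O.A)
      rw [hbr, map_sub, map_add, map_smul, map_smul, ← O.cq x hx y hy, ← O.Aq y hy, ← O.Aq x hx]
      refine Submodule.sub_mem _ (Submodule.add_mem _
        (Submodule.mem_sup_left (brs_mem (O.c_mem x hx) (O.q_mem y hy)))
        (Submodule.smul_mem _ _ (Submodule.mem_sup_right ⟨_, O.q_mem y hy, rfl⟩)))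
        (Submodule.smul_mem _ _ (Submodule.mem_sup_right ⟨_, O.q_mem x hx, rfl⟩))
    exact fun j hj => h hj
  -- (4)
  have hq : ∀ z ∈ 𝔤, O.q z ∈ 𝔪 ⊔ (O.𝔫.map (adL O.D) ⊔ O.𝔫.map (adL O.A)) := by
    have h : lgs 𝔤 Γ ≤ (𝔪 ⊔ (O.𝔫.map (adL O.D) ⊔ O.𝔫.map (adL O.A))).comap O.q := by
      rw [show lgs 𝔤 Γ = Submodule.span ℝ {x | x ∈ 𝔤 ∧ ex x ∈ Γ} from rfl, Submodule.span_le]
      rintro z ⟨hz, hzΓ⟩
      show O.q z ∈ 𝔪 ⊔ (O.𝔫.map (adL O.D) ⊔ O.𝔫.map (adL O.A))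
      have hT1 : M + z₀ ∈ 𝔤 ⊔ Submodule.span ℝ {M} :=
        Submodule.add_mem _ (Submodule.mem_sup_right (Submodule.mem_span_singleton_self M))
          (Submodule.mem_sup_left hz₀)
      have hT2 : z ∈ 𝔤 ⊔ Submodule.span ℝ {M} := Submodule.mem_sup_left hz
      obtain ⟨j, hj, hj2⟩ := hI.mul_add hT1 hT2 (brs_mem hT1 hT2)
      have hj𝔤 : j ∈ 𝔤 := hJ𝔤 hj
      have hsum𝔤 : z₀ + z + j ∈ 𝔤 := 𝔤.add_mem (𝔤.add_mem hz₀ hz) hj𝔤
      have hzj : z + j ∈ 𝔤 := 𝔤.add_mem hz hj𝔤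
      have h1 : ex (M + (z₀ + z + j)) ∈ Γ := by
        have e : M + (z₀ + z + j) = M + z₀ + z + j := by abel
        rw [e, ← hj2]
        exact Γ.mul_mem hγ₀ hzΓ
      have hs1 := hsD _ hsum𝔤 h1
      have hs0 := hsD _ hz₀ hγ₀
      have hX : O.D + O.q z₀ ∈ FR O.n 1 :=
        Submodule.add_mem _ O.hD (O.lie.le1 (O.q_mem z₀ hz₀))
      have hle : brs O.𝔫 ⊔ O.𝔫.map (adL O.D) ≤ O.𝔫 := by
        refine sup_le ?_ ?_
        · rw [show brs O.𝔫 = Submodule.span ℝ {z | ∃ x ∈ O.𝔫, ∃ y ∈ O.𝔫, z = x * y - y * x}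
            from rfl, Submodule.span_le]
          rintro _ ⟨x, hx, y, hy, rfl⟩
          exact O.lie.br x hx y hy
        · rintro _ ⟨x, hx, rfl⟩
          exact O.D_mem x hx
      obtain ⟨j', hj', hj'2⟩ := ex_add_right O.lie.le1 hle hX
        (fun x hx y hy => Submodule.mem_sup_left (brs_mem hx hy))
        (fun x hx => by
          have e : (O.D + O.q z₀) * x - x * (O.D + O.q z₀) =
              (O.q z₀ * x - x * O.q z₀) + (O.D * x - x * O.D) := by noncomm_ring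
          rw [e]
          exact Submodule.add_mem _ (Submodule.mem_sup_left (brs_mem (O.q_mem z₀ hz₀) hx))
            (Submodule.mem_sup_right ⟨x, hx, rfl⟩))
        (O.q_mem (z + j) hzj)
      have e2 : O.D + O.q z₀ + O.q (z + j) = O.D + O.q (z₀ + z + j) := by
        rw [add_assoc, ← map_add, add_assoc z₀]
      rw [e2] at hj'2
      have h3 : ex (O.q (z + j) + j') ∈ O.Lam Γ := by
        have e3 : ex (O.q (z + j) + j') = (ex (O.D + O.q z₀))⁻¹ * ex (O.D + O.q (z₀ + z + j)) := by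
          rw [hj'2, inv_mul_cancel_left]
        rw [e3]
        exact (O.Lam Γ).mul_mem ((O.Lam Γ).inv_mem hs0) hs1
      have h4 : O.q (z + j) + j' ∈ lgs O.𝔫 (O.Lam Γ) :=
        Submodule.subset_span ⟨O.𝔫.add_mem (O.q_mem _ hzj) (hle hj'), h3⟩
      have e4 : O.q z = (O.q (z + j) + j') - j' - O.q j := by
        rw [map_add]
        abel
      rw [e4]
      refine Submodule.sub_mem _ (Submodule.sub_mem _ (hln h4) ?_) ?_
      · exact (sup_le hbn hDn) hj'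
      · exact (sup_le hbn hAn) (hqJ j hj)
    exact fun z hz => h (hspan hz)
  -- (5)
  exact O.gen _ (fun z hz => hln (hc z hz)) hq (fun x hx y hy => hbn (brs_mem hx hy))
    (fun x hx => hDn ⟨x, hx, rfl⟩) (fun x hx => hAn ⟨x, hx, rfl⟩)

end Pool.Agent.N305.PR
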