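import Pool.Agent.N305.PR.Base

/-!
# Project PR (S04319): statements of the parts

Notation: `Mat n` real `n × n` matrices, `FR n 1` the strictly upper triangular ones,
`ex x : (Mat n)ˣ` the exponential, `lg` the logarithm (see `Base.lean`).
-/

set_option autoImplicit false

namespace Pool.Agent.N305.PR

open Finset Topology Filter Pool.Agent.TH91.RF Pool.Agent.TH91.NB.J887

/-! ### P1: a Parry type criterion of minimality -/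

/-- P1. `H` a topological group with a central filtration `F`, `Λ` closed with `H / Λ` compact.
If every continuous character of `H` that is trivial on `S` and `Λ` is trivial, then all
`S`-orbits on `H / Λ` are dense. -/
def S_PARRY : Prop :=
  ∀ (H : Type) [Group H] [TopologicalSpace H] [IsTopologicalGroup H] [T2Space H]
    (Λ : Subgroup H), IsClosed (Λ : Set H) → CompactSpace (H ⧸ Λ) →
  ∀ (r : ℕ) (F : ℕ → Subgroup H), F 0 = ⊤ → Antitone F → F r = ⊥ →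
    (∀ i, ∀ h : H, ∀ x ∈ F i, h * x * h⁻¹ * x⁻¹ ∈ F (i + 1)) →
    -- the elements of `F i`, `i ≥ 1`, are powers of arbitrarily small elements of `F i`
    (∀ i, 1 ≤ i → ∀ x ∈ F i, ∀ W ∈ 𝓝 (1 : H), ∃ y ∈ F i, y ∈ W ∧ ∃ m : ℕ, y ^ m = x) →
  ∀ S Z N0 : Subgroup H, (∀ s ∈ S, ∀ z ∈ Z, s * z = z * s) →
    (∀ x ∈ N0, ∀ W ∈ 𝓝 (1 : H), ∃ y ∈ N0, y ∈ W ∧ ∃ m : ℕ, y ^ m = x) →
    N0 ⊔ Z = ⊤ →
    (∀ c : H →* Circle, Continuous c → (∀ s ∈ S, c s = 1) → (∀ l ∈ Λ, c l = 1) → ∀ h, c h = 1) →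
  ∀ x : H ⧸ Λ, Dense (Set.range fun s : S => (s : H) • x)

/-! ### P2: cocompactness from spanning logarithms -/

/-- the span of the brackets -/
def brs {n : ℕ} (𝔫 : Submodule ℝ (Mat n)) : Submodule ℝ (Mat n) :=
  Submodule.span ℝ {z | ∃ x ∈ 𝔫, ∃ y ∈ 𝔫, z = x * y - y * x}

/-- the span of the logarithms in `𝔫` of the elements of `Λ` -/
def lgs {n : ℕ} (𝔫 : Submodule ℝ (Mat n)) (Λ : Subgroup (Mat n)ˣ) : Submodule ℝ (Mat n) :=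
  Submodule.span ℝ {x | x ∈ 𝔫 ∧ ex x ∈ Λ}

/-- P2. If the logarithms of the elements of `Λ` span `𝔫` modulo `[𝔫, 𝔫]`, then `Λ` is cocompact
in `exp 𝔫`. -/
def S_MALCEV : Prop :=
  ∀ (n : ℕ) (𝔫 : Submodule ℝ (Mat n)), IsLie 𝔫 → ∀ Λ : Subgroup (Mat n)ˣ,
    𝔫 ≤ lgs 𝔫 Λ ⊔ brs 𝔫 →
    ∃ K : Set (Mat n)ˣ, IsCompact K ∧ (∀ κ ∈ K, ∃ x ∈ 𝔫, κ = ex x) ∧
      ∀ x ∈ 𝔫, ∃ κ ∈ K, ∃ l ∈ Λ, ex x = κ * l

/-! ### P3: continuous characters of exponential groups -/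

/-- P3. A continuous character of `exp 𝔫` comes from a linear functional. -/
def S_LINCHAR : Prop :=
  ∀ (n : ℕ) (𝔫 : Submodule ℝ (Mat n)), IsLie 𝔫 → ∀ χ : Mat n → Circle,
    ContinuousOn χ (𝔫 : Set (Mat n)) →
    (∀ x ∈ 𝔫, ∀ y ∈ 𝔫, ∀ z ∈ 𝔫, ex x * ex y = ex z → χ z = χ x * χ y) →
    ∃ ℓ : Mat n →ₗ[ℝ] ℝ, (∀ x ∈ 𝔫, χ x = Circle.exp (ℓ x)) ∧
      (∀ x ∈ 𝔫, ∀ y ∈ 𝔫, ℓ (x * y - y * x) = 0) ∧
      ∀ X ∈ FR n 1, (∀ x ∈ 𝔫, X * x - x * X ∈ 𝔫) → (∀ x ∈ 𝔫, χ (Adf X x) = χ x) →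
        ∀ x ∈ 𝔫, ℓ (X * x - x * X) = 0

/-! ### P4: the operator system -/

/-- The operator system. Think of the finite dimensional space of (families over `I` of) vector
valued polynomials `f_i(m)`, with bounded degrees. `D = d/dm + p_i'(m) M`,
`A` = multiplication by `M`, `c z` = multiplication by `z`, `q z` = multiplication by `p_i'(m) z`.
`G` is the group of the operators `(u f)_i(m) = g_i(m) f_i(m + s)`; `sh u = s` and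
`E i m u = g_i(m)`. -/
structure OpSys {N : ℕ} (𝔤 : Submodule ℝ (Mat N)) (M : Mat N) {I : Type}
    (p : I → Polynomial ℤ) where
  n : ℕ
  D : Mat n
  A : Mat n
  𝔫 : Submodule ℝ (Mat n)
  c : Mat N →ₗ[ℝ] Mat n
  q : Mat N →ₗ[ℝ] Mat n
  hD : D ∈ FR n 1
  hA : A ∈ FR n 1
  comm : D * A = A * D
  lie : IsLie 𝔫
  D_mem : ∀ x ∈ 𝔫, D * x - x * D ∈ 𝔫
  A_mem : ∀ x ∈ 𝔫, A * x - x * A ∈ 𝔫
  c_mem : ∀ z ∈ 𝔤, c z ∈ 𝔫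
  q_mem : ∀ z ∈ 𝔤, q z ∈ 𝔫
  cc : ∀ x ∈ 𝔤, ∀ y ∈ 𝔤, c x * c y - c y * c x = c (x * y - y * x)
  Ac : ∀ x ∈ 𝔤, A * c x - c x * A = c (M * x - x * M)
  cq : ∀ x ∈ 𝔤, ∀ y ∈ 𝔤, c x * q y - q y * c x = q (x * y - y * x)
  Aq : ∀ x ∈ 𝔤, A * q x - q x * A = q (M * x - x * M)
  /-- `𝔫` is generated by `c 𝔤` and `q 𝔤` under the brackets -/
  gen : ∀ 𝔪 : Submodule ℝ (Mat n), (∀ z ∈ 𝔤, c z ∈ 𝔪) → (∀ z ∈ 𝔤, q z ∈ 𝔪) →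
    (∀ x ∈ 𝔫, ∀ y ∈ 𝔫, x * y - y * x ∈ 𝔪) → (∀ x ∈ 𝔫, D * x - x * D ∈ 𝔪) →
    (∀ x ∈ 𝔫, A * x - x * A ∈ 𝔪) → 𝔫 ≤ 𝔪
  G : Subgroup (Mat n)ˣ
  sh : G →* Multiplicative ℤ
  E : I → ℤ → G → (Mat N)ˣ
  E_cont : ∀ i m, Continuous (E i m)
  E_mul : ∀ i m (u v : G), E i m (u * v) = E i m u * E i (m + (sh u).toAdd) v
  ex_n : ∀ x ∈ 𝔫, ∃ h : ex x ∈ G, sh ⟨ex x, h⟩ = 1 ∧ ∀ i m, ∃ z ∈ 𝔤, E i m ⟨ex x, h⟩ = ex z
  ex_c : ∀ z ∈ 𝔤, ∃ h : ex (c z) ∈ G, sh ⟨ex (c z), h⟩ = 1 ∧ ∀ i m, E i m ⟨ex (c z), h⟩ = ex z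
  ex_A : ∀ z ∈ 𝔤, ∃ h : ex (A + c z) ∈ G, sh ⟨ex (A + c z), h⟩ = 1 ∧
    ∀ i m, E i m ⟨ex (A + c z), h⟩ = ex (M + z)
  ex_D : ∀ z ∈ 𝔤, ∃ h : ex (D + q z) ∈ G, sh ⟨ex (D + q z), h⟩ = Multiplicative.ofAdd 1 ∧
    ∀ i m, E i m ⟨ex (D + q z), h⟩ = ex (((p i).eval (m + 1) - (p i).eval m) • (M + z))

/-- P4. Operator systems exist. -/
def S_OP : Prop :=
  ∀ (N : ℕ), 0 < N → ∀ (𝔤 : Submodule ℝ (Mat N)) (M : Mat N), IsLie 𝔤 → M ∈ FR N 1 →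
    (∀ x ∈ 𝔤, M * x - x * M ∈ 𝔤) → ∀ (I : Type) [Fintype I] [Nonempty I]
    (p : I → Polynomial ℤ), Nonempty (OpSys 𝔤 M p)

/-- P4a. A basis adapted to a flag: operators that lower the flag are strictly upper triangular. -/
def S_TRI : Prop :=
  ∀ (V : Type) [AddCommGroup V] [Module ℝ V] [FiniteDimensional ℝ V] (L : ℕ)
    (W : ℕ → Submodule ℝ V), W 0 = ⊥ → Monotone W → W L = ⊤ →
    ∃ (n : ℕ) (b : Module.Basis (Fin n) ℝ V), ∀ T : V →ₗ[ℝ] V,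
      (∀ s, ∀ v ∈ W (s + 1), T v ∈ W s) → LinearMap.toMatrix b b T ∈ FR n 1

/-- the operator `d/dX + p'(X) z` on vector valued polynomials -/
noncomputable def vD {N : ℕ} (p : Polynomial ℝ) (z : Mat N) :
    (Fin N → Polynomial ℝ) →ₗ[ℝ] (Fin N → Polynomial ℝ) where
  toFun f := fun r => Polynomial.derivative (f r) +
    Polynomial.derivative p * ∑ s, Polynomial.C (z r s) * f s
  map_add' := by
    intro f g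
    ext1 r
    simp only [Pi.add_apply, mul_add, sum_add_distrib, map_add]
    ring
  map_smul' := by
    intro a f
    ext1 r
    simp only [Pi.smul_apply, Polynomial.smul_eq_C_mul, RingHom.id_apply,
      Polynomial.derivative_mul, Polynomial.derivative_C, zero_mul, zero_add, mul_add, mul_sum]
    congr 1
    refine sum_congr rfl fun s _ => ?_
    ring

/-- P4b. `exp (d/dX + p' z) f (m) = exp ((p (m + 1) - p m) z) f (m + 1)`. -/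
def S_EXPD : Prop :=
  ∀ (N : ℕ) (z : Mat N), z ∈ FR N 1 → ∀ (p : Polynomial ℝ) (f : Fin N → Polynomial ℝ) (K : ℕ),
    ((vD p z) ^ K) f = 0 → ∀ (m : ℝ) (r : Fin N),
      ∑ k ∈ range K, ((k.factorial : ℝ))⁻¹ * ((((vD p z) ^ k) f) r).eval m =
        ∑ s, ((ex ((p.eval (m + 1) - p.eval m) • z) : (Mat N)ˣ) : Mat N) r s *
          (f s).eval (m + 1)

namespace OpSys

variable {N : ℕ} {𝔤 : Submodule ℝ (Mat N)} {M : Mat N} {I : Type} {p : I → Polynomial ℤ}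
  (O : OpSys 𝔤 M p)

theorem E_one (i : I) (m : ℤ) : O.E i m 1 = 1 := by
  have h := O.E_mul i m 1 1
  rw [mul_one, map_one, toAdd_one, add_zero] at h
  exact left_eq_mul.1 h

/-- the elements of `G` all of whose values lie in `Γ` -/
def Lam (Γ : Subgroup (Mat N)ˣ) : Subgroup (Mat O.n)ˣ where
  carrier := {u | ∃ h : u ∈ O.G, ∀ i m, O.E i m ⟨u, h⟩ ∈ Γ}
  mul_mem' := by
    rintro a b ⟨ha, ha'⟩ ⟨hb, hb'⟩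
    refine ⟨O.G.mul_mem ha hb, fun i m => ?_⟩
    have h := O.E_mul i m ⟨a, ha⟩ ⟨b, hb⟩
    rw [show (⟨a * b, O.G.mul_mem ha hb⟩ : O.G) = ⟨a, ha⟩ * ⟨b, hb⟩ from rfl, h]
    exact Γ.mul_mem (ha' i m) (hb' i _)
  one_mem' := ⟨O.G.one_mem, fun i m => by
    rw [show (⟨1, O.G.one_mem⟩ : O.G) = 1 from rfl, O.E_one]
    exact Γ.one_mem⟩
  inv_mem' := by
    rintro a ⟨ha, ha'⟩
    refine ⟨O.G.inv_mem ha, fun i m => ?_⟩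
    have h := O.E_mul i (m - (O.sh ⟨a, ha⟩).toAdd) ⟨a, ha⟩ ⟨a, ha⟩⁻¹
    rw [mul_inv_cancel, O.E_one, sub_add_cancel] at h
    have h2 : O.E i m ⟨a, ha⟩⁻¹ = (O.E i (m - (O.sh ⟨a, ha⟩).toAdd) ⟨a, ha⟩)⁻¹ :=
      (inv_eq_of_mul_eq_one_right h.symm).symm
    rw [show (⟨a⁻¹, O.G.inv_mem ha⟩ : O.G) = ⟨a, ha⟩⁻¹ from rfl, h2]
    exact Γ.inv_mem (ha' i _)

end OpSys

/-! ### P5: the logarithms of the elements of `Λ` span -/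

/-- P5. -/
def S_SPAN : Prop :=
  ∀ {N : ℕ} {𝔤 : Submodule ℝ (Mat N)} {M : Mat N} {I : Type} {p : I → Polynomial ℤ},
    IsLie 𝔤 → M ∈ FR N 1 → (∀ x ∈ 𝔤, M * x - x * M ∈ 𝔤) →
    ∀ (O : OpSys 𝔤 M p) (Γ : Subgroup (Mat N)ˣ),
    (∃ z₀ ∈ 𝔤, ex (M + z₀) ∈ Γ) → 𝔤 ≤ lgs 𝔤 Γ →
    O.𝔫 ≤ lgs O.𝔫 (O.Lam Γ) ⊔ brs O.𝔫

/-! ### The matrix model of a nilsystem -/

/-- the matrix model of a totally minimal nilsystem: `G = ⟨exp M⟩ exp 𝔤` -/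
structure Sys where
  N : ℕ
  𝔤 : Submodule ℝ (Mat N)
  M : Mat N
  lie : IsLie 𝔤
  hM : M ∈ FR N 1
  brM : ∀ x ∈ 𝔤, M * x - x * M ∈ 𝔤
  indep : ∀ t : ℝ, t • M ∈ 𝔤 → t = 0
  G : Subgroup (Mat N)ˣ
  mem_G : ∀ u, u ∈ G ↔ ∃ k : ℤ, ∃ z ∈ 𝔤, u = ex ((k : ℝ) • M + z)
  Γ : Subgroup G
  closed : IsClosed (Γ : Set G)
  cpt : CompactSpace (G ⧸ Γ)
  a : G
  ha : (a : (Mat N)ˣ) = ex M
  min : ∀ m : ℕ, 0 < m → ∀ x : G ⧸ Γ, Dense (Set.range fun k : ℤ => (a ^ m) ^ k • x)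

/-- the subgroup `Γ` as a group of matrices -/
def Sys.Γ' (S : Sys) : Subgroup (Mat S.N)ˣ := S.Γ.map S.G.subtype

/-- P6. Connectedness: `Γ` meets `a exp 𝔤`, and the logarithms of `Γ ∩ exp 𝔤` span `𝔤`. -/
def S_FACTS : Prop :=
  ∀ S : Sys, (∃ z₀ ∈ S.𝔤, ex (S.M + z₀) ∈ S.Γ') ∧ S.𝔤 ≤ lgs S.𝔤 S.Γ'

/-- P7. Characters of `G` are killed by total minimality. -/
def S_ETA : Prop :=
  ∀ (S : Sys) (k : ℕ), 0 < k → ∀ l : Mat S.N →ₗ[ℝ] ℝ,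
    (∀ x ∈ S.𝔤, ∀ y ∈ S.𝔤, l (x * y - y * x) = 0) →
    (∀ x ∈ S.𝔤, l (S.M * x - x * S.M) = 0) →
    Circle.exp (k * l S.M) = 1 →
    (∃ z₀ ∈ S.𝔤, ex (S.M + z₀) ∈ S.Γ') →
    (∀ z ∈ S.𝔤, ex (S.M + z) ∈ S.Γ' → Circle.exp (l (S.M + z)) = 1) →
    Circle.exp (l S.M) = 1 ∧ ∀ z ∈ S.𝔤, l z = 0

/-- the conclusion in the model -/
def Sys.Concl (S : Sys) : Prop :=
  ∀ (d : ℕ) (p : Fin d → Polynomial ℤ), (∀ i, (p i).eval 0 = 0) →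
    ∀ k : ℕ, 0 < k → ∀ j : ℕ, j < k →
    ∀ U : Set (S.G ⧸ S.Γ), IsOpen U → ((1 : S.G) : S.G ⧸ S.Γ) ∈ U →
    ∃ n : ℕ, 0 < n ∧ ∃ m : ℤ, S.a ^ m • ((1 : S.G) : S.G ⧸ S.Γ) ∈ U ∧
      ∀ i, S.a ^ ((p i).eval ((k : ℤ) * (n : ℤ) + (j : ℤ))) • S.a ^ m •
        ((1 : S.G) : S.G ⧸ S.Γ) ∈ U

/-- the frozen statement -/
def S_main : Prop :=
  ∀ (E : Type) [NormedAddCommGroup E] [NormedSpace ℝ E] [FiniteDimensional ℝ E]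
    (G : Type) [Group G] [TopologicalSpace G] [ChartedSpace E G]
    [LieGroup (modelWithCornersSelf ℝ E) ((⊤ : ℕ∞) : WithTop ℕ∞) G] [Group.IsNilpotent G]
    (Γ : Subgroup G), DiscreteTopology Γ → CompactSpace (G ⧸ Γ) →
    ∀ g : G, (∀ m : ℕ, 0 < m → ∀ x : G ⧸ Γ,
        Dense (Set.range (fun n : ℤ => (g ^ m) ^ n • x))) →
    ∀ (d : ℕ) (p : Fin d → Polynomial ℤ), (∀ i, (p i).eval 0 = 0) →
    ∀ k : ℕ, 0 < k → ∀ j : ℕ, j < k →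
    ∀ U : Set (G ⧸ Γ), IsOpen U → U.Nonempty →
    ∃ n : ℕ, 0 < n ∧ ∃ x ∈ U, ∀ i, g ^ ((p i).eval ((k : ℤ) * (n : ℤ) + (j : ℤ))) • x ∈ U

/-- P8. Reduction to the matrix model. -/
def S_REDUCE : Prop := (∀ S : Sys, S.Concl) → S_main

end Pool.Agent.N305.PR
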