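import Pool.Agent.N305.PR.Stm

/-!
# Project PR, part P4a: a basis adapted to a flag (helper305)
-/

set_option autoImplicit false

namespace Pool.Agent.N305.PR

open Finset Topology Filter Pool.Agent.TH91.RF Pool.Agent.TH91.NB.J887

theorem tri305_aux : ∀ (L : ℕ) (V : Type) [AddCommGroup V] [Module ℝ V] [FiniteDimensional ℝ V]
    (W : ℕ → Submodule ℝ V), W 0 = ⊥ → Monotone W → W L = ⊤ →
    ∃ (n : ℕ) (b : Module.Basis (Fin n) ℝ V), ∀ T : V →ₗ[ℝ] V,
      (∀ s, ∀ v ∈ W (s + 1), T v ∈ W s) → LinearMap.toMatrix b b T ∈ FR n 1 := by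
  intro L
  induction L with
  | zero =>
    intro V _ _ _ W h0 hm hL
    have hs : Subsingleton V := by
      rw [← Submodule.subsingleton_iff ℝ, ← subsingleton_iff_bot_eq_top, ← h0, hL]
    refine ⟨0, Module.Basis.empty V, fun T hT => ?_⟩
    intro i
    exact i.elim0
  | succ L ih =>
    intro V _ _ _ W h0 hm hL
    obtain ⟨n', b', hb'⟩ := ih (W L) (fun s => (W s).comap (W L).subtype)
      (by
        rw [h0, Submodule.comap_bot, Submodule.ker_subtype])
      (fun s t hst => Submodule.comap_mono (hm hst))
      (by rw [Submodule.comap_subtype_self])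
    obtain ⟨U, hU⟩ := Submodule.exists_isCompl (W L)
    let c := Module.finBasis ℝ U
    let e := Submodule.prodEquivOfIsCompl (W L) U hU
    let b : Module.Basis (Fin (n' + Module.finrank ℝ U)) ℝ V :=
      ((b'.prod c).map e).reindex finSumFinEquiv
    refine ⟨n' + Module.finrank ℝ U, b, fun T hT => ?_⟩
    have hbl : ∀ j : Fin n', b (Fin.castAdd _ j) = (b' j : V) := by
      intro j
      simp [b, e]
    have hbr : ∀ j : Fin (Module.finrank ℝ U), b (Fin.natAdd _ j) = (c j : V) := by
      intro j
      simp [b, e]
    have hrl : ∀ (v : W L) (i : Fin n'), b.repr (v : V) (Fin.castAdd _ i) = b'.repr v i := by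
      intro v i
      have h1 : e.symm (v : V) = (v, 0) := by
        rw [LinearEquiv.symm_apply_eq]
        simp [e]
      simp only [b, Module.Basis.repr_reindex, Module.Basis.map_repr, LinearEquiv.trans_apply]
      rw [h1, Finsupp.mapDomain_equiv_apply, finSumFinEquiv_symm_apply_castAdd]
      simp
    have hrr : ∀ (v : W L) (i : Fin (Module.finrank ℝ U)),
        b.repr (v : V) (Fin.natAdd _ i) = 0 := by
      intro v i
      have h1 : e.symm (v : V) = (v, 0) := by
        rw [LinearEquiv.symm_apply_eq]
        simp [e]
      simp only [b, Module.Basis.repr_reindex, Module.Basis.map_repr, LinearEquiv.trans_apply]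
      rw [h1, Finsupp.mapDomain_equiv_apply, finSumFinEquiv_symm_apply_natAdd]
      simp
    -- `T` maps everything to `W L`
    have hT1 : ∀ v, T v ∈ W L := fun v => hT L v (by rw [hL]; trivial)
    let T' : W L →ₗ[ℝ] W L := (T.codRestrict (W L) hT1).comp (W L).subtype
    have hT' := hb' T' (fun s v hv => hT s _ hv)
    intro i j hij
    rw [LinearMap.toMatrix_apply]
    induction i using Fin.addCases with
    | right i => exact hrr ⟨T (b j), hT1 _⟩ i
    | left i =>
      induction j using Fin.addCases with
      | left j =>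
        rw [hbl]
        have := hT' i j (by simpa using hij)
        rw [LinearMap.toMatrix_apply] at this
        rw [← this]
        exact hrl (T' (b' j)) i
      | right j =>
        exfalso
        simp only [Fin.val_natAdd, Fin.val_castAdd] at hij
        have := i.isLt
        omega

/-- S_TRI -/
theorem tri305 : S_TRI := by
  intro V _ _ _ L W h0 hm hL
  exact tri305_aux L V W h0 hm hL

end Pool.Agent.N305.PR
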